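import Pool.Agent.Lib.MP_d9bae3_nt.SK.Base

/-!
# Module SRK-PrimeSum: the sum of 1/N(q) over the primes of a number field diverges

Plan.  Suppose that `∑_{q ∈ A} 1/N(q) < M` for all finite sets `A` of primes outside the finite set `B`; then there is `M'` with
`∑_{q ∈ A} 1/N(q) ≤ M'` for all finite sets `A` of primes.  For `x ≥ 1` let `P_x` be the (finite) set of the primes with `N(q) ≤ x`.
Every nonzero ideal `I` with `N(I) ≤ x` is a product of primes of `P_x` with exponents `≤ x`, so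
`∑_{N(I) ≤ x} 1/N(I) ≤ ∏_{q ∈ P_x} ∑_{k ≤ x} N(q)^(-k) ≤ ∏_{q ∈ P_x} (1 + 2/N(q)) ≤ exp (2 M')`   (as `N(q) ≥ 2`).
But by `NumberField.Ideal.tendsto_norm_le_div_atTop` (used in Pool/Agent/Lib/MP_e426f4_ag/N/Ideals.lean: `count_le`, look there)
the number `a(x)` of the ideals of norm `≤ x` is `~ κ x`, `κ > 0`; so for large `K` and `x_k = L^k` with `L` large, `a(x_{k+1}) - a(x_k) ≥ (κ/2) x_{k+1}`,
each such ideal contributes `≥ 1/x_{k+1}`, and `∑_{N(I) ≤ x} 1/N(I)` is unbounded.
(The unique factorisation part: either induction over the finset `P_x`, or the finitely supported functions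
`factorsEquiv`/`Ideal.finprod_heightOneSpectrum_factorization`; alternatively use `Finset.prod_sum`/`Finset.prod_univ_sum` and that every ideal `I` of
norm `≤ x` equals `∏_{q ∈ P_x} q ^ k_q` for some `k : P_x → {0..x}`, hence is in the image of this map; only surjectivity onto these ideals is needed.)
See also Mathlib/NumberTheory/NumberField/DedekindZeta.lean and the team file Pool/Agent/Lib/MP_4a73e4_nt/WF/NZeta.lean in outputs/live
(`near_one`, `summable_zt`, `sum_ideals_le`, `prod_inj`: sums over ideals and products over primes), which may be copied in part.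
Another way (Erdos): if the sum over the primes outside the finite set `P` is `≤ κ/(4C)` (`a(x) ≤ C x`), then at most `κ x/4` ideals of norm `≤ x` are divisible by a prime outside `P`,
and at most `(log_2 x + 1)^|P|` ideals of norm `≤ x` have all their prime divisors in `P`; so `a(x) ≤ κ x/4 + o(x)`, a contradiction.
-/

namespace StarkR

open NumberField IsDedekindDomain

private theorem two_le_nm {F : Type} [Field F] [NumberField F] (q : Prm F) : (2 : ℝ) ≤ (nm q : ℝ) := by
  have h0 : Ideal.absNorm q.asIdeal ≠ 0 := by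
    rw [Ne, Ideal.absNorm_eq_zero_iff]; exact q.ne_bot
  have h1 : Ideal.absNorm q.asIdeal ≠ 1 := by
    rw [Ne, Ideal.absNorm_eq_one_iff]; exact q.isPrime.ne_top
  have h2 : 2 ≤ nm q := by unfold nm; omega
  exact_mod_cast h2

private theorem geo_le (x : ℝ) (hx : 2 ≤ x) (K : ℕ) : ∑ k ∈ Finset.range K, (1 / x) ^ k ≤ 1 + 2 / x := by
  have h1 : (1 : ℝ) / x < 1 := by rw [div_lt_one (by linarith)]; linarith
  have h0 : (0 : ℝ) ≤ 1 / x := by positivity
  have h2 : ∑ k ∈ Finset.range K, (1 / x) ^ k ≤ (1 - 1 / x)⁻¹ := by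
    rw [← tsum_geometric_of_lt_one h0 h1]
    exact (summable_geometric_of_lt_one h0 h1).sum_le_tsum _ (fun k _ => by positivity)
  refine h2.trans ?_
  have h3 : 0 < 1 - 1 / x := by linarith
  rw [inv_le_iff_one_le_mul₀ h3]
  have h4 : (1 + 2 / x) * (1 - 1 / x) = 1 + (x - 2) / x ^ 2 := by
    field_simp
    ring
  rw [h4]
  have : 0 ≤ (x - 2) / x ^ 2 := div_nonneg (by linarith) (by positivity)
  linarith

private theorem key {F : Type} [Field F] [NumberField F] (P : Finset (Prm F)) :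
    ∀ T : Finset (Ideal (𝓞 F)), (∀ I ∈ T, I ≠ ⊥ ∧ ∀ q : Prm F, q.asIdeal ∣ I → q ∈ P) →
      ∑ I ∈ T, 1 / (Ideal.absNorm I : ℝ) ≤ ∏ q ∈ P, (1 + 2 / (nm q : ℝ)) := by
  classical
  induction P using Finset.induction_on with
  | empty =>
    intro T hT
    have hsub : T ⊆ {⊤} := by
      intro I hI
      rw [Finset.mem_singleton]
      by_contra hne
      obtain ⟨m, hm, hle⟩ := Ideal.exists_le_maximal I hne
      have hmb : m ≠ ⊥ := by
        intro hb
        rw [hb] at hle
        exact (hT I hI).1 (le_bot_iff.mp hle)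
      have := (hT I hI).2 ⟨m, hm.isPrime, hmb⟩ (Ideal.dvd_iff_le.mpr hle)
      simp at this
    refine (Finset.sum_le_sum_of_subset_of_nonneg hsub (fun _ _ _ => by positivity)).trans ?_
    simp
  | insert q P hq ih =>
    intro T hT
    have hdec : ∀ I : Ideal (𝓞 F), ∃ kJ : ℕ × Ideal (𝓞 F), I ≠ ⊥ → I = q.asIdeal ^ kJ.1 * kJ.2 ∧ ¬ q.asIdeal ∣ kJ.2 := by
      intro I
      by_cases hI : I = ⊥
      · exact ⟨(0, ⊤), fun h => absurd hI h⟩
      · have hfin : FiniteMultiplicity q.asIdeal I :=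
          FiniteMultiplicity.of_not_isUnit (by rw [Ideal.isUnit_iff]; exact q.isPrime.ne_top) hI
        obtain ⟨J, hJ, hJ'⟩ := hfin.exists_eq_pow_mul_and_not_dvd
        exact ⟨(_, J), fun _ => ⟨hJ, hJ'⟩⟩
    choose f hf using hdec
    have hinj : Set.InjOn f (T : Set (Ideal (𝓞 F))) := by
      intro I hI J hJ h
      rw [(hf I (hT I hI).1).1, (hf J (hT J hJ).1).1, h]
    set T' := T.image (fun I => (f I).2) with hT'
    set K := T.sup (fun I => (f I).1) + 1 with hK
    have hsub : T.image f ⊆ Finset.range K ×ˢ T' := by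
      intro x hx
      obtain ⟨I, hI, rfl⟩ := Finset.mem_image.mp hx
      rw [Finset.mem_product, Finset.mem_range]
      refine ⟨?_, Finset.mem_image_of_mem _ hI⟩
      have := Finset.le_sup (f := fun I => (f I).1) hI
      omega
    have h1 : ∑ I ∈ T, 1 / (Ideal.absNorm I : ℝ) =
        ∑ x ∈ T.image f, (1 / (nm q : ℝ)) ^ x.1 * (1 / (Ideal.absNorm x.2 : ℝ)) := by
      rw [Finset.sum_image hinj]
      refine Finset.sum_congr rfl fun I hI => ?_
      conv_lhs => rw [(hf I (hT I hI).1).1]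
      rw [map_mul, map_pow]
      push_cast
      rw [one_div_pow, one_div_mul_one_div]
      rfl
    have h2 : ∑ x ∈ T.image f, (1 / (nm q : ℝ)) ^ x.1 * (1 / (Ideal.absNorm x.2 : ℝ)) ≤
        ∑ x ∈ Finset.range K ×ˢ T', (1 / (nm q : ℝ)) ^ x.1 * (1 / (Ideal.absNorm x.2 : ℝ)) :=
      Finset.sum_le_sum_of_subset_of_nonneg hsub (fun _ _ _ => by positivity)
    have h3 : ∑ x ∈ Finset.range K ×ˢ T', (1 / (nm q : ℝ)) ^ x.1 * (1 / (Ideal.absNorm x.2 : ℝ)) =
        (∑ k ∈ Finset.range K, (1 / (nm q : ℝ)) ^ k) * ∑ J ∈ T', 1 / (Ideal.absNorm J : ℝ) := by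
      rw [Finset.sum_mul_sum, Finset.sum_product]
    have h4 : ∑ J ∈ T', 1 / (Ideal.absNorm J : ℝ) ≤ ∏ q ∈ P, (1 + 2 / (nm q : ℝ)) := by
      apply ih
      intro J hJ
      obtain ⟨I, hI, rfl⟩ := Finset.mem_image.mp hJ
      obtain ⟨hI1, hI2⟩ := hf I (hT I hI).1
      refine ⟨fun h0 => (hT I hI).1 ?_, fun r hr => ?_⟩
      · rw [hI1, h0, Ideal.mul_bot]
      · have h5 : r ∈ insert q P := (hT I hI).2 r (by rw [hI1]; exact hr.mul_left _)
        rcases Finset.mem_insert.mp h5 with h6 | h6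
        · rw [h6] at hr
          exact absurd hr hI2
        · exact h6
    rw [h1, Finset.prod_insert hq]
    refine h2.trans (h3.trans_le ?_)
    refine mul_le_mul (geo_le _ (two_le_nm q) K) h4 (Finset.sum_nonneg fun _ _ => by positivity) (by positivity)

private theorem bounded {F : Type} [Field F] [NumberField F] (M : ℝ)
    (h : ∀ A : Finset (Prm F), ∑ q ∈ A, 1 / (nm q : ℝ) ≤ M) (T : Finset (Ideal (𝓞 F)))
    (hT : ∀ I ∈ T, I ≠ ⊥) : ∑ I ∈ T, 1 / (Ideal.absNorm I : ℝ) ≤ Real.exp (2 * M) := by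
  classical
  have hfin : (⋃ I ∈ T, {q : Prm F | q.asIdeal ∣ I}).Finite :=
    T.finite_toSet.biUnion fun I hI => Ideal.finite_factors (hT I hI)
  have h1 := key hfin.toFinset T (fun I hI => ⟨hT I hI, fun q hq => by
    rw [Set.Finite.mem_toFinset, Set.mem_iUnion₂]
    exact ⟨I, hI, hq⟩⟩)
  refine h1.trans ?_
  calc ∏ q ∈ hfin.toFinset, (1 + 2 / (nm q : ℝ)) ≤ ∏ q ∈ hfin.toFinset, Real.exp (2 / (nm q : ℝ)) :=
        Finset.prod_le_prod (fun _ _ => by positivity) fun q _ => by
          rw [add_comm]; exact Real.add_one_le_exp _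
    _ = Real.exp (2 * ∑ q ∈ hfin.toFinset, 1 / (nm q : ℝ)) := by
        rw [← Real.exp_sum, Finset.mul_sum]
        congr 1
        refine Finset.sum_congr rfl fun q _ => ?_
        ring
    _ ≤ Real.exp (2 * M) := Real.exp_le_exp.mpr (by have := h hfin.toFinset; linarith)

private theorem fin_le {F : Type} [Field F] [NumberField F] (x : ℝ) :
    {I : Ideal (𝓞 F) | (Ideal.absNorm I : ℝ) ≤ x}.Finite := by
  refine (Ideal.finite_setOfPred_absNorm_le (S := 𝓞 F) ⌊x⌋₊).subset fun I h => ?_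
  have h' : (Ideal.absNorm I : ℝ) ≤ x := h
  exact Nat.le_floor h'

private theorem unbounded (F : Type) [Field F] [NumberField F] (E : ℝ)
    (h : ∀ T : Finset (Ideal (𝓞 F)), (∀ I ∈ T, I ≠ ⊥) → ∑ I ∈ T, 1 / (Ideal.absNorm I : ℝ) ≤ E) :
    False := by
  classical
  have hs : Summable fun I : Ideal (𝓞 F) => 1 / (Ideal.absNorm I : ℝ) := by
    refine summable_of_sum_le (c := E) (fun I => by positivity) fun S => ?_
    have h1 : ∑ I ∈ S, 1 / (Ideal.absNorm I : ℝ) =
        ∑ I ∈ S.filter (fun I => I ≠ ⊥), 1 / (Ideal.absNorm I : ℝ) := by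
      rw [Finset.sum_filter_of_ne]
      intro I _ hne h0
      rw [h0, Ideal.absNorm_bot] at hne
      simp at hne
    rw [h1]
    exact h _ fun I hI => (Finset.mem_filter.mp hI).2
  have hlim := NumberField.Ideal.tendsto_norm_le_div_atTop F
  have hres := NumberField.dedekindZeta_residue_pos F
  rw [NumberField.dedekindZeta_residue_def] at hres
  set κ := (2 ^ InfinitePlace.nrRealPlaces F * (2 * Real.pi) ^ InfinitePlace.nrComplexPlaces F *
    Units.regulator F * classNumber F) / (Units.torsionOrder F * Real.sqrt |discr F|) with hκ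
  obtain ⟨T0, hT0⟩ := summable_iff_vanishing_norm.mp hs (κ / 4) (by positivity)
  have h1 := hlim.eventually (lt_mem_nhds (show κ / 2 < κ by linarith))
  obtain ⟨x, ⟨hx1, hx2⟩, hx3⟩ := ((h1.and (Filter.eventually_ge_atTop (1 : ℝ))).and
    (Filter.eventually_gt_atTop ((4 * (T0.card + 1)) / κ))).exists
  rw [lt_div_iff₀ (by linarith)] at hx1
  set S := (fin_le (F := F) x).toFinset with hS
  have hcard : (Nat.card {I : Ideal (𝓞 F) // (Ideal.absNorm I : ℝ) ≤ x} : ℝ) = (S.card : ℝ) := by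
    rw [hS, ← Set.ncard_eq_toFinset_card _ (fin_le (F := F) x)]
    rfl
  rw [hcard] at hx1
  set U := S \ (insert ⊥ T0) with hU
  have hUd : Disjoint U T0 := by
    rw [Finset.disjoint_left]
    intro I hI hI0
    rw [hU, Finset.mem_sdiff] at hI
    exact hI.2 (Finset.mem_insert_of_mem hI0)
  have h2 := hT0 U hUd
  have h3 : (U.card : ℝ) * (1 / x) ≤ ∑ I ∈ U, 1 / (Ideal.absNorm I : ℝ) := by
    rw [← nsmul_eq_mul]
    refine Finset.card_nsmul_le_sum _ _ _ fun I hI => ?_
    rw [hU, Finset.mem_sdiff] at hI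
    have hI0 : Ideal.absNorm I ≠ 0 := by
      rw [Ne, Ideal.absNorm_eq_zero_iff]
      rintro rfl
      exact hI.2 (Finset.mem_insert_self _ _)
    have hI1 : (Ideal.absNorm I : ℝ) ≤ x := by
      have := hI.1
      rw [hS, Set.Finite.mem_toFinset] at this
      exact this
    exact one_div_le_one_div_of_le (by exact_mod_cast Nat.pos_of_ne_zero hI0) hI1
  have h4 : (U.card : ℝ) * (1 / x) < κ / 4 := lt_of_le_of_lt (h3.trans (le_abs_self _)) h2
  rw [mul_one_div, div_lt_iff₀ (by linarith)] at h4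
  have h5 : (S.card : ℝ) ≤ U.card + (T0.card + 1) := by
    have h6 : S.card ≤ (insert ⊥ T0).card + (S \ (insert ⊥ T0)).card := by
      have := Finset.card_le_card_sdiff_add_card (s := S) (t := insert (⊥ : Ideal (𝓞 F)) T0)
      omega
    have h7 := Finset.card_insert_le (⊥ : Ideal (𝓞 F)) T0
    rw [← hU] at h6
    exact_mod_cast (by omega : S.card ≤ U.card + (T0.card + 1))
  rw [div_lt_iff₀ hres] at hx3
  nlinarith

/-- the sum of the reciprocals of the norms of the primes diverges -/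
theorem prime_sum (F : Type) [Field F] [NumberField F] (B : Set (Prm F)) (hB : B.Finite) (M : ℝ) :
    ∃ A : Finset (Prm F), (∀ q ∈ A, q ∉ B) ∧ M ≤ ∑ q ∈ A, 1 / (nm q : ℝ) := by
  classical
  by_contra hcon
  push Not at hcon
  refine unbounded F _ (bounded (M + ∑ q ∈ hB.toFinset, 1 / (nm q : ℝ)) fun A => ?_)
  have h1 : ∑ q ∈ A, 1 / (nm q : ℝ) = ∑ q ∈ A.filter (fun q => q ∉ B), 1 / (nm q : ℝ) +
      ∑ q ∈ A.filter (fun q => ¬ q ∉ B), 1 / (nm q : ℝ) :=
    (Finset.sum_filter_add_sum_filter_not A (fun q => q ∉ B) _).symm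
  have h2 := hcon (A.filter (fun q => q ∉ B)) (fun q hq => (Finset.mem_filter.mp hq).2)
  have h3 : ∑ q ∈ A.filter (fun q => ¬ q ∉ B), 1 / (nm q : ℝ) ≤ ∑ q ∈ hB.toFinset, 1 / (nm q : ℝ) := by
    refine Finset.sum_le_sum_of_subset_of_nonneg (fun q hq => ?_) (fun _ _ _ => by positivity)
    rw [Set.Finite.mem_toFinset]
    exact not_not.mp (Finset.mem_filter.mp hq).2
  rw [h1]
  linarith

end StarkR
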