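import Pool.Agent.Lib.MP_d9bae3_nt.SK.Kum

/-!
# Module SRK-Dec: decomposition groups fix the Kummer elements

Plan.  Let `e ∣ pr e c v`, `pr e c v = e t`.  By `bet_pow`, `β^e = ∏_w b_w ^ pr e c w` for `β = bet α c`, so `β' = β / b_v^t` satisfies
`β'^e = u := ∏_{w ≠ v} b_w ^ pr e c w ∈ 𝓞 F` (`b_v ≠ 0` as `b_v ∉ q^2`).  `β'` is integral: let `y : 𝓞 H` be this element.  `u ∉ q`
(`q` is prime and `b_w ∉ q`), and `u ≡ x^e` modulo `q` with `x = ∏_{w ≠ v} x_w ^ pr e c w`.  So in the domain `𝓞 H / Q`: `y^e = x^e`, and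
`y^e - x^e = ∏_{k<e} (y - ζ^k x)` (`IsPrimitiveRoot.pow_sub_pow_eq_prod_sub_mul`, with the integral `ζ : 𝓞 F`, see `IsPrimitiveRoot.toInteger`), so
`y - ζ^k x ∈ Q` for some `k`.  Let `σ Q = Q`.  `σ` fixes `ζ^k x`, so `σ y - ζ^k x ∈ Q` and `σ y - y ∈ Q`.  On the other hand `(σ y)^e = y^e`, so
`σ y = ζ^j y` for some `j`, and `(ζ^j - 1) y ∈ Q`; `y ∉ Q` (otherwise `u ∈ Q ∩ 𝓞 F = q`), so `ζ^j - 1 ∈ Q`.  If `ζ^j ≠ 1` then `ζ^j - 1` divides
`e` (`∏_{0<k<e} (1 - ζ^k) = e`: Mathlib `IsPrimitiveRoot.prod_one_sub_pow_eq_order` or similar; or: `ω = ζ^j ≠ 1`, `1 + ω + ... + ω^(e-1) = 0`, and modulo `Q`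
this is `e`), so `e ∈ Q ∩ 𝓞 F = q`, a contradiction.  (The last argument in brackets is the easiest: if `ω - 1 ∈ Q` then `∑_{k<e} ω^k ≡ e`, and the sum is `0`.)
Hence `σ y = y` and `σ β = β`.
-/

namespace StarkR

open NumberField IsDedekindDomain
open scoped Pointwise

variable {F : Type} [Field F] [NumberField F] {m : ℕ} {n : Fin m → ℕ} [∀ i, NeZero (n i)]
variable {H : Type} [Field H] [NumberField H] [Algebra F H]

theorem dec_fix {e : ℕ} {ζ : F} (hζ : IsPrimitiveRoot ζ e) (he : 0 < e) (hn : ∀ i, n i ∣ e) {b : V n → 𝓞 F}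
    {α : Fin m → H} (h : IsExt b H α) {q : Prm F} (heq : (e : 𝓞 F) ∉ q.asIdeal) {v c : V n} (hv : Ev e v b q)
    (hcv : e ∣ pr e c v) (Q : Ideal (𝓞 H)) (hQ : Q.IsPrime) (hQq : Q.LiesOver q.asIdeal) (σ : Gal(H/F))
    (hσ : σ ∈ MulAction.stabilizer Gal(H/F) Q) : σ (bet α c) = bet α c := by
  classical
  obtain ⟨t, ht⟩ := hcv
  obtain ⟨hbv, hbv2, hbw⟩ := hv
  have hbv0 : b v ≠ 0 := fun h0 => hbv2 (h0 ▸ Ideal.zero_mem _)
  have hqp : q.asIdeal.IsPrime := q.isPrime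
  have h1 : ∀ w, w ≠ v → b w ∉ q.asIdeal := fun w hw => (hbw w hw).1
  have h2 : ∀ w, ∃ x : 𝓞 F, w ≠ v → b w - x ^ e ∈ q.asIdeal := by
    intro w
    by_cases hw : w = v
    · exact ⟨0, fun h => absurd hw h⟩
    · obtain ⟨x, hx⟩ := (hbw w hw).2
      exact ⟨x, fun _ => hx⟩
  choose xw hxw using h2
  set u : 𝓞 F := ∏ w ∈ Finset.univ.erase v, b w ^ pr e c w with hudef
  set x : 𝓞 F := ∏ w ∈ Finset.univ.erase v, xw w ^ pr e c w with hxdef
  have huq : u ∉ q.asIdeal := by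
    intro hmem
    rw [hudef, hqp.prod_mem_iff] at hmem
    obtain ⟨w, hw, hwm⟩ := hmem
    exact h1 w (Finset.ne_of_mem_erase hw) (hqp.mem_of_pow_mem _ hwm)
  have hux : u - x ^ e ∈ q.asIdeal := by
    rw [← Ideal.Quotient.eq, hudef, hxdef, map_pow, map_prod, map_prod, ← Finset.prod_pow]
    refine Finset.prod_congr rfl fun w hw => ?_
    have h3 : Ideal.Quotient.mk q.asIdeal (b w) = Ideal.Quotient.mk q.asIdeal (xw w) ^ e := by
      rw [← map_pow, Ideal.Quotient.eq]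
      exact hxw w (Finset.ne_of_mem_erase hw)
    rw [map_pow, map_pow, h3, ← pow_mul, ← pow_mul, mul_comm]
  set bH : H := algebraMap F H (b v : F) with hbHdef
  have hbH0 : bH ≠ 0 := by
    rw [hbHdef]
    intro h0
    have h3 : ((b v : 𝓞 F) : F) = 0 := by simpa using h0
    exact hbv0 (by simpa using h3)
  set β : H := bet α c / bH ^ t with hβdef
  have hβe : β ^ e = algebraMap F H (u : F) := by
    have h3 := bet_pow (α := α) hn h c
    rw [← Finset.mul_prod_erase Finset.univ (fun w => b w ^ pr e c w) (Finset.mem_univ v)] at h3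
    rw [hβdef, div_pow, h3, ← pow_mul, ht]
    simp only [map_mul, map_pow]
    rw [← hudef, mul_comm t e, ← hbHdef]
    have hne : bH ^ (e * t) ≠ 0 := pow_ne_zero _ hbH0
    rw [mul_comm (bH ^ (e * t)), mul_div_assoc, div_self hne, mul_one]
  have hint : IsIntegral ℤ β := by
    refine IsIntegral.of_pow he ?_
    rw [hβe]
    exact (RingOfIntegers.isIntegral_coe u).algebraMap
  obtain ⟨y, hy⟩ : ∃ y : 𝓞 H, algebraMap (𝓞 H) H y = β :=
    (IsIntegralClosure.isIntegral_iff (A := 𝓞 H)).1 hint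
  have hinj : Function.Injective (algebraMap (𝓞 H) H) := FaithfulSMul.algebraMap_injective _ _
  have hmap : ∀ z : 𝓞 F, algebraMap (𝓞 H) H (algebraMap (𝓞 F) (𝓞 H) z) = algebraMap F H (z : F) := by
    intro z
    rw [← IsScalarTower.algebraMap_apply (𝓞 F) (𝓞 H) H, IsScalarTower.algebraMap_apply (𝓞 F) F H]
  have hye : y ^ e = algebraMap (𝓞 F) (𝓞 H) u := by
    apply hinj
    rw [map_pow, hy, hβe, hmap]
  have hsm : ∀ (τ : Gal(H/F)) (z : 𝓞 H), algebraMap (𝓞 H) H (τ • z) = τ (algebraMap (𝓞 H) H z) := by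
    intro τ z
    rw [algebraMap.smul' τ z H]
    rfl
  have hfix : ∀ z : 𝓞 F, σ • (algebraMap (𝓞 F) (𝓞 H) z) = algebraMap (𝓞 F) (𝓞 H) z := by
    intro z
    apply hinj
    rw [hsm, hmap]
    exact σ.commutes _
  have hmemQ : ∀ z : 𝓞 F, algebraMap (𝓞 F) (𝓞 H) z ∈ Q ↔ z ∈ q.asIdeal := by
    intro z
    rw [hQq.over]
    rfl
  have hyQ : y ∉ Q := by
    intro hmem
    have h3 : algebraMap (𝓞 F) (𝓞 H) u ∈ Q := by
      rw [← hye]
      exact Ideal.pow_mem_of_mem _ hmem _ he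
    exact huq ((hmemQ u).1 h3)
  -- the root of unity
  obtain ⟨Z, hZ⟩ : ∃ Z : 𝓞 F, algebraMap (𝓞 F) F Z = ζ :=
    (IsIntegralClosure.isIntegral_iff (A := 𝓞 F)).1 (hζ.isIntegral he)
  have hZH : IsPrimitiveRoot (algebraMap (𝓞 F) (𝓞 H) Z) e := by
    have h3 : IsPrimitiveRoot (algebraMap F H ζ) e :=
      hζ.map_of_injective (FaithfulSMul.algebraMap_injective F H)
    refine IsPrimitiveRoot.of_map_of_injective (f := algebraMap (𝓞 H) H) ?_ hinj
    rw [hmap]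
    rw [← hZ] at h3
    exact h3
  have hroot : ∀ w : 𝓞 H, w ^ e = 1 → σ • w = w := by
    intro w hw
    have : NeZero e := ⟨he.ne'⟩
    obtain ⟨i, _, hi⟩ := hZH.eq_pow_of_pow_eq_one hw
    rw [← hi, smul_pow', hfix]
  have hprod : y ^ e - (algebraMap (𝓞 F) (𝓞 H) x) ^ e ∈ Q := by
    rw [hye, ← map_pow, ← map_sub]
    exact (hmemQ _).2 hux
  rw [hZH.pow_sub_pow_eq_prod_sub_mul _ _ he, hQ.prod_mem_iff] at hprod
  obtain ⟨w, hw, hwQ⟩ := hprod
  have hwe : w ^ e = 1 := (Polynomial.mem_nthRootsFinset he _).1 hw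
  have hσQ : ∀ z ∈ Q, σ • z ∈ Q := by
    intro z hz
    have h3 : σ • Q = Q := MulAction.mem_stabilizer_iff.1 hσ
    rw [← h3]
    exact Ideal.smul_mem_pointwise_smul _ _ _ hz
  have hσy : σ • y - y ∈ Q := by
    have h3 := hσQ _ hwQ
    rw [smul_sub, smul_mul', hroot w hwe, hfix] at h3
    have h4 := Q.sub_mem h3 hwQ
    have h5 : σ • y - w * algebraMap (𝓞 F) (𝓞 H) x - (y - w * algebraMap (𝓞 F) (𝓞 H) x) = σ • y - y := by
      ring
    rwa [h5] at h4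
  -- `σ y = ω y`
  have hy0 : y ≠ 0 := fun h0 => hyQ (h0 ▸ Q.zero_mem)
  have hβ0 : β ≠ 0 := by
    rw [← hy]
    intro h0
    exact hy0 (hinj (by rw [h0, map_zero]))
  have hσye : (σ • y) ^ e = y ^ e := by
    rw [← smul_pow', hye, hfix]
  obtain ⟨j, hj⟩ : ∃ j : ℕ, σ • y = (algebraMap (𝓞 F) (𝓞 H) Z) ^ j * y := by
    have : NeZero e := ⟨he.ne'⟩
    have h3 : IsPrimitiveRoot (algebraMap (𝓞 H) H (algebraMap (𝓞 F) (𝓞 H) Z)) e :=
      hZH.map_of_injective hinj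
    have h4 : (algebraMap (𝓞 H) H (σ • y) / algebraMap (𝓞 H) H y) ^ e = 1 := by
      rw [div_pow, ← map_pow, ← map_pow, hσye, div_self]
      rw [map_pow, hy]
      exact pow_ne_zero _ hβ0
    obtain ⟨i, _, hi⟩ := h3.eq_pow_of_pow_eq_one h4
    refine ⟨i, hinj ?_⟩
    rw [map_mul, map_pow, hi, div_mul_cancel₀]
    rw [hy]
    exact hβ0
  set ω : 𝓞 H := (algebraMap (𝓞 F) (𝓞 H) Z) ^ j with hωdef
  have hωe : ω ^ e = 1 := by
    rw [hωdef, ← pow_mul, mul_comm, pow_mul, hZH.pow_eq_one, one_pow]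
  have hωQ : ω - 1 ∈ Q := by
    have h3 : (ω - 1) * y ∈ Q := by
      have h4 : (ω - 1) * y = σ • y - y := by rw [hj]; ring
      rw [h4]
      exact hσy
    exact (hQ.mem_or_mem h3).resolve_right hyQ
  have hω1 : ω = 1 := by
    by_contra hne
    have hsum : ∑ k ∈ Finset.range e, ω ^ k = 0 := by
      have h3 := mul_geom_sum ω e
      rw [hωe, sub_self] at h3
      exact (mul_eq_zero.1 h3).resolve_left (sub_ne_zero.2 hne)
    have h4 : Ideal.Quotient.mk Q ω = 1 := by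
      rw [← map_one (Ideal.Quotient.mk Q), Ideal.Quotient.eq]
      exact hωQ
    have h5 : Ideal.Quotient.mk Q (∑ k ∈ Finset.range e, ω ^ k) = Ideal.Quotient.mk Q (e : 𝓞 H) := by
      rw [map_sum, map_natCast]
      simp [map_pow, h4]
    rw [hsum, map_zero] at h5
    have h6 : (e : 𝓞 H) ∈ Q := Ideal.Quotient.eq_zero_iff_mem.1 h5.symm
    have h7 : algebraMap (𝓞 F) (𝓞 H) (e : 𝓞 F) ∈ Q := by
      rw [map_natCast]
      exact h6
    exact heq ((hmemQ _).1 h7)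
  have hσyy : σ • y = y := by rw [hj, hω1, one_mul]
  have hσβ : σ β = β := by rw [← hy, ← hsm, hσyy]
  have hfin : bet α c = β * bH ^ t := by
    rw [hβdef, div_mul_cancel₀]
    exact pow_ne_zero _ hbH0
  rw [hfin, map_mul, map_pow, hσβ, hbHdef, σ.commutes]

end StarkR
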