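import Pool.Agent.Lib.MP_d9bae3_nt.SK.Base

/-!
# The Kummer map

`ζ ∈ F` is a primitive `e`-th root of unity, `n_i ∣ e`, `α_i ^ n_i = a_i ≠ 0`, and the `α_i` generate `H`.  For `σ` and `i` there
is a unique `k < n_i` with `σ α_i = ζ ^ (e / n_i * k) α_i`; these numbers define an injective homomorphism `κ` from the
Galois group to `V n`, and `σ (∏ α_i ^ c_i) = ζ ^ pr e c (κ σ) ∏ α_i ^ c_i`.
-/

namespace StarkR

open NumberField IsDedekindDomain

variable {F : Type} [Field F] [NumberField F] {m : ℕ} {n : Fin m → ℕ} [∀ i, NeZero (n i)]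
variable {H : Type} [Field H] [NumberField H] [Algebra F H]

theorem bet_pow {e : ℕ} (hn : ∀ i, n i ∣ e) {b : V n → 𝓞 F} {α : Fin m → H} (h : IsExt b H α) (c : V n) :
    bet α c ^ e = algebraMap F H ((∏ w : V n, b w ^ pr e c w : 𝓞 F) : F) := by
  have h3 : (∏ w : V n, b w ^ pr e c w : 𝓞 F) = ∏ i, rad b i ^ ((c i).val * (e / n i)) := by
    unfold rad pr
    simp_rw [← Finset.prod_pow]
    rw [Finset.prod_comm]
    refine Finset.prod_congr rfl fun w _ => ?_
    rw [← Finset.prod_pow_eq_pow_sum]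
    refine Finset.prod_congr rfl fun i _ => ?_
    rw [← pow_mul]
    congr 1
    ring
  have h1 : ∀ i, (α i ^ (c i).val) ^ e =
      algebraMap F H (((rad b i : 𝓞 F) : F) ^ ((c i).val * (e / n i))) := by
    intro i
    obtain ⟨d, hd⟩ := hn i
    have hni : 0 < n i := Nat.pos_of_ne_zero (NeZero.ne (n i))
    have h2 : e / n i = d := by rw [hd, Nat.mul_div_cancel_left d hni]
    rw [h2, map_pow, ← h.pow i, ← pow_mul, ← pow_mul, hd]
    congr 1
    ring
  have h4 : ((∏ w : V n, b w ^ pr e c w : 𝓞 F) : F) =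
      ∏ i, ((rad b i : 𝓞 F) : F) ^ ((c i).val * (e / n i)) := by
    rw [h3]
    simp only [map_prod, map_pow]
  rw [h4, map_prod, bet, ← Finset.prod_pow]
  exact Finset.prod_congr rfl fun i _ => h1 i

theorem kum {e : ℕ} {ζ : F} (hζ : IsPrimitiveRoot ζ e) (he : 0 < e) (hn : ∀ i, n i ∣ e) {b : V n → 𝓞 F}
    {α : Fin m → H} (h : IsExt b H α) (hb : ∀ i, rad b i ≠ 0) :
    ∃ κ : Gal(H/F) →* Multiplicative (V n), Function.Injective κ ∧
      ∀ (σ : Gal(H/F)) (c : V n), σ (bet α c) = algebraMap F H (ζ ^ pr e c (κ σ).toAdd) * bet α c := by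
  classical
  have hni : ∀ i, 0 < n i := fun i => Nat.pos_of_ne_zero (NeZero.ne (n i))
  have hz : ∀ i, IsPrimitiveRoot (algebraMap F H (ζ ^ (e / n i))) (n i) := fun i =>
    (hζ.pow he (Nat.div_mul_cancel (hn i)).symm).map_of_injective (algebraMap F H).injective
  have hα : ∀ i, α i ≠ 0 := by
    intro i h0
    have h1 := h.pow i
    rw [h0, zero_pow (hni i).ne'] at h1
    have h2 : ((rad b i : 𝓞 F) : F) = 0 := by
      have h3 : algebraMap F H ((rad b i : 𝓞 F) : F) = algebraMap F H 0 := by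
        rw [← h1, map_zero]
      exact (algebraMap F H).injective h3
    exact hb i (RingOfIntegers.ext h2)
  have hk : ∀ (σ : Gal(H/F)) (i : Fin m), ∃ k < n i,
      σ (α i) = (algebraMap F H (ζ ^ (e / n i))) ^ k * α i := by
    intro σ i
    have h1 : (σ (α i) / α i) ^ n i = 1 := by
      rw [div_pow, ← map_pow, h.pow i, AlgEquiv.commutes, ← h.pow i]
      exact div_self (pow_ne_zero _ (hα i))
    obtain ⟨k, hk1, hk2⟩ := (hz i).eq_pow_of_pow_eq_one h1
    exact ⟨k, hk1, by rw [hk2, div_mul_cancel₀ _ (hα i)]⟩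
  choose k hk1 hk2 using hk
  have hmul : ∀ (σ τ : Gal(H/F)) (i : Fin m),
      ((k (σ * τ) i : ℕ) : ZMod (n i)) = (k σ i : ZMod (n i)) + (k τ i : ZMod (n i)) := by
    intro σ τ i
    have h1 : (algebraMap F H (ζ ^ (e / n i))) ^ k (σ * τ) i * α i =
        (algebraMap F H (ζ ^ (e / n i))) ^ (k σ i + k τ i) * α i := by
      rw [← hk2, AlgEquiv.mul_apply, hk2 τ i, map_mul, map_pow, AlgEquiv.commutes, hk2 σ i, pow_add]
      ring
    have h2 := mul_right_cancel₀ (hα i) h1
    have h3 := pow_mod_orderOf (algebraMap F H (ζ ^ (e / n i))) (k σ i + k τ i)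
    rw [← (hz i).eq_orderOf] at h3
    have h4 := (hz i).pow_inj (hk1 (σ * τ) i) (Nat.mod_lt _ (hni i)) (h2.trans h3.symm)
    rw [← Nat.cast_add, h4, ZMod.natCast_mod]
  let κ : Gal(H/F) →* Multiplicative (V n) := MonoidHom.mk'
    (fun σ => Multiplicative.ofAdd (fun i => ((k σ i : ℕ) : ZMod (n i)))) (by
      intro σ τ
      rw [← ofAdd_add]
      congr 1
      funext i
      exact hmul σ τ i)
  have hκ : ∀ (σ : Gal(H/F)) (i : Fin m), ((κ σ).toAdd i).val = k σ i := by
    intro σ i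
    exact ZMod.val_natCast_of_lt (hk1 σ i)
  refine ⟨κ, ?_, ?_⟩
  · rw [injective_iff_map_eq_one]
    intro σ hσ
    have h0 : ∀ i, k σ i = 0 := by
      intro i
      rw [← hκ σ i, hσ]
      exact ZMod.val_zero
    have h1 : ∀ x : H, σ x = x := by
      intro x
      have hx : x ∈ IntermediateField.adjoin F (Set.range α) := by
        rw [h.gen]
        exact IntermediateField.mem_top
      induction hx using IntermediateField.adjoin_induction with
      | mem y hy =>
        obtain ⟨i, rfl⟩ := hy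
        rw [hk2 σ i, h0 i, pow_zero, one_mul]
      | algebraMap y => exact AlgEquiv.commutes σ y
      | add y z _ _ hy hz => rw [map_add, hy, hz]
      | inv y _ hy => rw [map_inv₀, hy]
      | mul y z _ _ hy hz => rw [map_mul, hy, hz]
    exact AlgEquiv.ext h1
  · intro σ c
    unfold bet pr
    rw [map_prod, ← Finset.prod_pow_eq_pow_sum, map_prod, ← Finset.prod_mul_distrib]
    refine Finset.prod_congr rfl fun i _ => ?_
    rw [map_pow, hk2 σ i, mul_pow, hκ σ i, map_pow, map_pow, ← pow_mul, ← pow_mul]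
    congr 2
    ring

end StarkR
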