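import Pool.Agent.Lib.MP_d9bae3_nt.SK.Base

/-!
# The primes with `Ev` are ramified

`α_i ^ n_i = a_i` has `q`-valuation `v_i`, which is not divisible by `n_i`; so the ramification index, which is the number of elements of the
inertia group, is not `1`.
-/

namespace StarkR

open NumberField IsDedekindDomain
open scoped Pointwise

variable {F : Type} [Field F] [NumberField F] {m : ℕ} {n : Fin m → ℕ} [∀ i, NeZero (n i)]
variable {H : Type} [Field H] [NumberField H] [Algebra F H]

private theorem iv_one {q : Prm F} {x : 𝓞 F} (hx : x ∉ q.asIdeal) : q.intValuation x = 1 := by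
  rw [HeightOneSpectrum.intValuation_eq_one_iff]
  exact hx

private theorem iv_exp {q : Prm F} {x : 𝓞 F} (h1 : x ∈ q.asIdeal) (h2 : x ∉ q.asIdeal ^ 2) :
    q.intValuation x = WithZero.exp (-1 : ℤ) := by
  refine le_antisymm ?_ ?_
  · have := (q.intValuation_le_pow_iff_mem x 1).2 (by simpa using h1)
    simpa using this
  · by_contra hlt
    rw [not_le] at hlt
    refine h2 ((q.intValuation_le_pow_iff_mem x 2).1 ?_)
    rcases eq_or_ne x 0 with rfl | hx0
    · simp
    rw [HeightOneSpectrum.intValuation_if_neg _ hx0] at hlt ⊢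
    rw [WithZero.exp_lt_exp] at hlt
    rw [WithZero.exp_le_exp]
    push_cast
    omega

theorem ev_ramified [IsGalois F H] {e : ℕ} {b : V n → 𝓞 F} {α : Fin m → H} (h : IsExt b H α) {q : Prm F} {v : V n}
    (hv0 : v ≠ 0) (hv : Ev e v b q) : Ramified H q := by
  classical
  obtain ⟨i, hi⟩ : ∃ i, v i ≠ 0 := by
    by_contra hc
    push Not at hc
    exact hv0 (funext hc)
  obtain ⟨w, hw⟩ : ∃ w : Prm H, w.asIdeal.LiesOver q.asIdeal := by
    have hq := q.isMaximal
    obtain ⟨Q, hQ1, hQ2⟩ := Ideal.exists_maximal_ideal_liesOver_of_isIntegral q.asIdeal (S := 𝓞 H)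
    exact ⟨⟨Q, hQ1.isPrime, Ideal.ne_bot_of_liesOver_of_ne_bot q.ne_bot Q⟩, hQ2⟩
  -- valuation of `rad b i`
  have hk : q.intValuation (rad b i) = WithZero.exp (-((v i).val : ℤ)) := by
    unfold rad
    rw [map_prod, ← Finset.mul_prod_erase _ _ (Finset.mem_univ v), map_pow, iv_exp hv.1 hv.2.1, Finset.prod_eq_one,
      mul_one, ← WithZero.exp_nsmul]
    · simp
    · intro x hx
      rw [map_pow, iv_one (hv.2.2 x (Finset.ne_of_mem_erase hx)).1, one_pow]
  -- the integral root
  have hint : IsIntegral ℤ (α i) := by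
    refine IsIntegral.of_pow (Nat.pos_of_ne_zero (NeZero.ne (n i))) ?_
    rw [h.pow i]
    exact (RingOfIntegers.isIntegral_coe (rad b i)).map (algebraMap F H).toIntAlgHom
  set y : 𝓞 H := ⟨α i, hint⟩ with hy
  have hyp : y ^ n i = algebraMap (𝓞 F) (𝓞 H) (rad b i) := by
    apply RingOfIntegers.ext
    exact h.pow i
  have hE := HeightOneSpectrum.intValuation_liesOver q w (rad b i)
  rw [← hyp, map_pow, hk] at hE
  refine ⟨w.asIdeal, w.isPrime, hw, fun hbot => ?_⟩
  have hE1 : q.asIdeal.ramificationIdx' w.asIdeal = 1 := by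
    have hfin : Finite (𝓞 F ⧸ q.asIdeal) := Ideal.finiteQuotientOfFreeOfNeBot q.asIdeal q.ne_bot
    have hfin2 : Finite q.asIdeal.ResidueField := by
      have hb := q.isMaximal
      exact Finite.of_surjective _ (Ideal.bijective_algebraMap_quotient_residueField q.asIdeal).2
    have h5 := Ideal.card_inertia_eq_ramificationIdxIn (G := Gal(H/F)) q.asIdeal w.asIdeal
    rw [hbot, Subgroup.card_bot] at h5
    rw [Ideal.ramificationIdx'_eq_ramificationIdx q.asIdeal w.asIdeal q.ne_bot,
      ← Ideal.ramificationIdxIn_eq_ramificationIdx q.asIdeal w.asIdeal Gal(H/F), ← h5]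
  rw [hE1, pow_one] at hE
  have hy0 : y ≠ 0 := by
    rintro h0
    rw [h0, map_zero, zero_pow (NeZero.ne (n i))] at hE
    exact WithZero.exp_ne_zero hE
  rw [HeightOneSpectrum.intValuation_if_neg _ hy0, ← WithZero.exp_nsmul, WithZero.exp_inj] at hE
  have h2 : (n i : ℤ) ∣ ((v i).val : ℤ) := by
    rw [nsmul_eq_mul] at hE
    exact ⟨((Associates.mk w.asIdeal).count (Associates.mk (Ideal.span {y})).factors : ℤ), by linarith⟩
  have h3 : n i ∣ (v i).val := by exact_mod_cast h2
  have h4 := Nat.le_of_dvd (Nat.pos_of_ne_zero fun h0 => hi ((ZMod.val_eq_zero _).1 h0)) h3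
  exact absurd (ZMod.val_lt (v i)) (not_lt.2 h4)

end StarkR
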