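import Pool.Agent.Lib.MP_d9bae3_nt.SK.Base

/-!
# Module SRK-Chr: characters of subgroups of `∏ ℤ/n_i`

Pure group theory.  Plan.
* `chr`: let `κ : G →* Multiplicative (V n)` be injective.  A character `χ` of `G` is a character of `κ.range` (`MonoidHom.ofInjective`),
  which extends to a character `ψ` of `Multiplicative (V n)` by `MonoidHom.domRestrict_surjective` (ℂ has enough roots of unity).  For each `i` let
  `g_i` be the element with coordinate `1` at `i` and `0` elsewhere; `ψ(g_i)^(n_i) = 1`, so `ψ(g_i) = exp(2 π i c_i / n_i)` with `c_i < n_i`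
  (`Complex.isPrimitiveRoot_exp`, `IsPrimitiveRoot.eq_pow_of_pow_eq_one`).  Hence `ψ(v) = ∏ ψ(g_i)^(v_i) = exp(2 π i ∑ c_i v_i / n_i) = exp(2 π i pr e c v / e)`
  (as `c_i v_i (e/n_i) / e = c_i v_i / n_i`), which is `1` if and only if `e ∣ pr e c v`.
* `chr_surj`: if `κ` is not surjective, there is a character `ψ ≠ 1` of `Multiplicative (V n)` which is trivial on the range
  (`CommGroup.forall_monoidHom_apply_eq_one_iff`); as before `ψ(v) = exp(2 π i pr e c v / e)` for some `c`, so `e ∣ pr e c (κ σ)` for all `σ`, hence `c = 0` by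
  hypothesis, `pr e 0 v = 0` and `ψ = 1`: contradiction.
* `pr_zero_of`: if `e ∣ pr e c v` for all `v ≠ 0`, then `c = 0` (take `v = g_i`: `e ∣ c_i (e/n_i)` (if `n_i > 1`), so `n_i ∣ c_i < n_i`; if `n_i = 1`, `c_i = 0`).
-/

/-!
# Module SRK-Chr: characters of subgroups of `∏ ℤ/n_i`

Every character of `∏ ℤ/n_i` has the form `v ↦ ζ ^ pr e c v`, with a primitive `e`-th root of
unity `ζ`.
-/

namespace StarkR

variable {m : ℕ} {n : Fin m → ℕ} [∀ i, NeZero (n i)]

private theorem chr_decomp (v : V n) : v = ∑ i, (v i).val • (Pi.single i (1 : ZMod (n i)) : V n) := by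
  funext j
  rw [Finset.sum_apply, Finset.sum_eq_single j]
  · rw [Pi.smul_apply, Pi.single_eq_same, nsmul_eq_mul, mul_one, ZMod.natCast_zmod_val]
  · intro i _ hij
    rw [Pi.smul_apply, Pi.single_eq_of_ne (Ne.symm hij), smul_zero]
  · intro h; exact absurd (Finset.mem_univ j) h

private theorem chr_form {e : ℕ} (he : 0 < e) (hn : ∀ i, n i ∣ e)
    (ψ : Multiplicative (V n) →* ℂˣ) :
    ∃ c : V n, ∀ v : V n, ψ (Multiplicative.ofAdd v) = 1 ↔ e ∣ pr e c v := by
  have hζ : IsPrimitiveRoot (Complex.exp (2 * Real.pi * Complex.I / e)) e :=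
    Complex.isPrimitiveRoot_exp e he.ne'
  set ζ : ℂ := Complex.exp (2 * Real.pi * Complex.I / e) with hζdef
  have hi : ∀ i, IsPrimitiveRoot (ζ ^ (e / n i)) (n i) := by
    intro i
    exact hζ.pow he (Nat.div_mul_cancel (hn i)).symm
  have hex : ∀ i, ∃ k < n i, (ζ ^ (e / n i)) ^ k
      = ((ψ (Multiplicative.ofAdd (Pi.single i (1 : ZMod (n i)) : V n)) : ℂˣ) : ℂ) := by
    intro i
    refine (hi i).eq_pow_of_pow_eq_one ?_
    rw [← Units.val_pow_eq_pow_val, ← map_pow, ← ofAdd_nsmul]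
    have : (n i) • (Pi.single i (1 : ZMod (n i)) : V n) = 0 := by
      rw [← Pi.single_smul]
      simp
    rw [this]
    simp
  choose k hk1 hk2 using hex
  refine ⟨fun i => (k i : ZMod (n i)), fun v => ?_⟩
  have hval : ((ψ (Multiplicative.ofAdd v) : ℂˣ) : ℂ) = ζ ^ pr e (fun i => (k i : ZMod (n i))) v := by
    conv_lhs => rw [chr_decomp v]
    rw [ofAdd_sum, map_prod, Units.coe_prod]
    unfold pr
    rw [← Finset.prod_pow_eq_pow_sum]
    refine Finset.prod_congr rfl (fun i _ => ?_)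
    rw [ofAdd_nsmul, map_pow, Units.val_pow_eq_pow_val, ← hk2 i, ZMod.val_natCast_of_lt (hk1 i),
      ← pow_mul, ← pow_mul]
    congr 1
    ring
  rw [← Units.val_inj, hval, Units.val_one]
  exact hζ.pow_eq_one_iff_dvd _

private theorem chr_enough :
    HasEnoughRootsOfUnity ℂ (Monoid.exponent (Multiplicative (V n))) := by
  have : NeZero (Monoid.exponent (Multiplicative (V n))) :=
    ⟨Monoid.exponent_ne_zero_of_finite⟩
  infer_instance

theorem chr {G : Type} [Group G] (κ : G →* Multiplicative (V n)) (hκ : Function.Injective κ) {e : ℕ} (he : 0 < e)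
    (hn : ∀ i, n i ∣ e) (χ : G →* ℂˣ) : ∃ c : V n, ∀ σ, χ σ = 1 ↔ e ∣ pr e c (κ σ).toAdd := by
  have := chr_enough (n := n)
  let E : G ≃* κ.range := MonoidHom.ofInjective hκ
  obtain ⟨ψ, hψ⟩ := MonoidHom.domRestrict_surjective (G := Multiplicative (V n)) ℂ κ.range
    (χ.comp E.symm.toMonoidHom)
  obtain ⟨c, hc⟩ := chr_form he hn ψ
  refine ⟨c, fun σ => ?_⟩
  rw [← hc, ofAdd_toAdd]
  have h1 := DFunLike.congr_fun hψ (E σ)
  have h2 : ψ (κ σ) = χ σ := by
    have h3 : (χ.comp E.symm.toMonoidHom) (E σ) = χ σ := by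
      change χ (E.symm (E σ)) = χ σ
      rw [E.symm_apply_apply]
    rw [← h3, ← h1]
    rfl
  rw [h2]

theorem chr_surj {G : Type} [Group G] (κ : G →* Multiplicative (V n)) {e : ℕ} (he : 0 < e) (hn : ∀ i, n i ∣ e)
    (h : ∀ c : V n, (∀ σ, e ∣ pr e c (κ σ).toAdd) → c = 0) : Function.Surjective κ := by
  have := chr_enough (n := n)
  intro x
  rw [← MonoidHom.mem_range, ← CommGroup.forall_monoidHom_apply_eq_one_iff ℂ κ.range x]
  intro ψ hψ
  obtain ⟨c, hc⟩ := chr_form he hn ψ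
  have h0 : c = 0 := h c (fun σ => (hc _).1 (by rw [ofAdd_toAdd]; exact hψ _ ⟨σ, rfl⟩))
  have h1 := (hc x.toAdd).2 (by rw [h0]; simp [pr])
  rwa [ofAdd_toAdd] at h1

theorem pr_zero_of {e : ℕ} (he : 0 < e) (hn : ∀ i, n i ∣ e) (c : V n)
    (h : ∀ v : V n, v ≠ 0 → e ∣ pr e c v) : c = 0 := by
  funext i
  by_cases h1 : n i = 1
  · have : Subsingleton (ZMod (n i)) := by rw [h1]; infer_instance
    exact Subsingleton.elim _ _
  · have hn1 : 1 < n i := by
      have := NeZero.pos (n i)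
      omega
    have : Fact (1 < n i) := ⟨hn1⟩
    have h2 : (Pi.single i (1 : ZMod (n i)) : V n) ≠ 0 := by
      intro h3
      have h4 := congrFun h3 i
      rw [Pi.single_eq_same] at h4
      exact one_ne_zero h4
    have h3 := h _ h2
    have h4 : pr e c (Pi.single i (1 : ZMod (n i)) : V n) = (c i).val * (e / n i) := by
      unfold pr
      rw [Finset.sum_eq_single i]
      · rw [Pi.single_eq_same, ZMod.val_one, mul_one]
      · intro j _ hj
        rw [Pi.single_eq_of_ne hj, ZMod.val_zero, mul_zero, zero_mul]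
      · intro h5; exact absurd (Finset.mem_univ i) h5
    rw [h4] at h3
    obtain ⟨q, hq⟩ := hn i
    have hq0 : 0 < q := by
      rcases Nat.eq_zero_or_pos q with h5 | h5
      · rw [h5] at hq; omega
      · exact h5
    have h5 : e / n i = q := by
      rw [hq]; exact Nat.mul_div_cancel_left _ (by omega)
    rw [h5] at h3
    have h6 : n i * q ∣ (c i).val * q := by rw [← hq]; exact h3
    have h7 : n i ∣ (c i).val := Nat.dvd_of_mul_dvd_mul_right hq0 h6
    have h8 : (c i).val = 0 := Nat.eq_zero_of_dvd_of_lt h7 (ZMod.val_lt _)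
    exact (ZMod.val_eq_zero _).1 h8

/-- a nontrivial element in the kernel of a character -/
theorem chr_ker {G : Type} [Group G] (κ : G →* Multiplicative (V n)) (hκ : Function.Injective κ) {e : ℕ} (he : 0 < e)
    (hn : ∀ i, n i ∣ e) (χ : G →* ℂˣ) (hχ : χ.ker ≠ ⊥) :
    ∃ c v : V n, v ≠ 0 ∧ e ∣ pr e c v ∧ ∀ σ, χ σ = 1 ↔ e ∣ pr e c (κ σ).toAdd := by
  obtain ⟨c, hc⟩ := chr κ hκ he hn χ
  obtain ⟨⟨σ, hσ⟩, h1⟩ := χ.ker.ne_bot_iff_exists_ne_one.1 hχ
  refine ⟨c, (κ σ).toAdd, fun h0 => h1 (Subtype.ext (hκ ?_)), (hc σ).1 hσ, hc⟩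
  rw [OneMemClass.coe_one, map_one]
  exact Multiplicative.toAdd.injective h0

end StarkR
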