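import Pool.Agent.Lib.MP_d9bae3_nt.SK.Base

/-!
# Module SRK-Dens: the local densities

`evCls e v q`: the classes `s : V n → 𝓞 F ⧸ q^2` of the `b` with `Ev e v b q` (which depends only on the class: `ev_congr`).
* `dens_ge`: the density of the classes is at least `c / N(q)`.  Count: `s_v` runs through the nonzero elements of `q/q^2` (there are
  `N(q) - 1`: `Ideal.absNorm (q^2) = N(q)^2`, and `q/q^2` has `N(q)` elements), and for `w ≠ v`, `s_w` through the elements whose image in the finite field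
  `𝓞/q` is a nonzero `e`-th power: each nonzero `e`-th power has `N(q)` preimages in `𝓞/q^2`, and there are at least `(N(q)-1)/e` of them (the
  kernel of `x ↦ x^e` on the units of a field has at most `e` elements; `e > 0`).  With `N(q) ≥ 2` the density is at least
  `(N(q)-1)/N(q)^2 · ((N(q)-1)/(e N(q)))^(card V - 1) ≥ 1/(2 N(q)) · (1/(2e))^(card V - 1) ≥ (1/(2e))^(card V)/ N(q)`.
  (It suffices to write down an injection from such data, or a product set contained in `evCls`.)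
* `dens_pair`: for `q ≠ q'` the classes modulo `q^2 q'^2` with both properties: by the Chinese remainder theorem
  (`Ideal.quotientMulEquivQuotientProd`, `q^2` and `q'^2` are coprime) their number is the product.
-/

set_option linter.unusedSectionVars false

namespace StarkR

open NumberField IsDedekindDomain

variable {F : Type} [Field F] [NumberField F] {m : ℕ} {n : Fin m → ℕ} [∀ i, NeZero (n i)]

/-- `Ev` depends only on the classes modulo `q^2` -/
theorem ev_congr {e : ℕ} {v : V n} {b b' : V n → 𝓞 F} {q : Prm F}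
    (h : ∀ w, b w - b' w ∈ q.asIdeal ^ 2) (hb : Ev e v b q) : Ev e v b' q := by
  have hle : q.asIdeal ^ 2 ≤ q.asIdeal := Ideal.pow_le_self two_ne_zero
  have h1 : ∀ w, b w - b' w ∈ q.asIdeal := fun w => hle (h w)
  have h2 : ∀ w, b w ∈ q.asIdeal ↔ b' w ∈ q.asIdeal := fun w => by
    constructor
    · intro hw
      have := q.asIdeal.sub_mem hw (h1 w)
      simpa using this
    · intro hw
      have := q.asIdeal.add_mem (h1 w) hw
      simpa using this
  refine ⟨(h2 v).1 hb.1, fun hv => hb.2.1 ?_, fun w hw => ⟨fun hw2 => (hb.2.2 w hw).1 ((h2 w).2 hw2), ?_⟩⟩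
  · have := (q.asIdeal ^ 2).add_mem (h v) hv
    simpa using this
  · obtain ⟨x, hx⟩ := (hb.2.2 w hw).2
    refine ⟨x, ?_⟩
    have := q.asIdeal.sub_mem hx (h1 w)
    have h3 : b w - x ^ e - (b w - b' w) = b' w - x ^ e := by ring
    rwa [h3] at this

/-- the classes with `Ev` -/
def evCls (e : ℕ) (v : V n) (q : Prm F) : Set (V n → 𝓞 F ⧸ q.asIdeal ^ 2) :=
  {s | ∃ b : V n → 𝓞 F, (∀ w, Ideal.Quotient.mk (q.asIdeal ^ 2) (b w) = s w) ∧ Ev e v b q}

/-- the classes with `Ev` for two primes -/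
def evCls2 (e : ℕ) (v : V n) (q q' : Prm F) : Set (V n → 𝓞 F ⧸ (q.asIdeal ^ 2 * q'.asIdeal ^ 2)) :=
  {s | ∃ b : V n → 𝓞 F, (∀ w, Ideal.Quotient.mk (q.asIdeal ^ 2 * q'.asIdeal ^ 2) (b w) = s w) ∧
    Ev e v b q ∧ Ev e v b q'}

/-- the density of `Ev` at `q` -/
noncomputable def dens (e : ℕ) (v : V n) (q : Prm F) : ℝ :=
  ((evCls e v q).ncard : ℝ) / (Ideal.absNorm (q.asIdeal ^ 2) : ℝ) ^ Fintype.card (V n)

/-! ### Counting -/

lemma finQ (q : Prm F) : Finite (𝓞 F ⧸ q.asIdeal) := by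
  rw [← Ideal.absNorm_ne_zero_iff]
  exact (Ideal.absNorm_eq_zero_iff.not).2 q.ne_bot

lemma finQ2 (q : Prm F) : Finite (𝓞 F ⧸ q.asIdeal ^ 2) := by
  rw [← Ideal.absNorm_ne_zero_iff, map_pow]
  exact pow_ne_zero _ ((Ideal.absNorm_eq_zero_iff.not).2 q.ne_bot)

lemma card_Q (q : Prm F) : Nat.card (𝓞 F ⧸ q.asIdeal) = nm q := by
  unfold nm
  rw [Ideal.absNorm_apply, Submodule.cardQuot_apply]

lemma card_Q2 (q : Prm F) : Nat.card (𝓞 F ⧸ q.asIdeal ^ 2) = nm q ^ 2 := by
  unfold nm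
  rw [← map_pow, Ideal.absNorm_apply, Submodule.cardQuot_apply]

lemma two_le_nm (q : Prm F) : 2 ≤ nm q := by
  have h1 := finQ q
  have h2 : Nontrivial (𝓞 F ⧸ q.asIdeal) := Ideal.Quotient.nontrivial_iff.2 q.isPrime.ne_top
  rw [← card_Q]
  exact Finite.one_lt_card

/-- an element of `q` not in `q^2` -/
lemma exists_unif (q : Prm F) : ∃ π : 𝓞 F, π ∈ q.asIdeal ∧ π ∉ q.asIdeal ^ 2 := by
  by_contra hcon
  push Not at hcon
  have h1 : q.asIdeal ≤ q.asIdeal ^ 2 := fun x hx => hcon x hx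
  have h2 : Nat.card (𝓞 F ⧸ q.asIdeal ^ 2) = Nat.card (𝓞 F ⧸ q.asIdeal) := by
    have h3 : q.asIdeal ^ 2 = q.asIdeal := le_antisymm (Ideal.pow_le_self two_ne_zero) h1
    rw [h3]
  rw [card_Q, card_Q2] at h2
  have h4 := two_le_nm q
  nlinarith

lemma unif_mul {q : Prm F} {π : 𝓞 F} (hπ : π ∉ q.asIdeal ^ 2) {x : 𝓞 F}
    (hx : π * x ∈ q.asIdeal ^ 2) : x ∈ q.asIdeal := by
  have := q.isPrime
  rw [mul_comm] at hx
  rcases Ideal.IsPrime.mul_mem_pow q.asIdeal hx with h | h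
  · exact h
  · exact absurd h hπ

/-- the classes of the component `v` -/
def cellA (q : Prm F) : Set (𝓞 F ⧸ q.asIdeal ^ 2) :=
  {s | ∃ x : 𝓞 F, Ideal.Quotient.mk (q.asIdeal ^ 2) x = s ∧ x ∈ q.asIdeal ∧ x ∉ q.asIdeal ^ 2}

/-- the classes of the other components -/
def cellB (e : ℕ) (q : Prm F) : Set (𝓞 F ⧸ q.asIdeal ^ 2) :=
  {s | ∃ x : 𝓞 F, Ideal.Quotient.mk (q.asIdeal ^ 2) x = s ∧ x ∉ q.asIdeal ∧
    ∃ y : 𝓞 F, x - y ^ e ∈ q.asIdeal}

open Classical in
lemma evCls_eq (e : ℕ) (v : V n) (q : Prm F) :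
    evCls e v q = Set.univ.pi fun w => if w = v then cellA q else cellB e q := by
  ext s
  simp only [Set.mem_pi, Set.mem_univ, true_implies]
  constructor
  · rintro ⟨b, hb, hE⟩ w
    by_cases hw : w = v
    · rw [if_pos hw]
      subst hw
      exact ⟨b w, hb w, hE.1, hE.2.1⟩
    · rw [if_neg hw]
      exact ⟨b w, hb w, (hE.2.2 w hw).1, (hE.2.2 w hw).2⟩
  · intro h
    have h1 : ∀ w, ∃ x : 𝓞 F, Ideal.Quotient.mk (q.asIdeal ^ 2) x = s w ∧
        (w = v → x ∈ q.asIdeal ∧ x ∉ q.asIdeal ^ 2) ∧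
        (w ≠ v → x ∉ q.asIdeal ∧ ∃ y : 𝓞 F, x - y ^ e ∈ q.asIdeal) := by
      intro w
      have h2 := h w
      by_cases hw : w = v
      · rw [if_pos hw] at h2
        obtain ⟨x, hx, hx2⟩ := h2
        exact ⟨x, hx, fun _ => hx2, fun hc => absurd hw hc⟩
      · rw [if_neg hw] at h2
        obtain ⟨x, hx, hx2⟩ := h2
        exact ⟨x, hx, fun hc => absurd hc hw, fun _ => hx2⟩
    choose b hb hb1 hb2 using h1
    exact ⟨b, hb, (hb1 v rfl).1, (hb1 v rfl).2, fun w hw => hb2 w hw⟩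

open Classical in
lemma ncard_evCls (e : ℕ) (v : V n) (q : Prm F) :
    (evCls e v q).ncard = (cellA q).ncard * (cellB e q).ncard ^ (Fintype.card (V n) - 1) := by
  rw [evCls_eq, ← Nat.card_coe_set_eq, Nat.card_congr (Equiv.Set.univPi _), Nat.card_pi,
    ← Finset.mul_prod_erase _ _ (Finset.mem_univ v)]
  simp only [Nat.card_coe_set_eq, if_true]
  congr 1
  rw [Finset.prod_congr rfl (g := fun _ => (cellB e q).ncard) (fun w hw => by
    rw [if_neg (Finset.ne_of_mem_erase hw)])]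
  rw [Finset.prod_const, Finset.card_erase_of_mem (Finset.mem_univ v), Finset.card_univ]

lemma cellA_card (q : Prm F) : nm q - 1 ≤ (cellA q).ncard := by
  classical
  have h1 := finQ q
  have h2 := finQ2 q
  obtain ⟨π, hπ, hπ2⟩ := exists_unif q
  have hcard : Nat.card {a : 𝓞 F ⧸ q.asIdeal // a ≠ 0} = nm q - 1 := by
    have := Fintype.ofFinite (𝓞 F ⧸ q.asIdeal)
    rw [Nat.card_eq_fintype_card, Fintype.card_subtype_compl, ← Nat.card_eq_fintype_card, card_Q]
    simp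
  rw [← hcard, ← Nat.card_coe_set_eq]
  choose r hr using fun a : 𝓞 F ⧸ q.asIdeal => Ideal.Quotient.mk_surjective a
  let g : {a : 𝓞 F ⧸ q.asIdeal // a ≠ 0} → cellA q := fun a =>
    ⟨Ideal.Quotient.mk (q.asIdeal ^ 2) (π * r a.1), π * r a.1, rfl,
      q.asIdeal.mul_mem_right _ hπ, fun hc => a.2 (by
        have h3 := unif_mul hπ2 hc
        rw [← hr a.1, Ideal.Quotient.eq_zero_iff_mem]
        exact h3)⟩
  have hfin : Finite (cellA q) := Subtype.finite
  refine Nat.card_le_card_of_injective g ?_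
  intro a a' haa
  have h3 := congrArg Subtype.val haa
  simp only [g] at h3
  rw [Ideal.Quotient.eq] at h3
  have h4 : π * (r a.1 - r a'.1) ∈ q.asIdeal ^ 2 := by
    have : π * (r a.1 - r a'.1) = π * r a.1 - π * r a'.1 := by ring
    rw [this]; exact h3
  have h5 := unif_mul hπ2 h4
  rw [← Ideal.Quotient.eq, hr, hr] at h5
  exact Subtype.ext h5

/-- the nonzero `e`-th powers of the residue field -/
def powSet (e : ℕ) (q : Prm F) : Set (𝓞 F ⧸ q.asIdeal) := {a | a ≠ 0 ∧ ∃ y, a = y ^ e}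

lemma field_pow_card {K : Type} [Field K] [Finite K] {e : ℕ} (he : 0 < e) :
    Nat.card K - 1 ≤ e * ({a : K | a ≠ 0 ∧ ∃ y, a = y ^ e} : Set K).ncard := by
  classical
  have := Fintype.ofFinite K
  have hunits : Nat.card Kˣ = Nat.card K - 1 := Nat.card_units K
  set φ : Kˣ →* Kˣ := powMonoidHom e with hφ
  have hker : Nat.card φ.ker ≤ e := by
    have h2 := IsCyclic.card_pow_eq_one_le (α := Kˣ) he
    have h3 : Nat.card φ.ker = (Finset.univ.filter fun a : Kˣ => a ^ e = 1).card := by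
      rw [Nat.card_eq_fintype_card, ← Fintype.card_subtype]
      exact Fintype.card_congr (Equiv.subtypeEquivRight fun a => by
        rw [MonoidHom.mem_ker, hφ, powMonoidHom_apply])
    rw [h3]
    exact h2
  have hrange : Nat.card φ.range ≤ ({a : K | a ≠ 0 ∧ ∃ y, a = y ^ e} : Set K).ncard := by
    rw [← Nat.card_coe_set_eq]
    refine Nat.card_le_card_of_injective
      (fun a => ⟨((a.1 : Kˣ) : K), a.1.ne_zero, by
        obtain ⟨y, hy⟩ := a.2
        refine ⟨(y : K), ?_⟩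
        rw [← hy, hφ, powMonoidHom_apply]
        push_cast
        rfl⟩) ?_
    intro a a' haa
    have h3 := congrArg Subtype.val haa
    exact Subtype.ext (Units.ext h3)
  have h4 := φ.ker.card_mul_index
  rw [Subgroup.index_ker, hunits] at h4
  rw [← h4]
  exact Nat.mul_le_mul hker hrange

lemma powSet_card {e : ℕ} (he : 0 < e) (q : Prm F) : nm q - 1 ≤ e * (powSet e q).ncard := by
  have h1 := finQ q
  have hmax : q.asIdeal.IsMaximal := q.isMaximal
  have h2 := @field_pow_card (𝓞 F ⧸ q.asIdeal) (Ideal.Quotient.field q.asIdeal) h1 e he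
  rw [card_Q] at h2
  exact h2

lemma cellB_card (e : ℕ) (q : Prm F) : nm q * (powSet e q).ncard ≤ (cellB e q).ncard := by
  classical
  have h1 := finQ q
  have h2 := finQ2 q
  obtain ⟨π, hπ, hπ2⟩ := exists_unif q
  choose r hr using fun a : 𝓞 F ⧸ q.asIdeal => Ideal.Quotient.mk_surjective a
  have hcard : Nat.card ((𝓞 F ⧸ q.asIdeal) × powSet e q) = nm q * (powSet e q).ncard := by
    rw [Nat.card_prod, card_Q, Nat.card_coe_set_eq]
  rw [← hcard, ← Nat.card_coe_set_eq]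
  have hπ0 : Ideal.Quotient.mk q.asIdeal π = 0 := Ideal.Quotient.eq_zero_iff_mem.2 hπ
  have hmk : ∀ (a : 𝓞 F ⧸ q.asIdeal) (c : 𝓞 F ⧸ q.asIdeal),
      Ideal.Quotient.mk q.asIdeal (r c + π * r a) = c := by
    intro a c
    rw [map_add, map_mul, hπ0, zero_mul, add_zero, hr]
  let g : (𝓞 F ⧸ q.asIdeal) × powSet e q → cellB e q := fun a =>
    ⟨Ideal.Quotient.mk (q.asIdeal ^ 2) (r a.2.1 + π * r a.1), r a.2.1 + π * r a.1, rfl, by
        intro hc
        apply a.2.2.1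
        rw [← hmk a.1 a.2.1]
        exact Ideal.Quotient.eq_zero_iff_mem.2 hc, by
        obtain ⟨y, hy⟩ := a.2.2.2
        refine ⟨r y, ?_⟩
        rw [← Ideal.Quotient.eq, hmk, map_pow, hr]
        exact hy⟩
  have hfin : Finite (cellB e q) := Subtype.finite
  refine Nat.card_le_card_of_injective g ?_
  rintro ⟨a, c⟩ ⟨a', c'⟩ haa
  have h3 := congrArg Subtype.val haa
  simp only [g] at h3
  rw [Ideal.Quotient.eq] at h3
  have h4 : c.1 = c'.1 := by
    have h5 := Ideal.pow_le_self (I := q.asIdeal) two_ne_zero h3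
    rw [← Ideal.Quotient.eq, hmk, hmk] at h5
    exact h5
  have h6 : π * (r a - r a') ∈ q.asIdeal ^ 2 := by
    have : π * (r a - r a') = r c.1 + π * r a - (r c'.1 + π * r a') := by
      rw [h4]; ring
    rw [this]; exact h3
  have h7 := unif_mul hπ2 h6
  rw [← Ideal.Quotient.eq, hr, hr] at h7
  exact Prod.ext h7 (Subtype.ext h4)

theorem dens_ge {e : ℕ} (he : 0 < e) (v : V n) (q : Prm F) :
    (1 / (2 * (e : ℝ))) ^ Fintype.card (V n) / (nm q : ℝ) ≤ dens e v q := by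
  have hN2 : (2 : ℝ) ≤ nm q := by exact_mod_cast two_le_nm q
  have hN0 : (0 : ℝ) < nm q := by linarith
  have he' : (1 : ℝ) ≤ e := by exact_mod_cast he
  have hk : 0 < Fintype.card (V n) := Fintype.card_pos_iff.2 ⟨v⟩
  obtain ⟨k, hk2⟩ : ∃ k, Fintype.card (V n) = k + 1 := ⟨Fintype.card (V n) - 1, by omega⟩
  unfold dens
  rw [ncard_evCls, hk2, Nat.add_sub_cancel, map_pow]
  have hnm : (Ideal.absNorm q.asIdeal : ℝ) = nm q := rfl
  push_cast
  rw [hnm]
  have hA : (nm q : ℝ) / 2 ≤ ((cellA q).ncard : ℝ) := by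
    have h1 : ((nm q - 1 : ℕ) : ℝ) ≤ ((cellA q).ncard : ℝ) := by exact_mod_cast cellA_card q
    rw [Nat.cast_sub (by have := two_le_nm q; omega)] at h1
    push_cast at h1
    linarith
  have hP : (nm q : ℝ) / 2 ≤ e * ((powSet e q).ncard : ℝ) := by
    have h1 : ((nm q - 1 : ℕ) : ℝ) ≤ ((e * (powSet e q).ncard : ℕ) : ℝ) := by
      exact_mod_cast powSet_card he q
    rw [Nat.cast_sub (by have := two_le_nm q; omega)] at h1
    push_cast at h1
    linarith
  have hB : (nm q : ℝ) ^ 2 * (1 / (2 * (e : ℝ))) ≤ ((cellB e q).ncard : ℝ) := by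
    have h1 : ((nm q * (powSet e q).ncard : ℕ) : ℝ) ≤ ((cellB e q).ncard : ℝ) := by
      exact_mod_cast cellB_card e q
    push_cast at h1
    refine le_trans ?_ h1
    have h2 : (nm q : ℝ) / (2 * e) ≤ ((powSet e q).ncard : ℝ) := by
      rw [div_le_iff₀ (by positivity)]
      linarith
    calc (nm q : ℝ) ^ 2 * (1 / (2 * (e : ℝ))) = nm q * (nm q / (2 * e)) := by ring
      _ ≤ nm q * ((powSet e q).ncard : ℝ) := mul_le_mul_of_nonneg_left h2 hN0.le
  rw [le_div_iff₀ (by positivity)]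
  have hc : (0 : ℝ) ≤ 1 / (2 * (e : ℝ)) := by positivity
  calc (1 / (2 * (e : ℝ))) ^ (k + 1) / (nm q : ℝ) * ((nm q : ℝ) ^ 2) ^ (k + 1)
      = ((1 / (2 * (e : ℝ))) * nm q) * ((nm q : ℝ) ^ 2 * (1 / (2 * (e : ℝ)))) ^ k := by
        rw [pow_succ, pow_succ, mul_pow]
        field_simp
    _ ≤ ((cellA q).ncard : ℝ) * ((cellB e q).ncard : ℝ) ^ k := by
        refine mul_le_mul ?_ (pow_le_pow_left₀ (by positivity) hB k) (by positivity)
          (Nat.cast_nonneg _)
        refine le_trans ?_ hA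
        have h3 : 1 / (2 * (e : ℝ)) ≤ 1 / 2 := by
          apply div_le_div_of_nonneg_left (by norm_num) (by norm_num) (by linarith)
        calc 1 / (2 * (e : ℝ)) * nm q ≤ 1 / 2 * nm q :=
              mul_le_mul_of_nonneg_right h3 hN0.le
          _ = (nm q : ℝ) / 2 := by ring

theorem dens_le_one (e : ℕ) (v : V n) (q : Prm F) : dens e v q ≤ 1 := by
  classical
  have h2 := finQ2 q
  have hN0 : (0 : ℝ) < nm q := by
    have h1 : (2 : ℝ) ≤ nm q := by exact_mod_cast two_le_nm q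
    linarith
  unfold dens
  have hnm : (Ideal.absNorm (q.asIdeal ^ 2) : ℝ) = (nm q : ℝ) ^ 2 := by
    rw [map_pow]; push_cast; rfl
  rw [hnm, div_le_one (by positivity)]
  have h3 : (evCls e v q).ncard ≤ Nat.card (V n → 𝓞 F ⧸ q.asIdeal ^ 2) := by
    rw [← Nat.card_coe_set_eq]
    exact Nat.card_le_card_of_injective _ Subtype.val_injective
  rw [Nat.card_fun, card_Q2] at h3
  have h4 : ((evCls e v q).ncard : ℝ) ≤ (((nm q ^ 2) ^ Nat.card (V n) : ℕ) : ℝ) := by
    exact_mod_cast h3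
  rw [Nat.card_eq_fintype_card (α := V n)] at h4
  push_cast at h4
  exact h4

theorem dens_pair (e : ℕ) (v : V n) {q q' : Prm F} (h : q ≠ q') :
    ((evCls2 e v q q').ncard : ℝ) / (Ideal.absNorm (q.asIdeal ^ 2 * q'.asIdeal ^ 2) : ℝ) ^ Fintype.card (V n) =
      dens e v q * dens e v q' := by
  classical
  have hne : q.asIdeal ≠ q'.asIdeal := fun hc => h (HeightOneSpectrum.ext hc)
  have hmax := q.isMaximal
  have hmax' := q'.isMaximal
  have hcop : IsCoprime (q.asIdeal ^ 2) (q'.asIdeal ^ 2) :=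
    (Ideal.isCoprime_of_isMaximal hne).pow
  set Φ := Ideal.quotientMulEquivQuotientProd (q.asIdeal ^ 2) (q'.asIdeal ^ 2) hcop with hΦ
  have hfst : ∀ x : 𝓞 F, (Φ (Ideal.Quotient.mk _ x)).1 = Ideal.Quotient.mk (q.asIdeal ^ 2) x := by
    intro x
    rw [hΦ, Ideal.quotientMulEquivQuotientProd_fst, Ideal.Quotient.factor_mk]
  have hsnd : ∀ x : 𝓞 F, (Φ (Ideal.Quotient.mk _ x)).2 = Ideal.Quotient.mk (q'.asIdeal ^ 2) x := by
    intro x
    rw [hΦ, Ideal.quotientMulEquivQuotientProd_snd, Ideal.Quotient.factor_mk]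
  -- the equivalence on functions
  let Ψ : (V n → 𝓞 F ⧸ (q.asIdeal ^ 2 * q'.asIdeal ^ 2)) ≃
      (V n → 𝓞 F ⧸ q.asIdeal ^ 2) × (V n → 𝓞 F ⧸ q'.asIdeal ^ 2) :=
    (Equiv.arrowCongr (Equiv.refl _) Φ.toEquiv).trans (Equiv.arrowProdEquivProdArrow _ _ _)
  have hΨ1 : ∀ s w, (Ψ s).1 w = (Φ (s w)).1 := fun s w => rfl
  have hΨ2 : ∀ s w, (Ψ s).2 w = (Φ (s w)).2 := fun s w => rfl
  have himg : Ψ '' (evCls2 e v q q') = evCls e v q ×ˢ evCls e v q' := by
    ext ⟨s1, s2⟩
    constructor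
    · rintro ⟨s, ⟨b, hb, hE, hE'⟩, hs⟩
      have hs1 : s1 = (Ψ s).1 := by rw [hs]
      have hs2 : s2 = (Ψ s).2 := by rw [hs]
      refine ⟨⟨b, fun w => ?_, hE⟩, ⟨b, fun w => ?_, hE'⟩⟩
      · simp only
        rw [hs1, hΨ1, ← hb w, hfst]
      · simp only
        rw [hs2, hΨ2, ← hb w, hsnd]
    · rintro ⟨⟨b1, hb1, hE1⟩, ⟨b2, hb2, hE2⟩⟩
      simp only at hb1 hb2
      refine ⟨Ψ.symm (s1, s2), ?_, Ψ.apply_symm_apply _⟩
      choose b hb using fun w => Ideal.Quotient.mk_surjective (Ψ.symm (s1, s2) w)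
      have h1 : ∀ w, Ideal.Quotient.mk (q.asIdeal ^ 2) (b w) = s1 w := by
        intro w
        have h2 := hΨ1 (Ψ.symm (s1, s2)) w
        rw [Ψ.apply_symm_apply, ← hb w, hfst] at h2
        exact h2.symm
      have h1' : ∀ w, Ideal.Quotient.mk (q'.asIdeal ^ 2) (b w) = s2 w := by
        intro w
        have h2 := hΨ2 (Ψ.symm (s1, s2)) w
        rw [Ψ.apply_symm_apply, ← hb w, hsnd] at h2
        exact h2.symm
      refine ⟨b, hb, ev_congr (fun w => ?_) hE1, ev_congr (fun w => ?_) hE2⟩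
      · rw [← Ideal.Quotient.eq, hb1, h1]
      · rw [← Ideal.Quotient.eq, hb2, h1']
  have hcard : (evCls2 e v q q').ncard = (evCls e v q).ncard * (evCls e v q').ncard := by
    rw [← Set.ncard_image_of_injective _ Ψ.injective, himg, Set.ncard_prod]
  unfold dens
  rw [hcard, map_mul]
  push_cast
  rw [mul_pow]
  rw [div_mul_div_comm]

end StarkR
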