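import Pool.Agent.Lib.MP_d9bae3_nt.SK.Kum
import Pool.Agent.Lib.MP_d9bae3_nt.SK.Chr

/-!
# Module SRK-Surj: the Galois group is the whole group

Plan.
* `rad_ne_zero`: if `v ≠ 0` there is a prime with `Ev e v b q`, so `b_v ≠ 0` (`b_v ∉ q^2`) and `b_w ≠ 0` for `w ≠ v` (`b_w ∉ q`); if `V n` has only the
  element `0`, the exponents `(v i).val` are `0` and `rad b i = 1`.
* `fix_zero`: let `c` be such that `β = bet α c` is fixed by all of `Gal(H/F)`.  Then `β ∈ F` (`IsGalois.mem_bot_iff_fixed` or similar), and it is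
  integral, `β = y ∈ 𝓞 F`, `y^e = ∏_w b_w ^ pr e c w` by `bet_pow`.  For `v ≠ 0` and a prime `q` with `Ev e v b q` compare the multiplicities of `q`:
  `e · mult_q(y) = pr e c v` (`q` divides `b_v` exactly once and no other `b_w`).  So `e ∣ pr e c v` for all `v ≠ 0`, and `c = 0` by `pr_zero_of`.
-/

namespace StarkR

open NumberField IsDedekindDomain

variable {F : Type} [Field F] [NumberField F] {m : ℕ} {n : Fin m → ℕ} [∀ i, NeZero (n i)]
variable {H : Type} [Field H] [NumberField H] [Algebra F H]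

omit [∀ i, NeZero (n i)] in
theorem rich_one {e : ℕ} {b : V n → 𝓞 F} (hb : Rich e 1 b) {v : V n} (hv : v ≠ 0) :
    ∃ q : Prm F, Ev e v b q := by
  obtain ⟨A, hA, h⟩ := hb v hv
  obtain ⟨q, hq⟩ := Finset.card_pos.1 (Nat.lt_of_lt_of_le Nat.zero_lt_one hA)
  exact ⟨q, (h q hq).2⟩

omit [∀ i, NeZero (n i)] in
theorem rich_ne_zero {e : ℕ} {b : V n → 𝓞 F} (hb : Rich e 1 b) {v : V n} (hv : v ≠ 0) (w : V n) :
    b w ≠ 0 := by
  obtain ⟨q, h1, h2, h3⟩ := rich_one hb hv
  intro h0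
  by_cases hw : w = v
  · subst hw
    exact h2 (h0 ▸ Ideal.zero_mem _)
  · exact (h3 w hw).1 (h0 ▸ Ideal.zero_mem _)

theorem rad_ne_zero {e : ℕ} {b : V n → 𝓞 F} (hb : Rich e 1 b) (i : Fin m) : rad b i ≠ 0 := by
  by_cases h : ∃ v : V n, v ≠ 0
  · obtain ⟨v, hv⟩ := h
    exact Finset.prod_ne_zero_iff.2 fun w _ => pow_ne_zero _ (rich_ne_zero hb hv w)
  · have h' : rad b i = 1 := by
      refine Finset.prod_eq_one fun w _ => ?_
      have hw : w = 0 := by
        by_contra hw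
        exact h ⟨w, hw⟩
      rw [hw, Pi.zero_apply, ZMod.val_zero, pow_zero]
    rw [h']
    exact one_ne_zero

theorem dvd_of_pow_eq {e : ℕ} (he : 0 < e) {b : V n → 𝓞 F} (hb : Rich e 1 b) {v : V n} (hv : v ≠ 0) {y : 𝓞 F}
    {k : V n → ℕ} (hy : y ^ e = ∏ w : V n, b w ^ k w) : e ∣ k v := by
  obtain ⟨q, h1, h2, h3⟩ := rich_one hb hv
  have hp : Prime q.asIdeal := q.prime
  have hI : Ideal.span {y} ^ e = ∏ w : V n, Ideal.span {b w} ^ k w := by
    rw [Ideal.span_singleton_pow, hy, ← Ideal.prod_span_singleton]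
    exact Finset.prod_congr rfl fun w _ => (Ideal.span_singleton_pow _ _).symm
  have hm := congrArg (emultiplicity q.asIdeal) hI
  rw [emultiplicity_pow hp, Finset.emultiplicity_prod hp] at hm
  have h0 : ∀ w ∈ (Finset.univ : Finset (V n)), w ≠ v →
      emultiplicity q.asIdeal (Ideal.span {b w} ^ k w) = 0 := by
    intro w _ hw
    rw [emultiplicity_pow hp, emultiplicity_eq_zero.2, mul_zero]
    rw [Ideal.dvd_span_singleton]
    exact (h3 w hw).1
  rw [Finset.sum_eq_single v h0 (fun h => absurd (Finset.mem_univ v) h), emultiplicity_pow hp] at hm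
  have hv1 : emultiplicity q.asIdeal (Ideal.span {b v}) = (1 : ℕ) := by
    rw [emultiplicity_eq_coe]
    refine ⟨?_, ?_⟩
    · rw [pow_one, Ideal.dvd_span_singleton]
      exact h1
    · rw [Ideal.dvd_span_singleton]
      exact h2
  rw [hv1, Nat.cast_one, mul_one] at hm
  have hfin : FiniteMultiplicity q.asIdeal (Ideal.span {y}) := by
    have hy0 : y ≠ 0 := by
      rintro rfl
      rw [zero_pow he.ne'] at hy
      exact Finset.prod_ne_zero_iff.2 (fun w _ => pow_ne_zero _ (rich_ne_zero hb hv w)) hy.symm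
    refine FiniteMultiplicity.of_prime_left hp ?_
    rw [Ne, Ideal.zero_eq_bot, Ideal.span_singleton_eq_bot]
    exact hy0
  obtain ⟨j, hj⟩ : ∃ j : ℕ, emultiplicity q.asIdeal (Ideal.span {y}) = j :=
    ⟨_, hfin.emultiplicity_eq_multiplicity⟩
  rw [hj] at hm
  exact ⟨j, by exact_mod_cast hm.symm⟩

theorem fix_zero [IsGalois F H] {e : ℕ} (he : 0 < e) (hn : ∀ i, n i ∣ e) {b : V n → 𝓞 F} (hb : Rich e 1 b)
    {α : Fin m → H} (h : IsExt b H α) (c : V n) (hc : ∀ σ : Gal(H/F), σ (bet α c) = bet α c) : c = 0 := by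
  have h1 : bet α c ∈ (⊥ : IntermediateField F H) := (IsGalois.mem_bot_iff_fixed (bet α c)).2 hc
  obtain ⟨y, hy⟩ := IntermediateField.mem_bot.1 h1
  have h2 : y ^ e = ((∏ w : V n, b w ^ pr e c w : 𝓞 F) : F) := by
    apply (algebraMap F H).injective
    rw [map_pow, hy, bet_pow hn h c]
  have h3 : IsIntegral ℤ y := by
    refine IsIntegral.of_pow he ?_
    rw [h2]
    exact RingOfIntegers.isIntegral_coe _
  obtain ⟨z, hz⟩ : ∃ z : 𝓞 F, (z : F) = y := ⟨⟨y, h3⟩, rfl⟩
  have h4 : z ^ e = ∏ w : V n, b w ^ pr e c w := by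
    apply RingOfIntegers.coe_injective
    rw [map_pow]
    exact (congrArg (· ^ e) hz).trans h2
  exact pr_zero_of he hn c fun v hv => dvd_of_pow_eq he hb hv h4

end StarkR
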