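import Pool.Agent.Lib.MP_d9bae3_nt.SK.Base

/-!
# Module SRK-Theta: the Stickelberger element of a non-cyclic extension

* `ker_ne_bot`: a character with trivial kernel is an injection of the finite group into `ℂˣ`, so the group is cyclic (Mathlib
  `isCyclic_of_injective_ringHom`).
* `theta_zero`: all summands vanish.
-/

namespace StarkR

open NumberField IsDedekindDomain

variable {F : Type} [Field F] [NumberField F]
variable {H : Type} [Field H] [NumberField H] [Algebra F H]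

theorem ker_ne_bot {G : Type} [Group G] [Finite G] (hG : ¬ IsCyclic G) (χ : G →* ℂˣ) : χ.ker ≠ ⊥ := by
  intro h
  apply hG
  have hinj : Function.Injective χ := (MonoidHom.ker_eq_bot_iff χ).1 h
  exact isCyclic_of_injective_ringHom ((Units.coeHom ℂ).comp χ) (Units.val_injective.comp hinj)

theorem theta_zero (Λ : (Gal(H/F) →* ℂˣ) → ℂ → ℂ) (S T : Finset (Prm F)) (r : ℕ)
    (h : ∀ χ, iteratedDeriv r (LST (Λ χ) χ S T) 0 = 0) : theta Λ S T r = 0 := by
  unfold theta
  have h0 : ∀ χ : Gal(H/F) →* ℂˣ, (iteratedDeriv r (LST (Λ χ⁻¹) χ⁻¹ S T) 0) •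
    ((Nat.card Gal(H/F) : ℂ)⁻¹ • ∑ᶠ σ : Gal(H/F), MonoidAlgebra.single σ⁻¹ ((χ σ : ℂˣ) : ℂ)) = (0 : MonoidAlgebra ℂ Gal(H/F)) := by
    intro χ
    rw [h χ⁻¹, zero_smul]
  simp only [h0, finsum_zero]

end StarkR
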