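import Pool.Agent.Lib.MP_d9bae3_nt.SK.Base

/-!
# Module SRK-Ord: the order of vanishing at 0

Plan.  `f = LST Λ χ S T` is a product of functions analytic at `0`: `Λ` (analytic outside `1`), the factors `1 - χ(q) N(q)^(-s)`, `q ∈ S` unramified for `χ`, and
`1 - χ(q) N(q)^(1-s)`, `q ∈ T`; for `q ∈ Z` the factor is `1 - N(q)^(-s)`, which vanishes at `0` (`N(q) ≠ 0`).  So the analytic order of `f` at `0` is at least
`Z.card` (`analyticOrderAt_mul`, and an induction over `Z`), and the derivatives of order `< Z.card` vanish (`natCast_le_analyticOrderAt_iff_iteratedDeriv_eq_zero`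
in Mathlib/Analysis/Analytic/Order.lean).
-/

namespace StarkR

open NumberField IsDedekindDomain

variable {F : Type} [Field F] [NumberField F]
variable {H : Type} [Field H] [NumberField H] [Algebra F H]

private theorem Ord_nm_ne (q : Prm F) : (nm q : ℂ) ≠ 0 := by
  unfold nm
  rw [Nat.cast_ne_zero, Ne, Ideal.absNorm_eq_zero_iff]
  exact q.ne_bot

private theorem Ord_an (c N a : ℂ) (hN : N ≠ 0) (z : ℂ) :
    AnalyticAt ℂ (fun s : ℂ => 1 - c * N ^ (a - s)) z := by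
  apply Differentiable.analyticAt
  intro s
  have h1 : DifferentiableAt ℂ (fun s : ℂ => N ^ (a - s)) s :=
    DifferentiableAt.const_cpow (by fun_prop) (Or.inl hN)
  fun_prop

private theorem Ord_prod {ι : Type*} (Z : Finset ι) (g : ι → ℂ → ℂ)
    (hg : ∀ i ∈ Z, AnalyticAt ℂ (g i) 0) (hg0 : ∀ i ∈ Z, g i 0 = 0) :
    AnalyticAt ℂ (fun s => ∏ i ∈ Z, g i s) 0 ∧
      (Z.card : ℕ∞) ≤ analyticOrderAt (fun s => ∏ i ∈ Z, g i s) 0 := by
  classical
  induction Z using Finset.induction_on with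
  | empty =>
    simp only [Finset.prod_empty, Finset.card_empty, Nat.cast_zero]
    exact ⟨analyticAt_const, zero_le⟩
  | insert a Z ha ih =>
    obtain ⟨h1, h2⟩ := ih (fun i hi => hg i (Finset.mem_insert_of_mem hi))
      (fun i hi => hg0 i (Finset.mem_insert_of_mem hi))
    have h3 := hg a (Finset.mem_insert_self a Z)
    have h4 := hg0 a (Finset.mem_insert_self a Z)
    have e : (fun s => ∏ i ∈ insert a Z, g i s) = (g a) * (fun s => ∏ i ∈ Z, g i s) := by
      funext s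
      rw [Finset.prod_insert ha]
      rfl
    rw [e]
    refine ⟨h3.mul h1, ?_⟩
    rw [analyticOrderAt_mul h3 h1, Finset.card_insert_of_notMem ha]
    have h5 : (1 : ℕ∞) ≤ analyticOrderAt (g a) 0 := by
      rw [Order.one_le_iff_ne_zero, h3.analyticOrderAt_ne_zero]
      exact h4
    push_cast
    rw [add_comm]
    exact add_le_add h5 h2

theorem ord_zero {χ : Gal(H/F) →* ℂˣ} {Λ : ℂ → ℂ} (hΛ : AnalyticOnNhd ℂ Λ {1}ᶜ) (S T Z : Finset (Prm F)) (hZS : Z ⊆ S)
    (hZ : ∀ q ∈ Z, UnramifiedFor χ q ∧ frobValue χ q = 1) (k : ℕ) (hk : k < Z.card) :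
    iteratedDeriv k (LST Λ χ S T) 0 = 0 := by
  classical
  set P := S.filter (UnramifiedFor χ) with hP
  have hZP : Z ⊆ P := fun q hq => by
    rw [hP, Finset.mem_filter]
    exact ⟨hZS hq, (hZ q hq).1⟩
  have hfac : ∀ q : Prm F, ∀ a : ℂ, AnalyticAt ℂ (fun s : ℂ => 1 - frobValue χ q * (nm q : ℂ) ^ (a - s)) 0 :=
    fun q a => Ord_an _ _ a (Ord_nm_ne q) 0
  have hfac0 : ∀ q : Prm F, AnalyticAt ℂ (fun s : ℂ => 1 - frobValue χ q * (nm q : ℂ) ^ (-s)) 0 := by
    intro q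
    have := hfac q 0
    simpa only [zero_sub] using this
  obtain ⟨hA, hB⟩ := Ord_prod Z (fun q s => 1 - frobValue χ q * (nm q : ℂ) ^ (-s))
    (fun q _ => hfac0 q) (fun q hq => by
      rw [(hZ q hq).2, neg_zero, Complex.cpow_zero]
      ring)
  have hR : AnalyticAt ℂ (fun s : ℂ => Λ s *
      (∏ q ∈ P \ Z, (1 - frobValue χ q * (nm q : ℂ) ^ (-s))) *
      ∏ q ∈ T, (1 - frobValue χ q * (nm q : ℂ) ^ (1 - s))) 0 := by
    refine ((hΛ 0 (by simp)).mul ?_).mul ?_
    · exact Finset.analyticAt_fun_prod _ (fun q _ => hfac0 q)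
    · exact Finset.analyticAt_fun_prod _ (fun q _ => hfac q 1)
  have e : LST Λ χ S T = (fun s : ℂ => Λ s *
      (∏ q ∈ P \ Z, (1 - frobValue χ q * (nm q : ℂ) ^ (-s))) *
      ∏ q ∈ T, (1 - frobValue χ q * (nm q : ℂ) ^ (1 - s))) *
      (fun s : ℂ => ∏ q ∈ Z, (1 - frobValue χ q * (nm q : ℂ) ^ (-s))) := by
    funext s
    have h1 : LST Λ χ S T s = Λ s * (∏ q ∈ P, (1 - frobValue χ q * (nm q : ℂ) ^ (-s))) *
        ∏ q ∈ T, (1 - frobValue χ q * (nm q : ℂ) ^ (1 - s)) := by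
      unfold LST
      congr 3
    rw [h1, ← Finset.prod_sdiff hZP]
    show _ = (Λ s * (∏ q ∈ P \ Z, (1 - frobValue χ q * (nm q : ℂ) ^ (-s))) *
      ∏ q ∈ T, (1 - frobValue χ q * (nm q : ℂ) ^ (1 - s))) *
      ∏ q ∈ Z, (1 - frobValue χ q * (nm q : ℂ) ^ (-s))
    ring
  have hf : AnalyticAt ℂ (LST Λ χ S T) 0 := by
    rw [e]
    exact hR.mul hA
  have hord : (Z.card : ℕ∞) ≤ analyticOrderAt (LST Λ χ S T) 0 := by
    rw [e, analyticOrderAt_mul hR hA]
    exact hB.trans le_add_self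
  exact (natCast_le_analyticOrderAt_iff_iteratedDeriv_eq_zero hf).1 hord k hk

end StarkR
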