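import Pool.Agent.Lib.MP_d9bae3_nt.SK.Frob
import Pool.Agent.Lib.MP_d9bae3_nt.SK.Ord

/-!
# Module SRK-Van: vanishing at 0

The finite set `Z` consists of `A` and of the primes of `S` which split completely. The number of
archimedean places of `F` is at most `[F:ℚ]`, so `k` is smaller than the number of elements of `Z`,
and `ord_zero` applies.
-/

namespace StarkR

open NumberField IsDedekindDomain

variable {F : Type} [Field F] [NumberField F]
variable {H : Type} [Field H] [NumberField H] [Algebra F H]

theorem van [IsGalois F H] {χ : Gal(H/F) →* ℂˣ} {Λ : ℂ → ℂ} (hΛ : AnalyticOnNhd ℂ Λ {1}ᶜ) (S T : Finset (Prm F))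
    (hS : ∀ q : Prm F, Ramified H q → q ∈ S) (A : Finset (Prm F)) (hA : ∀ q ∈ A, Ramified H q ∧ TrivialAt χ q) (K : ℕ)
    (hK : K + Module.finrank ℚ F < A.card) (k : ℕ) (hk : k ≤ splitNumber H S + K) :
    iteratedDeriv k (LST Λ χ S T) 0 = 0 := by
  classical
  have hAS : A ⊆ S := fun q hq => hS q (hA q hq).1
  have hdis : Disjoint A (S.filter fun q => Split H q) := by
    rw [Finset.disjoint_left]
    intro q hq hq'
    exact ramified_not_split (hA q hq).1 (Finset.mem_filter.1 hq').2
  have hcard : (A ∪ S.filter fun q => Split H q).card =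
      A.card + (S.filter fun q => Split H q).card := Finset.card_union_of_disjoint hdis
  have h1 : Set.ncard {q : Prm F | q ∈ S ∧ Split H q} = (S.filter fun q => Split H q).card := by
    rw [← Set.ncard_coe_finset]
    congr 1
    ext q
    simp
  have h2 : Nat.card {v : InfinitePlace F // v.IsUnramifiedIn H} ≤ Module.finrank ℚ F := by
    refine (Finite.card_subtype_le _).trans ?_
    rw [Nat.card_eq_fintype_card, InfinitePlace.card_eq_nrRealPlaces_add_nrComplexPlaces,
      ← InfinitePlace.card_add_two_mul_card_eq_rank F]
    omega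
  refine ord_zero hΛ S T (A ∪ S.filter fun q => Split H q) ?_ ?_ k ?_
  · exact Finset.union_subset hAS (Finset.filter_subset _ _)
  · intro q hq
    have ht : TrivialAt χ q := by
      rcases Finset.mem_union.1 hq with hq | hq
      · exact (hA q hq).2
      · exact split_trivialAt χ (Finset.mem_filter.1 hq).2
    exact ⟨trivialAt_unr ht, trivialAt_frob ht⟩
  · have h3 : splitNumber H S =
        Nat.card {v : InfinitePlace F // v.IsUnramifiedIn H} +
          Set.ncard {q : Prm F | q ∈ S ∧ Split H q} := rfl
    rw [h1] at h3
    omega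

end StarkR
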