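import Pool.Agent.Lib.MP_d9bae3_nt.SK.Dec
import Pool.Agent.Lib.MP_d9bae3_nt.SK.Ram
import Pool.Agent.Lib.MP_d9bae3_nt.SK.Van
import Pool.Agent.Lib.MP_d9bae3_nt.SK.Surj
import Pool.Agent.Lib.MP_d9bae3_nt.SK.Theta

/-!
# Module SRK-Main: rich families give extensions with additional zeros
-/

namespace StarkR

open NumberField IsDedekindDomain

variable {F : Type} [Field F] [NumberField F] {m : ℕ} {n : Fin m → ℕ} [∀ i, NeZero (n i)]
variable {H : Type} [Field H] [NumberField H] [Algebra F H]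

theorem rich_mono {e k k' : ℕ} (h : k ≤ k') {b : V n → 𝓞 F} (hb : Rich e k' b) : Rich e k b := by
  intro v hv
  obtain ⟨A, h1, h2⟩ := hb v hv
  exact ⟨A, h.trans h1, h2⟩

theorem gal_iso [IsGalois F H] {e : ℕ} {ζ : F} (hζ : IsPrimitiveRoot ζ e) (he : 0 < e) (hn : ∀ i, n i ∣ e)
    {b : V n → 𝓞 F} (hb : Rich e 1 b) {α : Fin m → H} (h : IsExt b H α) :
    Nonempty (Gal(H/F) ≃* Multiplicative (V n)) := by
  obtain ⟨κ, h1, h2⟩ := kum hζ he hn h fun i => rad_ne_zero hb i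
  refine ⟨MulEquiv.ofBijective κ ⟨h1, chr_surj κ he hn fun c hc => fix_zero he hn hb h c fun σ => ?_⟩⟩
  rw [h2]
  obtain ⟨t, ht⟩ := hc σ
  rw [ht, pow_mul, hζ.pow_eq_one, one_pow, map_one, one_mul]

theorem main_van [IsGalois F H] {e : ℕ} {ζ : F} (hζ : IsPrimitiveRoot ζ e) (he : 0 < e) (hn : ∀ i, n i ∣ e)
    {K : ℕ} {b : V n → 𝓞 F} (hb : Rich e (K + Module.finrank ℚ F + 1) b) {α : Fin m → H} (h : IsExt b H α)
    {χ : Gal(H/F) →* ℂˣ} (hχ : χ.ker ≠ ⊥) {Λ : ℂ → ℂ} (hΛ : IsLFunction χ Λ) (S T : Finset (Prm F))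
    (hS : ∀ q : Prm F, Ramified H q → q ∈ S) (k : ℕ) (hk : k ≤ splitNumber H S + K) :
    iteratedDeriv k (LST Λ χ S T) 0 = 0 := by
  have hb1 : Rich e 1 b := rich_mono (by omega) hb
  obtain ⟨κ, h1, h2⟩ := kum hζ he hn h fun i => rad_ne_zero hb1 i
  obtain ⟨c, v, hv0, hcv, hc⟩ := chr_ker κ h1 he hn χ hχ
  obtain ⟨A, hA1, hA2⟩ := hb v hv0
  refine van hΛ.analytic S T hS A (fun q hq => ⟨ev_ramified h hv0 (hA2 q hq).2, ?_⟩) K (by omega) k hk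
  intro Q hQ hQq σ hσ
  rw [hc σ]
  have h3 := dec_fix hζ he hn h (hA2 q hq).1 (hA2 q hq).2 hcv Q hQ hQq σ hσ
  rw [h2] at h3
  have hbet : bet α c ≠ 0 := by
    unfold bet
    refine Finset.prod_ne_zero_iff.2 fun i _ => pow_ne_zero _ fun h0 => ?_
    have h4 := h.pow i
    rw [h0, zero_pow (NeZero.ne (n i)), eq_comm, map_eq_zero] at h4
    exact rad_ne_zero hb1 i (RingOfIntegers.coe_eq_zero_iff.1 h4)
  have h5 : algebraMap F H (ζ ^ pr e c (κ σ).toAdd) = 1 := by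
    have h6 := mul_right_cancel₀ hbet (h3.trans (one_mul _).symm)
    exact h6
  rw [map_eq_one_iff _ (algebraMap F H).injective] at h5
  exact (hζ.pow_eq_one_iff_dvd _).1 h5

theorem main_theta [IsGalois F H] {e : ℕ} {ζ : F} (hζ : IsPrimitiveRoot ζ e) (he : 0 < e) (hn : ∀ i, n i ∣ e)
    {K : ℕ} {b : V n → 𝓞 F} (hb : Rich e (K + Module.finrank ℚ F + 1) b) {α : Fin m → H} (h : IsExt b H α)
    (hc : ¬ IsCyclic Gal(H/F)) {Λ : (Gal(H/F) →* ℂˣ) → ℂ → ℂ} (hΛ : ∀ χ, IsLFunction χ (Λ χ)) (S T : Finset (Prm F))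
    (hS : ∀ q : Prm F, Ramified H q → q ∈ S) (k : ℕ) (hk : k ≤ splitNumber H S + K) : theta Λ S T k = 0 :=
  theta_zero Λ S T _ fun χ =>
    main_van hζ he hn hb h (ker_ne_bot hc χ) (hΛ χ) S T hS k hk

end StarkR
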