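import Pool.Agent.Lib.MP_d9bae3_nt.SK.Main

/-!
# Random abelian extensions: the characters with minimal order of vanishing
-/

namespace StarkR

open NumberField IsDedekindDomain

variable {F : Type} [Field F] [NumberField F] {m : ℕ} {n : Fin m → ℕ} [∀ i, NeZero (n i)]
variable {H : Type} [Field H] [NumberField H] [Algebra F H]

/-- the analytic order is not `r` when the derivatives up to the order `r` vanish -/
theorem order_ne {f : ℂ → ℂ} (hf : AnalyticAt ℂ f 0) {r : ℕ} (h : ∀ k ≤ r, iteratedDeriv k f 0 = 0) :
    analyticOrderAt f 0 ≠ r := by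
  have h1 : ((r + 1 : ℕ) : ℕ∞) ≤ analyticOrderAt f 0 := by
    rw [natCast_le_analyticOrderAt_iff_iteratedDeriv_eq_zero hf]
    intro i hi
    exact h i (by omega)
  intro h2
  rw [h2] at h1
  have h3 : r + 1 ≤ r := by exact_mod_cast h1
  omega

theorem lst_analytic {χ : Gal(H/F) →* ℂˣ} {Λ : ℂ → ℂ} (hΛ : AnalyticOnNhd ℂ Λ {1}ᶜ) (S T : Finset (Prm F)) :
    AnalyticAt ℂ (LST Λ χ S T) 0 := by
  classical
  have hnm : ∀ q : Prm F, nm q ≠ 0 := fun q => by
    unfold nm
    rw [Ne, Ideal.absNorm_eq_zero_iff]
    exact q.ne_bot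
  have h1 : AnalyticAt ℂ Λ 0 := hΛ 0 (by simp)
  unfold LST
  refine (h1.mul ?_).mul ?_
  · refine Finset.analyticAt_fun_prod _ fun q _ => ?_
    refine analyticAt_const.sub (analyticAt_const.mul ?_)
    exact (analyticAt_const.cpow (analyticAt_id.neg) (by
      simp only [Complex.mem_slitPlane_iff]
      left
      exact_mod_cast Nat.pos_of_ne_zero (hnm q)))
  · refine Finset.analyticAt_fun_prod _ fun q _ => ?_
    refine analyticAt_const.sub (analyticAt_const.mul ?_)
    exact (analyticAt_const.cpow (analyticAt_const.sub analyticAt_id) (by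
      simp only [Complex.mem_slitPlane_iff]
      left
      exact_mod_cast Nat.pos_of_ne_zero (hnm q)))

/-- `S` has at least `r + 2` elements -/
theorem card_S (S : Finset (Prm F)) (hS : ∀ q : Prm F, Ramified H q → q ∈ S) (A : Finset (Prm F))
    (hA : ∀ q ∈ A, Ramified H q) : splitNumber H S + A.card ≤ S.card + Nat.card (InfinitePlace F) := by
  classical
  unfold splitNumber
  have h1 : Nat.card {v : InfinitePlace F // v.IsUnramifiedIn H} ≤ Nat.card (InfinitePlace F) :=
    Nat.card_le_card_of_injective _ Subtype.val_injective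
  have h2 : Set.ncard {q : Prm F | q ∈ S ∧ Split H q} + A.card ≤ S.card := by
    have h3 : {q : Prm F | q ∈ S ∧ Split H q} = ((S.filter fun q => Split H q : Finset (Prm F)) : Set (Prm F)) := by
      ext q; simp
    rw [h3, Set.ncard_coe_finset, ← Finset.card_union_of_disjoint]
    · refine Finset.card_le_card fun q hq => ?_
      rcases Finset.mem_union.1 hq with h | h
      · exact (Finset.mem_filter.1 h).1
      · exact hS q (hA q h)
    · rw [Finset.disjoint_left]
      intro q hq hqA
      exact ramified_not_split (hA q hqA) (Finset.mem_filter.1 hq).2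
  omega

end StarkR
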