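import Mathlib

/-!
# Modules over group rings
-/

namespace StarkR

section modules

/-- The `A[G]`-module given by an `A`-linear action `ρ` of `G` on `M`. -/
noncomputable abbrev grModule {A G M : Type} [CommRing A] [Group G] [AddCommGroup M] [Module A M]
    (ρ : G →* Module.End A M) : Module (MonoidAlgebra A G) M :=
  Module.compHom M (MonoidAlgebra.lift A (Module.End A M) G ρ).toRingHom

theorem grModule_single {A G M : Type} [CommRing A] [Group G] [AddCommGroup M] [Module A M]
    (ρ : G →* Module.End A M) (σ : G) (a : A) (m : M) :
    letI := grModule ρ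
    (MonoidAlgebra.single σ a : MonoidAlgebra A G) • m = a • ρ σ m := by
  change (MonoidAlgebra.lift A (Module.End A M) G ρ (MonoidAlgebra.single σ a)) m = _
  rw [MonoidAlgebra.lift_single]
  rfl

/-- An additive map between `ℤ[G]`-modules which commutes with `G` is `ℤ[G]`-linear. -/
theorem map_smul_of_single {G M N : Type} [Group G] [AddCommGroup M] [AddCommGroup N]
    [Module (MonoidAlgebra ℤ G) M] [Module (MonoidAlgebra ℤ G) N] (f : M →+ N)
    (h : ∀ (σ : G) (m : M), f ((MonoidAlgebra.single σ 1 : MonoidAlgebra ℤ G) • m) =
      (MonoidAlgebra.single σ 1 : MonoidAlgebra ℤ G) • f m) (a : MonoidAlgebra ℤ G) (m : M) : f (a • m) = a • f m := by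
  induction a using MonoidAlgebra.induction_on with
  | of σ => exact h σ m
  | add a b ha hb => rw [add_smul, map_add, ha, hb, add_smul]
  | smul n a ha => rw [smul_assoc, map_zsmul, ha, smul_assoc]

end modules

end StarkR
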