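import Pool.Agent.Lib.MP_d9bae3_nt.SK.Defs

/-!
# Places and units of an extension, with the action of the Galois group

`H/F` is an extension of number fields and `S` a finite set of primes of `F`; the archimedean places always belong to `S`.
-/

namespace StarkR

open NumberField IsDedekindDomain
open scoped Pointwise

/-- The places of the number field `H`: the archimedean places and the primes. -/
abbrev Plc (H : Type) [Field H] [NumberField H] : Type := InfinitePlace H ⊕ Prm H

/-- The normalised absolute value of `x` at the place `w`: `|x|` if `w` is real, `|x|^2` if `w` is complex,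
`N(w)^(-ord_w x)` if `w` is a prime (this is Mathlib's `HeightOneSpectrum.adicAbv`). -/
noncomputable def nabs {H : Type} [Field H] [NumberField H] (w : Plc H) (x : H) : ℝ :=
  match w with
  | .inl w => w x ^ w.mult
  | .inr Q => HeightOneSpectrum.adicAbv H Q x

section action

variable {F : Type} [Field F] {H : Type} [Field H] [NumberField H] [Algebra F H]

/-- The Galois group acts on the primes of `H`: `σ • Q` is the image of `Q` under `σ`. -/
instance : MulAction Gal(H/F) (Prm H) where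
  smul σ Q := ⟨σ • Q.asIdeal, inferInstance, fun h => Q.ne_bot (by
    rw [← inv_smul_smul σ Q.asIdeal, h, Ideal.pointwise_smul_def, Ideal.map_bot])⟩
  one_smul Q := HeightOneSpectrum.ext (one_smul _ _)
  mul_smul σ τ Q := HeightOneSpectrum.ext (mul_smul σ τ Q.asIdeal)

theorem smul_asIdeal (σ : Gal(H/F)) (Q : Prm H) : (σ • Q).asIdeal = σ • Q.asIdeal := rfl

theorem intValuation_smul (σ : Gal(H/F)) (Q : Prm H) (x : 𝓞 H) :
    (σ • Q).intValuation (σ • x) = Q.intValuation x := by
  classical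
  have key : ∀ n : ℕ, (σ • Q).intValuation (σ • x) ≤ WithZero.exp (-(n : ℤ)) ↔
      Q.intValuation x ≤ WithZero.exp (-(n : ℤ)) := by
    intro n
    rw [HeightOneSpectrum.intValuation_le_pow_iff_mem, HeightOneSpectrum.intValuation_le_pow_iff_mem, smul_asIdeal,
      ← smul_pow', Ideal.smul_mem_pointwise_smul_iff]
  by_cases hx : x = 0
  · subst hx
    simp
  have hx' : σ • x ≠ 0 := fun h => hx (by
    have := congrArg (fun y => σ⁻¹ • y) h
    simpa using this)
  rw [HeightOneSpectrum.intValuation_if_neg _ hx, HeightOneSpectrum.intValuation_if_neg _ hx'] at key ⊢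
  refine le_antisymm ?_ ?_
  · exact (key _).2 le_rfl
  · exact (key _).1 le_rfl

/-- `v_(σQ)(σx) = v_Q(x)` -/
theorem valuation_smul (σ : Gal(H/F)) (Q : Prm H) (x : H) :
    (σ • Q).valuation H (σ x) = Q.valuation H x := by
  obtain ⟨a, b, hb, rfl⟩ := IsFractionRing.div_surjective (𝓞 H) x
  have h1 : ∀ (P : Prm H) (y : 𝓞 H), P.valuation H (algebraMap (𝓞 H) H y) = P.intValuation y := fun P y =>
    HeightOneSpectrum.valuation_of_algebraMap P y
  have h2 : ∀ y : 𝓞 H, σ (algebraMap (𝓞 H) H y) = algebraMap (𝓞 H) H (σ • y) := fun y => rfl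
  rw [map_div₀, map_div₀, map_div₀, h2, h2, h1, h1, h1, h1, intValuation_smul, intValuation_smul]

/-- the residue fields of `Q` and `σQ` have the same number of elements -/
theorem absNorm_smul (σ : Gal(H/F)) (Q : Prm H) :
    Ideal.absNorm (σ • Q).asIdeal = Ideal.absNorm Q.asIdeal := by
  rw [smul_asIdeal, Ideal.absNorm_apply, Ideal.absNorm_apply, Submodule.cardQuot_apply, Submodule.cardQuot_apply]
  refine Nat.card_congr (Ideal.quotientEquiv _ _ (MulSemiringAction.toRingEquiv _ (𝓞 H) σ⁻¹) ?_).toEquiv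
  conv_lhs => rw [← inv_smul_smul σ Q.asIdeal]
  rfl

/-- `|σx|_(σw) = |x|_w` -/
theorem nabs_smul (σ : Gal(H/F)) (w : Plc H) (x : H) : nabs (σ • w) (σ x) = nabs w x := by
  rcases w with w | Q
  · change (σ • w) (σ x) ^ (σ • w).mult = w x ^ w.mult
    have h1 : (σ • w) (σ x) = w x := by
      rw [InfinitePlace.smul_apply]
      congr 1
      exact σ.symm_apply_apply x
    have h2 : (σ • w).mult = w.mult := by
      rw [InfinitePlace.smul_eq_comap]
      refine le_antisymm (InfinitePlace.mult_comap_le _ _) ?_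
      have h3 := InfinitePlace.mult_comap_le ((σ : H ≃ₐ[F] H) : H →+* H) (w.comap ((σ.symm : H ≃ₐ[F] H) : H →+* H))
      rw [← InfinitePlace.comap_comp] at h3
      have h4 : ((σ.symm : H ≃ₐ[F] H) : H →+* H).comp ((σ : H ≃ₐ[F] H) : H →+* H) = RingHom.id H := by
        ext y
        simp
      rw [h4] at h3
      exact h3
    rw [h1, h2]
  · change HeightOneSpectrum.adicAbv H (σ • Q) (σ x) = HeightOneSpectrum.adicAbv H Q x
    rw [HeightOneSpectrum.adicAbv_def, HeightOneSpectrum.adicAbv_def, valuation_smul]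
    have h1 : ∀ (a b : NNReal) (ha : a ≠ 0) (hb : b ≠ 0), a = b → ∀ y,
        WithZeroMulInt.toNNReal ha y = WithZeroMulInt.toNNReal hb y := by
      rintro a _ ha hb rfl y
      rfl
    rw [h1 _ _ _ _ (by rw [absNorm_smul])]

end action

section units

variable {F : Type} [Field F] [NumberField F] (H : Type) [Field H] [NumberField H] [Algebra F H]

/-- The prime `Q` of `H` lies over one of the primes in `S`. -/
def OverS (S : Finset (Prm F)) (Q : Prm H) : Prop := ∃ q ∈ S, Q.asIdeal.LiesOver q.asIdeal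

/-- `S_H`: the archimedean places of `H` and the primes of `H` over `S`. -/
def SH (S : Finset (Prm F)) : Set (Plc H) := {w | ∀ Q, w = .inr Q → OverS H S Q}

theorem overS_finite (S : Finset (Prm F)) : {Q : Prm H | OverS H S Q}.Finite := by
  classical
  have h1 : {Q : Prm H | OverS H S Q} = ⋃ q ∈ S, {Q : Prm H | Q.asIdeal.LiesOver q.asIdeal} := by
    ext Q
    simp [OverS]
  rw [h1]
  refine Set.Finite.biUnion S.finite_toSet fun q _ => ?_
  have h2 := IsDedekindDomain.primesOver_finite q.asIdeal (𝓞 H)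
  refine Set.Finite.of_finite_image (f := fun Q : Prm H => Q.asIdeal) (h2.subset ?_) ?_
  · rintro _ ⟨Q, hQ, rfl⟩
    exact ⟨Q.isPrime, hQ⟩
  · intro Q _ Q' _ h
    exact HeightOneSpectrum.ext h

instance (S : Finset (Prm F)) : Finite (SH H S) := by
  have h1 : (SH H S) ⊆ Set.range (Sum.inl : InfinitePlace H → Plc H) ∪ Sum.inr '' {Q : Prm H | OverS H S Q} := by
    rintro (w | Q) h
    · exact Or.inl ⟨w, rfl⟩
    · exact Or.inr ⟨Q, h Q rfl, rfl⟩
  exact ((Set.finite_range _).union ((overS_finite H S).image _)).subset h1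

noncomputable instance (S : Finset (Prm F)) : Fintype (SH H S) := Fintype.ofFinite _

variable {H}

theorem overS_smul {S : Finset (Prm F)} {Q : Prm H} (σ : Gal(H/F)) (h : OverS H S Q) : OverS H S (σ • Q) := by
  obtain ⟨q, hq, hQ⟩ := h
  refine ⟨q, hq, ⟨?_⟩⟩
  ext x
  have hx : σ • algebraMap (𝓞 F) (𝓞 H) x = algebraMap (𝓞 F) (𝓞 H) x := by
    apply RingOfIntegers.ext
    exact σ.commutes (x : F)
  rw [smul_asIdeal, hQ.over, Ideal.mem_comap, Ideal.under, Ideal.mem_comap, ← hx, Ideal.smul_mem_pointwise_smul_iff, hx]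

theorem SH_smul {S : Finset (Prm F)} {w : Plc H} (σ : Gal(H/F)) (h : w ∈ SH H S) : σ • w ∈ SH H S := by
  rintro Q hQ
  rcases w with _ | P
  · exact absurd hQ (by rintro ⟨⟩)
  · obtain rfl : σ • P = Q := Sum.inr_injective hQ
    exact overS_smul σ (h P rfl)

/-- The Galois group permutes the places in `S_H`. -/
instance (S : Finset (Prm F)) : MulAction Gal(H/F) (SH H S) where
  smul σ w := ⟨σ • (w : Plc H), SH_smul σ w.2⟩
  one_smul w := Subtype.ext (one_smul _ _)
  mul_smul σ τ w := Subtype.ext (mul_smul σ τ (w : Plc H))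

theorem coe_smul_SH {S : Finset (Prm F)} (σ : Gal(H/F)) (w : SH H S) : ((σ • w : SH H S) : Plc H) = σ • (w : Plc H) := rfl

variable (H)

/-- `U_{S,T}`: the `x ∈ Hˣ` with `ord_Q x = 0` for all primes `Q` not over `S`, and `x ≡ 1` modulo all primes over `T`
(`v_Q(x - 1) < 1` in multiplicative notation). -/
def UST (S T : Finset (Prm F)) : Subgroup Hˣ where
  carrier := {x | (∀ Q : Prm H, ¬ OverS H S Q → Q.valuation H (x : H) = 1) ∧
    ∀ Q : Prm H, OverS H T Q → Q.valuation H ((x : H) - 1) < 1}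
  one_mem' := by
    refine ⟨fun Q _ => ?_, fun Q _ => ?_⟩
    · rw [Units.val_one, map_one]
    · rw [Units.val_one, sub_self, map_zero]
      exact zero_lt_one
  mul_mem' := by
    rintro x y ⟨hx1, hx2⟩ ⟨hy1, hy2⟩
    refine ⟨fun Q hQ => ?_, fun Q hQ => ?_⟩
    · rw [Units.val_mul, map_mul, hx1 Q hQ, hy1 Q hQ, one_mul]
    · have h1 : Q.valuation H (x : H) = 1 := by
        have h := Valuation.map_one_add_of_lt (v := Q.valuation H) (hx2 Q hQ)
        rwa [add_sub_cancel] at h
      have h2 : ((x * y : Hˣ) : H) - 1 = (x : H) * ((y : H) - 1) + ((x : H) - 1) := by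
        rw [Units.val_mul]; ring
      rw [h2]
      refine Valuation.map_add_lt _ ?_ (hx2 Q hQ)
      rw [map_mul, h1, one_mul]
      exact hy2 Q hQ
  inv_mem' := by
    rintro x ⟨hx1, hx2⟩
    refine ⟨fun Q hQ => ?_, fun Q hQ => ?_⟩
    · rw [Units.val_inv_eq_inv_val, map_inv₀, hx1 Q hQ, inv_one]
    · have h1 : Q.valuation H (x : H) = 1 := by
        have h := Valuation.map_one_add_of_lt (v := Q.valuation H) (hx2 Q hQ)
        rwa [add_sub_cancel] at h
      have h2 : ((x⁻¹ : Hˣ) : H) - 1 = -((x : H)⁻¹ * ((x : H) - 1)) := by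
        rw [Units.val_inv_eq_inv_val, mul_sub, inv_mul_cancel₀ x.ne_zero]; ring
      rw [h2, Valuation.map_neg, map_mul, map_inv₀, h1, inv_one, one_mul]
      exact hx2 Q hQ

variable {H}

theorem UST_smul {S T : Finset (Prm F)} {x : Hˣ} (σ : Gal(H/F)) (hx : x ∈ UST H S T) : σ • x ∈ UST H S T := by
  obtain ⟨hx1, hx2⟩ := hx
  have hval : ∀ (Q : Prm H) (y : H), Q.valuation H (σ y) = (σ⁻¹ • Q).valuation H y := fun Q y => by
    rw [← valuation_smul σ (σ⁻¹ • Q) y, smul_inv_smul]
  have hs : ((σ • x : Hˣ) : H) = σ (x : H) := rfl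
  have hinv : ∀ (A : Finset (Prm F)) (Q : Prm H), OverS H A (σ⁻¹ • Q) → OverS H A Q := fun A Q h => by
    have h1 := overS_smul σ h
    rwa [smul_inv_smul] at h1
  refine ⟨fun Q hQ => ?_, fun Q hQ => ?_⟩
  · rw [hs, hval]
    exact hx1 _ fun h => hQ (hinv S Q h)
  · rw [hs, show σ (x : H) - 1 = σ ((x : H) - 1) by rw [map_sub, map_one], hval]
    exact hx2 _ (overS_smul σ⁻¹ hQ)

/-- The Galois group acts on `U_{S,T}`. -/
instance (S T : Finset (Prm F)) : MulDistribMulAction Gal(H/F) (UST H S T) where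
  smul σ x := ⟨σ • (x : Hˣ), UST_smul σ x.2⟩
  one_smul x := Subtype.ext (one_smul _ _)
  mul_smul σ τ x := Subtype.ext (mul_smul σ τ (x : Hˣ))
  smul_mul σ x y := Subtype.ext (smul_mul' σ (x : Hˣ) (y : Hˣ))
  smul_one σ := Subtype.ext (smul_one σ)

theorem coe_smul_UST {S T : Finset (Prm F)} (σ : Gal(H/F)) (x : UST H S T) :
    (((σ • x : UST H S T) : Hˣ) : H) = σ ((x : Hˣ) : H) := rfl

end units

section product

variable {F : Type} [Field F] [NumberField F] {H : Type} [Field H] [NumberField H] [Algebra F H]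

/-- `S_H` is the union of the archimedean places and the primes over `S` -/
noncomputable def SHequiv (S : Finset (Prm F)) : SH H S ≃ InfinitePlace H ⊕ {Q : Prm H // OverS H S Q} where
  toFun w := match w with
    | ⟨.inl w, _⟩ => .inl w
    | ⟨.inr Q, h⟩ => .inr ⟨Q, h Q rfl⟩
  invFun w := match w with
    | .inl w => ⟨.inl w, by rintro Q ⟨⟩⟩
    | .inr Q => ⟨.inr Q.1, by rintro P ⟨⟩; exact Q.2⟩
  left_inv := by rintro ⟨w | Q, h⟩ <;> rfl
  right_inv := by rintro (w | Q) <;> rfl

theorem prod_nabs (S : Finset (Prm F)) (u : Hˣ) (hu : ∀ Q : Prm H, ¬ OverS H S Q → Q.valuation H (u : H) = 1) :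
    ∏ w : SH H S, nabs (w : Plc H) (u : H) = 1 := by
  classical
  have hfin : Finite {Q : Prm H // OverS H S Q} := overS_finite H S
  let _ := Fintype.ofFinite {Q : Prm H // OverS H S Q}
  have h1 : ∏ w : SH H S, nabs (w : Plc H) (u : H) =
      (∏ w : InfinitePlace H, w (u : H) ^ w.mult) *
        ∏ Q : {Q : Prm H // OverS H S Q}, HeightOneSpectrum.adicAbv H Q.1 (u : H) := by
    rw [Fintype.prod_equiv (SHequiv S) (fun w : SH H S => nabs (w : Plc H) (u : H))
      (fun w => Sum.elim (fun w : InfinitePlace H => w (u : H) ^ w.mult)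
        (fun Q : {Q : Prm H // OverS H S Q} => HeightOneSpectrum.adicAbv H Q.1 (u : H)) w), Fintype.prod_sum_type]
    · rfl
    · rintro ⟨w | Q, h⟩ <;> rfl
  rw [h1, ← prod_abs_eq_one (K := H) u.ne_zero]
  congr 1
  have h2 : ∀ Q : Prm H, ¬ OverS H S Q → HeightOneSpectrum.adicAbv H Q (u : H) = 1 := by
    intro Q hQ
    rw [HeightOneSpectrum.adicAbv_def, hu Q hQ, map_one]
    rfl
  calc ∏ Q : {Q : Prm H // OverS H S Q}, HeightOneSpectrum.adicAbv H Q.1 (u : H)
      = ∏ᶠ Q : {Q : Prm H // OverS H S Q}, HeightOneSpectrum.adicAbv H Q.1 (u : H) := by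
        rw [finprod_eq_prod_of_fintype]
    _ = ∏ᶠ (Q : Prm H) (_ : OverS H S Q), HeightOneSpectrum.adicAbv H Q (u : H) :=
        finprod_set_coe_eq_finprod_mem (s := {Q : Prm H | OverS H S Q})
          (f := fun Q => HeightOneSpectrum.adicAbv H Q (u : H))
    _ = ∏ᶠ Q : Prm H, HeightOneSpectrum.adicAbv H Q (u : H) := by
        refine finprod_congr fun Q => ?_
        by_cases h : OverS H S Q
        · rw [finprod_eq_if, if_pos h]
        · rw [finprod_eq_if, if_neg h, h2 Q h]
    _ = ∏ᶠ w : FinitePlace H, w (u : H) := by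
        rw [← finprod_comp_equiv (FinitePlace.equivHeightOneSpectrum (K := H))]
        refine finprod_congr fun w => ?_
        rw [← FinitePlace.norm_embedding_eq w, FinitePlace.norm_embedding]
        rfl

theorem nabs_pos (w : Plc H) {x : H} (hx : x ≠ 0) : 0 < nabs w x := by
  rcases w with w | Q
  · exact pow_pos (InfinitePlace.pos_iff.2 hx) _
  · exact (HeightOneSpectrum.adicAbv H Q).pos hx

theorem nabs_mul (w : Plc H) (x y : H) : nabs w (x * y) = nabs w x * nabs w y := by
  rcases w with w | Q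
  · exact (congrArg (· ^ w.mult) (map_mul w x y)).trans (mul_pow _ _ _)
  · exact map_mul (HeightOneSpectrum.adicAbv H Q) x y

theorem sum_log_nabs (S : Finset (Prm F)) (u : Hˣ) (hu : ∀ Q : Prm H, ¬ OverS H S Q → Q.valuation H (u : H) = 1) :
    ∑ w : SH H S, Real.log (nabs (w : Plc H) (u : H)) = 0 := by
  rw [← Real.log_prod, prod_nabs S u hu, Real.log_one]
  exact fun w _ => (nabs_pos _ u.ne_zero).ne'

end product

end StarkR
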