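import Pool.Agent.Lib.MP_d9bae3_nt.SK.RubinForm
import Pool.Agent.Lib.MP_d9bae3_nt.SK.Places
import Pool.Agent.Lib.MP_d9bae3_nt.SK.GroupRing

/-!
# Popescu's conjecture

`H/F` is an extension of number fields with commutative group `G = Gal(H/F)`, `S` is a finite set of primes of `F`; the archimedean places
always belong to `S`.  (The field `H` is called `K` in the problem.)
-/

namespace StarkR

open NumberField IsDedekindDomain Filter Topology
open scoped Pointwise TensorProduct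

section alg

variable {A E : Type} [CommRing A] [AddCommGroup E] [Module A E]

/-- `(φ_1 ∧ ... ∧ φ_(r-1))(m_1 ∧ ... ∧ m_r) = φ̃_(r-1)(... φ̃_1(m_1 ∧ ... ∧ m_r))`, an element of `⋀^1 E = E`, where
`φ̃(m_1 ∧ ... ∧ m_n) = ∑_i (-1)^(i+1) φ(m_i) m_1 ∧ ... (without m_i) ... ∧ m_n` is Mathlib's `contractLeft φ`. -/
noncomputable def wedgeDual {r : ℕ} (φ : Fin (r - 1) → Module.Dual A E) (m : Fin r → E) : E :=
  ExteriorAlgebra.ιInv ((List.ofFn φ).foldl (fun x φ => CliffordAlgebra.contractLeft (Q := (0 : QuadraticForm A E)) φ x)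
    (ExteriorAlgebra.ιMulti A r m))

/-- the case `r = 1` -/
theorem wedgeDual_one (φ : Fin (1 - 1) → Module.Dual A E) (m : E) : wedgeDual φ ![m] = m := by
  change ExteriorAlgebra.ιInv (ExteriorAlgebra.ιMulti A 1 ![m]) = m
  rw [ExteriorAlgebra.ιMulti_apply]
  simp only [List.ofFn_succ, List.ofFn_zero, List.prod_cons, List.prod_nil, mul_one, Matrix.cons_val_zero]
  exact ExteriorAlgebra.ι_leftInverse m

/-- the case `r = 2` -/
theorem wedgeDual_two (φ : Module.Dual A E) (m₁ m₂ : E) :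
    wedgeDual (r := 2) (fun _ => φ) ![m₁, m₂] = φ m₁ • m₂ - φ m₂ • m₁ := by
  have h1 : (ExteriorAlgebra.ιMulti A 2 ![m₁, m₂] : ExteriorAlgebra A E) =
      ExteriorAlgebra.ι A m₁ * ExteriorAlgebra.ι A m₂ := by
    rw [ExteriorAlgebra.ιMulti_apply]
    simp [List.ofFn_succ]
  change ExteriorAlgebra.ιInv (CliffordAlgebra.contractLeft (Q := (0 : QuadraticForm A E)) φ (ExteriorAlgebra.ιMulti A 2 ![m₁, m₂])) = _
  rw [h1]
  change ExteriorAlgebra.ιInv (CliffordAlgebra.contractLeft (Q := (0 : QuadraticForm A E)) φ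
    (CliffordAlgebra.ι (0 : QuadraticForm A E) m₁ * CliffordAlgebra.ι (0 : QuadraticForm A E) m₂)) = _
  rw [CliffordAlgebra.contractLeft_ι_mul, CliffordAlgebra.contractLeft_ι]
  change ExteriorAlgebra.ιInv (φ m₁ • ExteriorAlgebra.ι A m₂ - ExteriorAlgebra.ι A m₁ * algebraMap A _ (φ m₂)) = _
  rw [map_sub, map_smul, ← Algebra.commutes, ← Algebra.smul_def, map_smul,
    ExteriorAlgebra.ι_leftInverse m₁, ExteriorAlgebra.ι_leftInverse m₂]

/-- The algebraic part of Popescu's conjecture, for `A = ℤ[G]`, `B = ℂ[G]`, `r ≥ 1`: let `R : ⋀^r_B (B ⊗_A E) → B` be the `B`-linear map with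
`R(u_1 ∧ ... ∧ u_r) = det (λ_j(u_i))` for `u_i ∈ E`.  There is exactly one `η` in `e' ⋀^r_B (B ⊗_A E)` with `R(η) = L`, and `w η` is the image
of an element `x` of `ℚ ⊗ ⋀^r_A E` (a sum of elements `q_k ⊗ (m_k1 ∧ ... ∧ m_kr)`) such that for all `φ_1, ..., φ_(r-1)` in `Hom_A(E, A)` the
element `(φ_1 ∧ ... ∧ φ_(r-1))(x)` of `ℚ ⊗ E` is the image of an element of `Ab`.  (An inductive proposition with one constructor is an
existence statement: there are `R`, `η`, `n`, `q`, `m` with the four properties.) -/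
inductive PopescuFor {A E : Type} [CommRing A] [AddCommGroup E] [Module A E] (B : Type) [CommRing B] [Algebra A B] [Algebra ℚ B] {r : ℕ}
    (lam : Fin r → E →ₗ[A] B) (e' L : B) (w : ℕ) (Ab : Set E) : Prop
  | intro (R : ⋀[B]^r (B ⊗[A] E) →ₗ[B] B) (η : ⋀[B]^r (B ⊗[A] E)) (n : ℕ) (q : Fin n → ℚ) (m : Fin n → Fin r → E)
      (regulator : ∀ u : Fin r → E, R (exteriorPower.ιMulti B r fun i => 1 ⊗ₜ[A] u i) = (Matrix.of fun i j => lam j (u i)).det)
      (unique : ∀ η' : ⋀[B]^r (B ⊗[A] E), ((∃ ξ : ⋀[B]^r (B ⊗[A] E), η' = e' • ξ) ∧ R η' = L) ↔ η' = η)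
      (rational : w • η = ∑ k, algebraMap ℚ B (q k) • exteriorPower.ιMulti B r fun i => 1 ⊗ₜ[A] m k i)
      (integral : ∀ φ : Fin (r - 1) → Module.Dual A E, ∃ ε ∈ Ab, ∑ k, q k ⊗ₜ[ℤ] wedgeDual φ (m k) = (1 : ℚ) ⊗ₜ[ℤ] ε) :
      PopescuFor B lam e' L w Ab

theorem popescuFor_zero (B : Type) [CommRing B] [Algebra A B] [Algebra ℚ B] {r : ℕ} (lam : Fin r → E →ₗ[A] B) (w : ℕ) {Ab : Set E}
    (h : 0 ∈ Ab) : PopescuFor B lam 0 0 w Ab := by
  refine ⟨exteriorPower.alternatingMapLinearEquiv (Matrix.detRowAlternating.compLinearMap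
    (LinearMap.pi fun j => (lam j).liftBaseChange B)), 0, 0, fun _ => 0, fun _ _ => 0, ?_, ?_, ?_, fun φ => ⟨0, h, ?_⟩⟩
  · intro u
    rw [exteriorPower.alternatingMapLinearEquiv_apply_ιMulti, AlternatingMap.compLinearMap_apply]
    change Matrix.det _ = _
    congr 1
    refine Matrix.ext fun i j => ?_
    change (lam j).liftBaseChange B (1 ⊗ₜ u i) = _
    rw [LinearMap.liftBaseChange_tmul, one_smul]
    rfl
  · intro η'
    constructor
    · rintro ⟨⟨ξ, rfl⟩, -⟩
      rw [zero_smul]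
    · rintro rfl
      exact ⟨⟨0, by rw [smul_zero]⟩, map_zero _⟩
  · rw [smul_zero]; rfl
  · rw [TensorProduct.tmul_zero]; rfl

open scoped AlgebraMonoidAlgebra in
/-- The conjecture for an abelian group `G` acting on `K` (by `act`) and a group `E` (written additively) of elements of `K` (given by `val`):
`PopescuFor` holds for `E` with the structure of a `ℤ[G]`-module given by the action of `G` on `K`, and for the homomorphisms
`λ_i : E → ℂ[G]` given by `lam`. -/
inductive PopescuG {G K E : Type} [CommGroup G] [AddCommGroup E] (val : E → K) (act : G → K → K) {r : ℕ}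
    (lam : Fin r → K → MonoidAlgebra ℂ G) (e' L : MonoidAlgebra ℂ G) (w : ℕ) (Ab : Set K) : Prop
  | intro (_ : Module (MonoidAlgebra ℤ G) E) (l : Fin r → E →ₗ[MonoidAlgebra ℤ G] MonoidAlgebra ℂ G)
      (action : ∀ (σ : G) (u : E), val ((MonoidAlgebra.single σ 1 : MonoidAlgebra ℤ G) • u) = act σ (val u))
      (log : ∀ i u, l i u = lam i (val u))
      (conj : PopescuFor (MonoidAlgebra ℂ G) l e' L w {ε | val ε ∈ Ab}) :
      PopescuG val act lam e' L w Ab

end alg

section ab

variable (F : Type) [Field F] {H : Type} [Field H] [NumberField H] [Algebra F H]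

/-- `H(u^(1/w_H))/F` is an abelian extension, `w_H` the number of roots of unity in `H`. -/
def IsAb (u : H) : Prop :=
  ∀ (M : Type) [Field M] [Algebra F M] [Algebra H M] [IsScalarTower F H M] (z : M),
    z ^ Units.torsionOrder H = algebraMap H M u → IntermediateField.adjoin H {z} = ⊤ → IsAbelianGalois F M

theorem isAb_one [IsGalois F H] [IsMulCommutative Gal(H/F)] : IsAb F (1 : H) := by
  intro M _ _ _ _ z hz hM
  obtain ⟨μ, hμ⟩ : ∃ μ : Units.torsion H, orderOf μ = Units.torsionOrder H := IsCyclic.exists_ofOrder_eq_natCard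
  rw [← IsPrimitiveRoot.iff_orderOf, ← IsPrimitiveRoot.coe_submonoidClass_iff, ← IsPrimitiveRoot.coe_units_iff] at hμ
  have h1 := hμ.map_of_injective (FaithfulSMul.algebraMap_injective (𝓞 H) H)
  have h2 := h1.map_of_injective (algebraMap H M).injective
  rw [map_one] at hz
  obtain ⟨i, -, hi⟩ := h2.eq_pow_of_pow_eq_one hz
  have h3 : z ∈ (⊥ : IntermediateField H M) := by
    rw [IntermediateField.mem_bot, ← hi, ← map_pow]
    exact ⟨_, rfl⟩
  have h4 : (⊥ : IntermediateField H M) = ⊤ := by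
    rw [← hM]
    refine le_antisymm bot_le ?_
    rw [IntermediateField.adjoin_le_iff, Set.singleton_subset_iff]
    exact h3
  have h5 : Function.Surjective (algebraMap H M) := by
    intro y
    have h : y ∈ (⊥ : IntermediateField H M) := by rw [h4]; exact IntermediateField.mem_top
    exact IntermediateField.mem_bot.1 h
  let e : H ≃ₐ[F] M := AlgEquiv.ofBijective (IsScalarTower.toAlgHom F H M) ⟨(algebraMap H M).injective, h5⟩
  have h6 : IsAbelianGalois F H := { }
  exact IsAbelianGalois.of_algHom (e.symm : M →ₐ[F] H)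

end ab

section conj

open scoped IsMulCommutative AlgebraMonoidAlgebra

variable {F : Type} [Field F] [NumberField F] {H : Type} [Field H] [NumberField H] [Algebra F H]

/-- The set `Ĝ'`: the characters `χ ≠ 1` whose L-function `L_S(χ,s)` has a zero of order exactly `r` at `0`, and the trivial
character if `S` (with the archimedean places) has `r + 1` elements.  `Λ χ` is the L-function of `χ`. -/
def GPrime (Λ : (Gal(H/F) →* ℂˣ) → ℂ → ℂ) (S : Finset (Prm F)) (r : ℕ) : Set (Gal(H/F) →* ℂˣ) :=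
  {χ | (χ ≠ 1 ∧ analyticOrderAt (LST (Λ χ) χ S ∅) 0 = r) ∨
    (χ = 1 ∧ S.card + Nat.card (InfinitePlace F) = r + 1)}

/-- `e_χ = |G|⁻¹ ∑_σ χ(σ) σ⁻¹` -/
noncomputable def eChi (χ : Gal(H/F) →* ℂˣ) : MonoidAlgebra ℂ Gal(H/F) :=
  (Nat.card Gal(H/F) : ℂ)⁻¹ • ∑ᶠ σ : Gal(H/F), MonoidAlgebra.single σ⁻¹ ((χ σ : ℂˣ) : ℂ)

/-- `L^*_{K,S}(0,χ)`, the limit of `s^(-r) L_{K,S}(s,χ)` for `s → 0`. -/
noncomputable def Lstar (Λ : (Gal(H/F) →* ℂˣ) → ℂ → ℂ) (S : Finset (Prm F)) (r : ℕ) (χ : Gal(H/F) →* ℂˣ) : ℂ :=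
  limUnder (𝓝[≠] (0 : ℂ)) fun s => s ^ (-(r : ℤ)) * LST (Λ χ) χ S ∅ s

/-- The hypotheses of Popescu's conjecture: `r ≥ 1`; (H1) `S` contains the ramified primes; (H2) `v_1, ..., v_r` are distinct places in `S`
which split completely in `H`, and `w_i` is a place of `H` above `v_i`; (H3) `S` has at least `r + 1` elements. -/
structure PopHyp (S : Finset (Prm F)) (r : ℕ) (v : Fin r → InfinitePlace F ⊕ Prm F) (w : Fin r → InfinitePlace H ⊕ Prm H) : Prop where
  pos : 1 ≤ r
  ramified : ∀ q : Prm F, Ramified H q → q ∈ S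
  injective : Function.Injective v
  split : ∀ i, SplitAbove S (v i) (w i)
  card : r + 1 ≤ S.card + Nat.card (InfinitePlace F)

theorem PopHyp.le_splitNumber {S : Finset (Prm F)} {r : ℕ} {v : Fin r → InfinitePlace F ⊕ Prm F}
    {w : Fin r → InfinitePlace H ⊕ Prm H} (h : PopHyp S r v w) : r ≤ splitNumber H S := by
  classical
  have hfin : {q : Prm F | q ∈ S ∧ Split H q}.Finite := S.finite_toSet.subset fun q hq => hq.1
  have : Finite {q : Prm F // q ∈ S ∧ Split H q} := hfin
  have h0 : ∀ i, ∃ t : {v : InfinitePlace F // v.IsUnramifiedIn H} ⊕ {q : Prm F // q ∈ S ∧ Split H q},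
      Sum.map (fun a => a.1) (fun a => a.1) t = v i := by
    intro i
    rcases h.split i with ⟨a, b, h1, -, h2, -⟩ | ⟨q, Q, h1, -, h2, h3, -⟩
    · exact ⟨.inl ⟨a, h2⟩, h1.symm⟩
    · exact ⟨.inr ⟨q, h2, h3⟩, h1.symm⟩
  choose f hf using h0
  have h1 : Function.Injective f := fun i j hij => h.injective (by rw [← hf i, ← hf j, hij])
  have h2 := Nat.card_le_card_of_injective f h1
  rw [Nat.card_sum, Nat.card_eq_fintype_card, Fintype.card_fin] at h2
  exact h2

variable (H) in
/-- The group of the `S_H`-units of `H` (`Set.unit` is Mathlib's group of `S`-units). -/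
noncomputable def SUnits (S : Finset (Prm F)) : Subgroup Hˣ := Set.unit {Q : Prm H | ∃ q ∈ S, Q.asIdeal.LiesOver q.asIdeal} H

/-- `λ_w(u) = -∑_σ log |σ(u)|_w σ⁻¹`, with the normalised absolute value. -/
noncomputable def lamFun (w : InfinitePlace H ⊕ Prm H) (u : H) : MonoidAlgebra ℂ Gal(H/F) :=
  -∑ σ : Gal(H/F), MonoidAlgebra.single σ⁻¹ ((Real.log (normAbs w (σ u)) : ℝ) : ℂ)

/-- **Popescu's conjecture** for the abelian extension `H/F`, `S`, `r` and the places `w_1, ..., w_r` of `H` (`Λ χ` is the L-function of `χ`):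
`PopescuG` holds for the group `E_S(H)` of `S_H`-units with the action of `G = Gal(H/F)`, the maps `λ_1, ..., λ_r`, `e' = ∑ e_χ` and
`∑ L^*_{K,S}(0,χ) e_(χ̄)`, the sums over `χ ∈ Ĝ'`, the number `w_H` of roots of unity in `H` and the set of the `ε` with `H(ε^(1/w_H))/F` abelian. -/
def PopescuConj [IsMulCommutative Gal(H/F)] (Λ : (Gal(H/F) →* ℂˣ) → ℂ → ℂ) (S : Finset (Prm F)) (r : ℕ)
    (w : Fin r → InfinitePlace H ⊕ Prm H) : Prop :=
  PopescuG (fun u : Additive (SUnits H S) => ((Additive.toMul u).1 : H)) (fun (σ : Gal(H/F)) x => σ x) (fun i => lamFun (w i))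
    (∑ᶠ χ ∈ GPrime Λ S r, eChi χ) (∑ᶠ χ ∈ GPrime Λ S r, Lstar Λ S r χ • eChi χ⁻¹) (Units.torsionOrder H) {ε | IsAb F ε}

/-- The Galois group acts on the `S`-units. -/
@[instance_reducible] noncomputable def actUnit (S : Finset (Prm F)) :
    MulDistribMulAction Gal(H/F) (SUnits H S) where
  smul σ x := ⟨σ • (x : Hˣ), fun Q hQ => by
    have h1 : Q.valuation H (σ ((x : Hˣ) : H)) = (σ⁻¹ • Q).valuation H ((x : Hˣ) : H) := by
      rw [← valuation_smul σ (σ⁻¹ • Q) ((x : Hˣ) : H), smul_inv_smul]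
    change Q.valuation H (σ ((x : Hˣ) : H)) = 1
    rw [h1]
    refine x.2 _ fun h => hQ ?_
    have h2 := overS_smul (S := S) σ h
    rwa [smul_inv_smul] at h2⟩
  one_smul x := Subtype.ext (one_smul _ _)
  mul_smul σ τ x := Subtype.ext (mul_smul σ τ (x : Hˣ))
  smul_mul σ x y := Subtype.ext (smul_mul' σ (x : Hˣ) (y : Hˣ))
  smul_one σ := Subtype.ext (smul_one σ)

theorem normAbs_eq (w : InfinitePlace H ⊕ Prm H) (x : H) : normAbs w x = nabs w x := by
  rcases w with w | Q <;> rfl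

theorem popescuG_zero [IsMulCommutative Gal(H/F)] (S : Finset (Prm F)) {r : ℕ} (w : Fin r → InfinitePlace H ⊕ Prm H) {Ab : Set H}
    (h : 1 ∈ Ab) : PopescuG (fun u : Additive (SUnits H S) => ((Additive.toMul u).1 : H)) (fun (σ : Gal(H/F)) x => σ x)
      (fun i => lamFun (w i)) 0 0 (Units.torsionOrder H) Ab := by
  let _ := actUnit (H := H) S
  let val : Additive (SUnits H S) → H := fun u => ((Additive.toMul u).1 : H)
  let mod : Module (MonoidAlgebra ℤ Gal(H/F)) (Additive (SUnits H S)) :=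
    grModule (Representation.ofMulDistribMulAction Gal(H/F) (SUnits H S))
  have hsm : ∀ (σ : Gal(H/F)) (u : Additive (SUnits H S)),
      val ((MonoidAlgebra.single σ 1 : MonoidAlgebra ℤ Gal(H/F)) • u) = σ (val u) := by
    intro σ u
    have h := grModule_single (Representation.ofMulDistribMulAction Gal(H/F) (SUnits H S)) σ (1 : ℤ) u
    rw [one_smul] at h
    exact congrArg val h
  refine ⟨mod, fun i => ?_, hsm, ?_, popescuFor_zero _ _ _ h⟩
  · let f : Additive (SUnits H S) →+ MonoidAlgebra ℂ Gal(H/F) := AddMonoidHom.mk' (fun u => lamFun (w i) (val u)) (by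
      intro u v
      have hu : ∀ u : Additive (SUnits H S), val u ≠ 0 := fun u => Units.ne_zero _
      change lamFun (w i) (val u * val v) = _
      unfold lamFun
      rw [← neg_add, ← Finset.sum_add_distrib]
      congr 1
      refine Finset.sum_congr rfl fun σ _ => ?_
      rw [← MonoidAlgebra.single_add, ← Complex.ofReal_add, map_mul, normAbs_eq, normAbs_eq, normAbs_eq, nabs_mul,
        Real.log_mul (nabs_pos _ ((map_ne_zero σ).2 (hu u))).ne' (nabs_pos _ ((map_ne_zero σ).2 (hu v))).ne'])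
    exact { f with
      map_smul' := map_smul_of_single f fun σ u => by
        rw [Algebra.smul_def]
        change lamFun (w i) (val _) = _ * lamFun (w i) (val u)
        rw [hsm]
        have h1 : algebraMap (MonoidAlgebra ℤ Gal(H/F)) (MonoidAlgebra ℂ Gal(H/F)) (MonoidAlgebra.single σ 1) =
            MonoidAlgebra.single σ 1 := by
          rw [MonoidAlgebra.algebraMap_def]
          simp
        rw [h1]
        unfold lamFun
        rw [mul_neg, Finset.mul_sum]
        congr 1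
        refine Fintype.sum_equiv (Equiv.mulRight σ) _ _ fun τ => ?_
        rw [Equiv.coe_mulRight, MonoidAlgebra.single_mul_single, mul_inv_rev, mul_inv_cancel_left, one_mul]
        rfl }
  · intro i u
    rfl

/-- Popescu's conjecture holds if `Ĝ'` is empty. -/
theorem popescuConj_of_empty [IsGalois F H] [IsMulCommutative Gal(H/F)] {Λ : (Gal(H/F) →* ℂˣ) → ℂ → ℂ} {S : Finset (Prm F)}
    {r : ℕ} (w : Fin r → InfinitePlace H ⊕ Prm H) (h : GPrime Λ S r = ∅) : PopescuConj Λ S r w := by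
  unfold PopescuConj
  rw [h]
  simp only [Set.mem_empty_iff_false, finsum_false, finsum_zero]
  exact popescuG_zero S w (isAb_one F)

end conj

end StarkR
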