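import Pool.Agent.Lib.MP_d9bae3_nt.SK.RubinForm
import Pool.Agent.Lib.MP_d9bae3_nt.SK.GroupRing

/-!
# Stark's conjecture of order `r`

`H/F` is an extension of number fields with commutative group `G = Gal(H/F)`, `S` and `T` are finite sets of primes of `F`; the archimedean
places always belong to `S`.
-/

namespace StarkR

open NumberField IsDedekindDomain
open scoped AlgebraMonoidAlgebra

/-- For an algebra `B` over `A`, a `B`-module `M` and a set `X ⊆ M`: the set of the sums of elements `a (x_1 ∧ ... ∧ x_r)` of `⋀^r_B M` with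
`a ∈ A`, `x_i ∈ X`.  For `A = ℚ[G]`, `B = ℝ[G]`, `M = ℝX` and a `ℤ[G]`-module `X` this is the image of `ℚ ⋀^r_{ℤ[G]} X = ⋀^r_{ℚ[G]} ℚX`. -/
def wedgeSpan (A : Type) {B M : Type} [CommRing A] [CommRing B] [Algebra A B] [AddCommGroup M] [Module B M] (r : ℕ) (X : Set M) :
    Set (⋀[B]^r M) :=
  {y | ∃ (n : ℕ) (a : Fin n → A) (x : Fin n → Fin r → M), (∀ k i, x k i ∈ X) ∧
    y = ∑ k, algebraMap A B (a k) • exteriorPower.ιMulti B r (x k)}

/-- The conjecture for an abelian group `G` which acts on a set `P` (by `act`), a group `M` of finite formal sums `∑ a_w w` of elements of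
`P` with real coefficients (given by `val`), and a set `U` of such sums: `θ y` is in the span of the wedge products of elements of `U` for all
`y` in the span of the wedge products of the elements of `M` with integral coefficients.  Here `M` is a module over `ℝ[G]` by
`(a σ) (∑ a_w w) = ∑ a a_w (σ w)`. -/
inductive StarkG {G P M : Type} [CommGroup G] [AddCommGroup M] (val : M → P →₀ ℝ) (act : G → P → P) (U : Set (P →₀ ℝ))
    (θ : MonoidAlgebra ℝ G) (r : ℕ) : Prop
  | intro (_ : Module (MonoidAlgebra ℝ G) M)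
      (action : ∀ (a : ℝ) (σ : G) (x : M), val ((MonoidAlgebra.single σ a : MonoidAlgebra ℝ G) • x) =
        a • Finsupp.mapDomain (act σ) (val x))
      (conj : ∀ y ∈ wedgeSpan (MonoidAlgebra ℚ G) (B := MonoidAlgebra ℝ G) r {x : M | ∀ w, ∃ n : ℤ, val x w = n},
        θ • y ∈ wedgeSpan (MonoidAlgebra ℚ G) (B := MonoidAlgebra ℝ G) r {x : M | val x ∈ U}) :
      StarkG val act U θ r

theorem starkG_zero {G P : Type} [CommGroup G] {act : G → P → P} (h1 : ∀ w, act 1 w = w) (h2 : ∀ σ τ w, act (σ * τ) w = act σ (act τ w))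
    (M : Submodule ℝ (P →₀ ℝ)) (U : Set (P →₀ ℝ)) (r : ℕ)
    (hM : ∀ (σ : G), ∀ x ∈ M, Finsupp.mapDomain (act σ) x ∈ M) : StarkG (fun x : M => (x : P →₀ ℝ)) act U 0 r := by
  let ρ : G →* Module.End ℝ M :=
    { toFun := fun σ => (Finsupp.lmapDomain ℝ ℝ (act σ)).restrict (hM σ)
      map_one' := by
        refine LinearMap.ext fun x => Subtype.ext ?_
        change Finsupp.mapDomain (act 1) (x : P →₀ ℝ) = x
        rw [show act 1 = id from funext h1]
        exact Finsupp.mapDomain_id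
      map_mul' := fun σ τ => by
        refine LinearMap.ext fun x => Subtype.ext ?_
        change Finsupp.mapDomain (act (σ * τ)) (x : P →₀ ℝ) = Finsupp.mapDomain (act σ) (Finsupp.mapDomain (act τ) (x : P →₀ ℝ))
        rw [← Finsupp.mapDomain_comp]
        congr 1
        exact funext fun w => h2 σ τ w }
  refine ⟨grModule ρ, fun a σ x => ?_, fun y _ => ?_⟩
  · have h := grModule_single ρ σ a x
    exact congrArg Subtype.val h
  · rw [zero_smul]
    exact ⟨0, fun _ => 0, fun _ _ => 0, fun k => k.elim0, rfl⟩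

section

variable {F : Type} [Field F] [NumberField F] {H : Type} [Field H] [NumberField H] [Algebra F H]

/-- The image `σ w` of the place `w` of `H`. -/
noncomputable def galPlace (σ : Gal(H/F)) (w : InfinitePlace H ⊕ Prm H) : InfinitePlace H ⊕ Prm H :=
  Sum.map (fun w => σ • w) (HeightOneSpectrum.equivOfRingEquiv (RingOfIntegers.mapRingEquiv (σ : H ≃+* H))) w

variable (H) in
/-- `ℝ X_{S_H}`: the finite sums `∑ a_w w` with real coefficients and `∑ a_w = 0` over the places `w` of `H` in `S_H`, that is the archimedean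
ones and the primes above `S`. -/
noncomputable def XR (S : Finset (Prm F)) : Submodule ℝ (InfinitePlace H ⊕ Prm H →₀ ℝ) :=
  Finsupp.supported ℝ ℝ {w | ∀ Q, w = .inr Q → ∃ q ∈ S, Q.asIdeal.LiesOver q.asIdeal} ⊓
    LinearMap.ker (Finsupp.linearCombination ℝ fun _ => (1 : ℝ))

/-- **Stark's conjecture of order `r`** for the abelian extension `H/F`, `S` and `T` (`Λ χ` is the L-function of `χ`): the `r`-th derivative of
the Stickelberger element is an element `θ` of `ℝ[G]` and `θ 𝒳_r ⊆ λ(𝒰_r)`; here `𝒳_r ⊆ ⋀^r ℝX_{S_H}` is the span of the `x_1 ∧ ... ∧ x_r` over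
`ℚ[G]`, `x_i ∈ X_{S_H}`, and `λ(𝒰_r)` the span of the `λ(u_1) ∧ ... ∧ λ(u_r)`, `u_i ∈ U_{S,T}`, `λ(u) = ∑_w log |u|_w w`. -/
def StarkConj [IsMulCommutative Gal(H/F)] (Λ : (Gal(H/F) →* ℂˣ) → ℂ → ℂ) (S T : Finset (Prm F)) (r : ℕ) : Prop :=
  ∃ θ : MonoidAlgebra ℝ Gal(H/F), MonoidAlgebra.mapRingHom Gal(H/F) Complex.ofRealHom θ = theta Λ S T r ∧
    open scoped IsMulCommutative in
    StarkG (fun x : XR H S => (x : InfinitePlace H ⊕ Prm H →₀ ℝ)) (galPlace (F := F)) {x | ∃ u : H, IsUnitST S T u ∧ ∀ w, x w = Real.log (normAbs w u)} θ r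

omit [NumberField F] in
theorem galPlace_one (w : InfinitePlace H ⊕ Prm H) : galPlace (1 : Gal(H/F)) w = w := by
  rcases w with w | Q
  · exact congrArg Sum.inl (one_smul _ w)
  · refine congrArg Sum.inr (HeightOneSpectrum.ext ?_)
    change Q.asIdeal.comap _ = _
    ext x
    rfl

omit [NumberField F] in
theorem galPlace_mul (σ τ : Gal(H/F)) (w : InfinitePlace H ⊕ Prm H) : galPlace (σ * τ) w = galPlace σ (galPlace τ w) := by
  rcases w with w | Q
  · exact congrArg Sum.inl (mul_smul _ _ w)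
  · refine congrArg Sum.inr (HeightOneSpectrum.ext ?_)
    rfl

theorem galPlace_XR (S : Finset (Prm F)) (σ : Gal(H/F)) (x : InfinitePlace H ⊕ Prm H →₀ ℝ) (hx : x ∈ XR H S) :
    Finsupp.mapDomain (galPlace σ) x ∈ XR H S := by
  classical
  obtain ⟨h1, h2⟩ := hx
  refine ⟨fun w hw => ?_, ?_⟩
  · obtain ⟨w', hw', rfl⟩ := Finset.mem_image.1 (Finsupp.mapDomain_support hw)
    have h3 := h1 hw'
    rcases w' with w' | Q'
    · rintro Q ⟨⟩
    · rintro Q hQ
      obtain ⟨q, hq, h4⟩ := h3 Q' rfl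
      refine ⟨q, hq, ⟨?_⟩⟩
      obtain rfl : HeightOneSpectrum.equivOfRingEquiv (RingOfIntegers.mapRingEquiv (σ : H ≃+* H)) Q' = Q := Sum.inr_injective hQ
      rw [h4.over]
      ext y
      change algebraMap (𝓞 F) (𝓞 H) y ∈ Q'.asIdeal ↔ (RingOfIntegers.mapRingEquiv (σ : H ≃+* H)).symm (algebraMap (𝓞 F) (𝓞 H) y) ∈ Q'.asIdeal
      have h5 : (RingOfIntegers.mapRingEquiv (σ : H ≃+* H)).symm (algebraMap (𝓞 F) (𝓞 H) y) = algebraMap (𝓞 F) (𝓞 H) y := by
        apply RingOfIntegers.ext
        exact σ.symm.commutes (y : F)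
      rw [h5]
  · change Finsupp.linearCombination ℝ _ _ = 0
    rw [Finsupp.linearCombination_mapDomain]
    exact h2

open scoped IsMulCommutative in
/-- Stark's conjecture holds if the Stickelberger element is zero. -/
theorem starkConj_of_theta [IsMulCommutative Gal(H/F)] {Λ : (Gal(H/F) →* ℂˣ) → ℂ → ℂ} {S T : Finset (Prm F)} {r : ℕ}
    (h : theta Λ S T r = 0) : StarkConj Λ S T r :=
  ⟨0, by rw [map_zero, h], starkG_zero galPlace_one galPlace_mul _ _ _ (galPlace_XR S)⟩

end

end StarkR
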