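import Pool.Agent.Lib.MP_d9bae3_nt.SK.Cheb
import Pool.Agent.Lib.MP_e426f4_ag.N.Const

/-!
# Module SRK-HouseT: 100% of the families with bounded absolute values are rich

Plan.  Sum `few_ev` over the finitely many `v ≠ 0` (with `ε / card V`): the `b ∈ CBox` which are not `Rich e k` are at most `ε |CBox|` for large `R`.
Transfer to `Box F n X` as in `Pool/Agent/Lib/MP_e426f4_ag/N/House.lean` (`house_final`, second half): with `c = NFHP.cK F ≥ 1`,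
`Box F n X ⊆ CBox F (V n) ⌈c X⌉` (`NFHP.crd_le_of_norm_sg`) and `CBox F (V n) ⌊X / c⌋ ⊆ Box F n X` (`NFHP.norm_sg_le_of_crd`); every embedding `φ : F →+* ℂ` is
the embedding of its infinite place or the conjugate of it (`NumberField.InfinitePlace.mk_embedding`/`embedding_mk_eq`), so `‖φ x‖ = InfinitePlace.mk φ x = ‖sg w x‖`.
The numbers of elements `(2R+1)^(mK F * card V)` (`CBox_card`) of the two boxes differ by a bounded factor.
-/

namespace StarkR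

open NumberField IsDedekindDomain NFHP Filter Topology

variable {F : Type} [Field F] [NumberField F] {m : ℕ} {n : Fin m → ℕ} [∀ i, NeZero (n i)]

omit [∀ i, NeZero (n i)] in
private theorem ht_sub_cbox (X : ℕ) : Box F n X ⊆ CBox F (V n) ⌈cK F * (X : ℝ)⌉₊ := by
  intro b hb t j
  have h1 : ∀ w : InfinitePlace F, ‖sg w (b t)‖ ≤ (X : ℝ) := fun w => hb t w.embedding
  exact (crd_le_of_norm_sg h1 j).trans (Nat.le_ceil _)

omit [∀ i, NeZero (n i)] in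
private theorem ht_cbox_sub (X : ℕ) : CBox F (V n) ⌊(X : ℝ) / cK F⌋₊ ⊆ Box F n X := by
  intro b hb v φ
  have h1 : ‖sg (InfinitePlace.mk φ) (b v)‖ ≤ cK F * (⌊(X : ℝ) / cK F⌋₊ : ℝ) :=
    norm_sg_le_of_crd (hb v) _
  have h2 : ‖sg (InfinitePlace.mk φ) (b v)‖ = ‖φ (b v : F)‖ :=
    InfinitePlace.norm_embedding_eq (InfinitePlace.mk φ) (b v : F)
  rw [← h2]
  refine h1.trans ?_
  have hc0 : 0 < cK F := cK_pos
  have h3 : (⌊(X : ℝ) / cK F⌋₊ : ℝ) ≤ (X : ℝ) / cK F :=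
    Nat.floor_le (div_nonneg (Nat.cast_nonneg _) hc0.le)
  calc cK F * (⌊(X : ℝ) / cK F⌋₊ : ℝ) ≤ cK F * ((X : ℝ) / cK F) :=
        mul_le_mul_of_nonneg_left h3 hc0.le
    _ = X := by field_simp

theorem Box_finite (X : ℕ) : (Box F n X).Finite :=
  (CBox_finite _).subset (ht_sub_cbox X)

theorem Box_nonempty (X : ℕ) : (Box F n X).Nonempty := by
  refine ⟨fun _ => 0, fun v φ => ?_⟩
  simp

/-- the not rich families in the coordinate boxes -/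
private theorem ht_not_rich {e : ℕ} (he : 0 < e) (k : ℕ) (ε : ℝ) (hε : 0 < ε) :
    ∀ᶠ R : ℕ in atTop, (Set.ncard {b : V n → 𝓞 F | b ∈ CBox F (V n) R ∧ ¬ Rich e k b} : ℝ) ≤
      ε * ((CBox F (V n) R).ncard : ℝ) := by
  have hV : 0 < Fintype.card (V n) := Fintype.card_pos
  have hV' : (0 : ℝ) < Fintype.card (V n) := by exact_mod_cast hV
  have h1 : ∀ v : V n, ∀ᶠ R : ℕ in atTop, (Set.ncard {b : V n → 𝓞 F | b ∈ CBox F (V n) R ∧
      ¬ ∃ A : Finset (Prm F), k ≤ A.card ∧ ∀ q ∈ A, (e : 𝓞 F) ∉ q.asIdeal ∧ Ev e v b q} : ℝ) ≤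
        (ε / Fintype.card (V n)) * ((CBox F (V n) R).ncard : ℝ) := fun v =>
    few_ev he v k _ (by positivity)
  filter_upwards [eventually_all.2 h1] with R hR
  have h2 : {b : V n → 𝓞 F | b ∈ CBox F (V n) R ∧ ¬ Rich e k b} ⊆
      ⋃ v : V n, {b : V n → 𝓞 F | b ∈ CBox F (V n) R ∧
        ¬ ∃ A : Finset (Prm F), k ≤ A.card ∧ ∀ q ∈ A, (e : 𝓞 F) ∉ q.asIdeal ∧ Ev e v b q} := by
    rintro b ⟨hb1, hb2⟩
    unfold Rich at hb2
    push Not at hb2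
    obtain ⟨v, _, hv⟩ := hb2
    rw [Set.mem_iUnion]
    refine ⟨v, hb1, ?_⟩
    push Not
    exact hv
  have h3 : (⋃ v : V n, {b : V n → 𝓞 F | b ∈ CBox F (V n) R ∧
        ¬ ∃ A : Finset (Prm F), k ≤ A.card ∧ ∀ q ∈ A, (e : 𝓞 F) ∉ q.asIdeal ∧ Ev e v b q}).Finite :=
    (CBox_finite R).subset (Set.iUnion_subset fun v b hb => hb.1)
  have h4 := (Set.ncard_le_ncard h2 h3).trans (Set.ncard_iUnion_le_of_fintype _)
  calc (Set.ncard {b : V n → 𝓞 F | b ∈ CBox F (V n) R ∧ ¬ Rich e k b} : ℝ) ≤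
      ((∑ v : V n, Set.ncard {b : V n → 𝓞 F | b ∈ CBox F (V n) R ∧
        ¬ ∃ A : Finset (Prm F), k ≤ A.card ∧ ∀ q ∈ A, (e : 𝓞 F) ∉ q.asIdeal ∧ Ev e v b q} : ℕ) : ℝ) := by
        exact_mod_cast h4
    _ = ∑ v : V n, (Set.ncard {b : V n → 𝓞 F | b ∈ CBox F (V n) R ∧
        ¬ ∃ A : Finset (Prm F), k ≤ A.card ∧ ∀ q ∈ A, (e : 𝓞 F) ∉ q.asIdeal ∧ Ev e v b q} : ℝ) := by
        push_cast
        rfl
    _ ≤ ∑ _v : V n, (ε / Fintype.card (V n)) * ((CBox F (V n) R).ncard : ℝ) :=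
        Finset.sum_le_sum fun v _ => hR v
    _ = ε * ((CBox F (V n) R).ncard : ℝ) := by
        rw [Finset.sum_const, Finset.card_univ, nsmul_eq_mul]
        field_simp

theorem rich_all {e : ℕ} (he : 0 < e) (k : ℕ) :
    Tendsto (fun X : ℕ => (Set.ncard {b : V n → 𝓞 F | b ∈ Box F n X ∧ Rich e k b} : ℝ) /
      ((Box F n X).ncard : ℝ)) atTop (𝓝 1) := by
  have hc1 : 1 ≤ cK F := one_le_cK
  have hc0 : 0 < cK F := cK_pos
  set c := cK F with hc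
  set Mx : ℕ := mK F * Fintype.card (V n) with hMx
  set C : ℝ := (2 * c + 3) * c with hC
  have hC0 : 0 < C := by positivity
  have hup : Tendsto (fun X : ℕ => ⌈c * (X : ℝ)⌉₊) atTop atTop :=
    tendsto_nat_ceil_atTop.comp (tendsto_natCast_atTop_atTop.const_mul_atTop hc0)
  have hratio : ∀ X : ℕ, 1 ≤ X →
      (2 * (⌈c * (X : ℝ)⌉₊ : ℝ) + 1) ≤ C * (2 * (⌊(X : ℝ) / c⌋₊ : ℝ) + 1) := by
    intro X hX
    have hX1 : (1 : ℝ) ≤ X := by exact_mod_cast hX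
    have h1 : (⌈c * (X : ℝ)⌉₊ : ℝ) < c * X + 1 := Nat.ceil_lt_add_one (by positivity)
    have h2 : (X : ℝ) / c < (⌊(X : ℝ) / c⌋₊ : ℝ) + 1 := Nat.lt_floor_add_one _
    have h3 : (0 : ℝ) ≤ (⌊(X : ℝ) / c⌋₊ : ℝ) := Nat.cast_nonneg _
    have h4 : (X : ℝ) / c ≤ 2 * (⌊(X : ℝ) / c⌋₊ : ℝ) + 1 := by linarith
    calc 2 * (⌈c * (X : ℝ)⌉₊ : ℝ) + 1 ≤ (2 * c + 3) * X := by nlinarith
      _ = C * ((X : ℝ) / c) := by
          rw [hC]
          field_simp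
      _ ≤ _ := mul_le_mul_of_nonneg_left h4 hC0.le
  have hratio' : ∀ X : ℕ, 1 ≤ X →
      (2 * (⌈c * (X : ℝ)⌉₊ : ℝ) + 1) ^ Mx ≤ C ^ Mx * (2 * (⌊(X : ℝ) / c⌋₊ : ℝ) + 1) ^ Mx := by
    intro X hX
    rw [← mul_pow]
    exact pow_le_pow_left₀ (by positivity) (hratio X hX) _
  have hbox : ∀ R : ℕ, ((CBox F (V n) R).ncard : ℝ) = (2 * (R : ℝ) + 1) ^ Mx := by
    intro R
    rw [CBox_card]
    push_cast
    rfl
  have hpos : ∀ X : ℕ, (0 : ℝ) < ((Box F n X).ncard : ℝ) := by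
    intro X
    exact_mod_cast (Set.ncard_pos (Box_finite X)).2 (Box_nonempty X)
  rw [Metric.tendsto_atTop']
  intro ε hε
  have h0 := hup.eventually (ht_not_rich (F := F) (n := n) he k (ε / (2 * C ^ Mx)) (by positivity))
  obtain ⟨N, hN⟩ := eventually_atTop.1 h0
  refine ⟨max N 1, fun X hX => ?_⟩
  have hXN : N ≤ X := (le_max_left _ _).trans hX.le
  have hX1 : 1 ≤ X := (le_max_right _ _).trans hX.le
  have h1 := hN X hXN
  -- the not rich elements of the box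
  have h2 : (Set.ncard {b : V n → 𝓞 F | b ∈ Box F n X ∧ ¬ Rich e k b} : ℝ) ≤
      ε / 2 * ((Box F n X).ncard : ℝ) := by
    have h3 : (Set.ncard {b : V n → 𝓞 F | b ∈ Box F n X ∧ ¬ Rich e k b} : ℝ) ≤
        (Set.ncard {b : V n → 𝓞 F | b ∈ CBox F (V n) ⌈c * (X : ℝ)⌉₊ ∧ ¬ Rich e k b} : ℝ) := by
      have h4 : {b : V n → 𝓞 F | b ∈ Box F n X ∧ ¬ Rich e k b} ⊆
          {b : V n → 𝓞 F | b ∈ CBox F (V n) ⌈c * (X : ℝ)⌉₊ ∧ ¬ Rich e k b} :=
        fun b hb => ⟨ht_sub_cbox X hb.1, hb.2⟩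
      exact_mod_cast Set.ncard_le_ncard h4 ((CBox_finite _).subset fun b hb => hb.1)
    have h5 : (2 * (⌊(X : ℝ) / c⌋₊ : ℝ) + 1) ^ Mx ≤ ((Box F n X).ncard : ℝ) := by
      rw [← hbox]
      exact_mod_cast Set.ncard_le_ncard (ht_cbox_sub X) (Box_finite X)
    calc _ ≤ _ := h3
      _ ≤ ε / (2 * C ^ Mx) * ((CBox F (V n) ⌈c * (X : ℝ)⌉₊).ncard : ℝ) := h1
      _ = ε / (2 * C ^ Mx) * (2 * (⌈c * (X : ℝ)⌉₊ : ℝ) + 1) ^ Mx := by rw [hbox]
      _ ≤ ε / (2 * C ^ Mx) * (C ^ Mx * (2 * (⌊(X : ℝ) / c⌋₊ : ℝ) + 1) ^ Mx) :=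
          mul_le_mul_of_nonneg_left (hratio' X hX1) (by positivity)
      _ = ε / 2 * (2 * (⌊(X : ℝ) / c⌋₊ : ℝ) + 1) ^ Mx := by
          field_simp
      _ ≤ ε / 2 * ((Box F n X).ncard : ℝ) := mul_le_mul_of_nonneg_left h5 (by positivity)
  -- complement
  have h6 : (Set.ncard {b : V n → 𝓞 F | b ∈ Box F n X ∧ Rich e k b} : ℝ) +
      (Set.ncard {b : V n → 𝓞 F | b ∈ Box F n X ∧ ¬ Rich e k b} : ℝ) =
      ((Box F n X).ncard : ℝ) := by
    have h7 : {b : V n → 𝓞 F | b ∈ Box F n X ∧ Rich e k b} ∪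
        {b : V n → 𝓞 F | b ∈ Box F n X ∧ ¬ Rich e k b} = Box F n X := by
      ext b
      simp only [Set.mem_union, Set.mem_ofPred_eq]
      tauto
    have h8 : Disjoint {b : V n → 𝓞 F | b ∈ Box F n X ∧ Rich e k b}
        {b : V n → 𝓞 F | b ∈ Box F n X ∧ ¬ Rich e k b} := by
      rw [Set.disjoint_left]
      exact fun b h9 h10 => h10.2 h9.2
    have h11 := Set.ncard_union_eq h8 ((Box_finite X).subset fun b hb => hb.1)
      ((Box_finite X).subset fun b hb => hb.1)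
    rw [h7] at h11
    exact_mod_cast h11.symm
  have hp := hpos X
  rw [Real.dist_eq]
  have h7 : (Set.ncard {b : V n → 𝓞 F | b ∈ Box F n X ∧ Rich e k b} : ℝ) /
      ((Box F n X).ncard : ℝ) - 1 =
      -((Set.ncard {b : V n → 𝓞 F | b ∈ Box F n X ∧ ¬ Rich e k b} : ℝ) /
        ((Box F n X).ncard : ℝ)) := by
    have h8 : (Set.ncard {b : V n → 𝓞 F | b ∈ Box F n X ∧ Rich e k b} : ℝ) =
        ((Box F n X).ncard : ℝ) -
        (Set.ncard {b : V n → 𝓞 F | b ∈ Box F n X ∧ ¬ Rich e k b} : ℝ) := by linarith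
    rw [h8, sub_div, div_self hp.ne']
    ring
  rw [h7, abs_neg, abs_of_nonneg (by positivity)]
  calc (Set.ncard {b : V n → 𝓞 F | b ∈ Box F n X ∧ ¬ Rich e k b} : ℝ) /
        ((Box F n X).ncard : ℝ) ≤ ε / 2 := by
        rw [div_le_iff₀ hp]
        exact h2
    _ < ε := by linarith

end StarkR
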