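import Pool.Agent.Lib.MP_d9bae3_nt.SK.Defs

/-!
# Random abelian extensions: auxiliary definitions

For `c, v` in the group `V n`, `n_i ∣ e`, the number `pr e c v = ∑ c_i v_i e / n_i`; `e ∣ pr e c v` says that the character `c`
is trivial on `v`.  `bet α c = ∏ α_i ^ c_i`.  `Ev e v b q`: the prime `q` divides `b_v` exactly once, and all other `b_w` are
`e`-th power residues, not `0`, modulo `q`.
-/

namespace StarkR

open NumberField IsDedekindDomain
open scoped Pointwise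

variable {F : Type} [Field F] [NumberField F] {m : ℕ} {n : Fin m → ℕ}

/-- `∑ c_i v_i (e / n_i)` -/
def pr (e : ℕ) (c v : V n) : ℕ := ∑ i, (c i).val * (v i).val * (e / n i)

/-- `∏ α_i ^ c_i` -/
def bet {H : Type} [Field H] (α : Fin m → H) (c : V n) : H := ∏ i, α i ^ (c i).val

/-- `q` divides `b_v` exactly once, and the other `b_w` are nonzero `e`-th power residues modulo `q` -/
def Ev (e : ℕ) (v : V n) (b : V n → 𝓞 F) (q : Prm F) : Prop :=
  b v ∈ q.asIdeal ∧ b v ∉ q.asIdeal ^ 2 ∧ ∀ w, w ≠ v → b w ∉ q.asIdeal ∧ ∃ x : 𝓞 F, b w - x ^ e ∈ q.asIdeal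

/-- for every `v ≠ 0` there are at least `k` primes `q`, not dividing `e`, with `Ev e v b q` -/
def Rich (e k : ℕ) (b : V n → 𝓞 F) : Prop :=
  ∀ v : V n, v ≠ 0 → ∃ A : Finset (Prm F), k ≤ A.card ∧ ∀ q ∈ A, (e : 𝓞 F) ∉ q.asIdeal ∧ Ev e v b q


end StarkR
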