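import Pool.Agent.Lib.MP_d9bae3_nt.SK.Base
import Pool.Agent.Lib.MP_e426f4_ag.N.CubeCount

/-!
# Module SRK-Cls: integral vectors in coordinate boxes, classes modulo an ideal

`CBox F ι R`: the vectors `b : ι → 𝓞 F` all of whose coordinates with respect to the integral basis (`NFHP.crd`) are at most `R`.
For a class `s : ι → 𝓞 F ⧸ I` the set of the `b ∈ CBox` with `b mod I = s` is a product set, and `cube_count` gives the number of
elements of each factor.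
-/

set_option linter.unusedSectionVars false

namespace StarkR

open NumberField IsDedekindDomain NFHP Filter Topology

variable {F : Type} [Field F] [NumberField F] {ι : Type} [Fintype ι]

/-- vectors of integers with coordinates at most `R` -/
def CBox (F : Type) [Field F] [NumberField F] (ι : Type) (R : ℕ) : Set (ι → 𝓞 F) :=
  {b | ∀ t, ∀ j, |(crd (b t) j : ℝ)| ≤ R}

private theorem clsBox_eq (R : ℕ) : CBox F ι R =
    Set.pi Set.univ fun _ : ι => {a : 𝓞 F | ∀ j, |(crd a j : ℝ) - 0| ≤ (R : ℝ)} := by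
  ext b
  simp only [CBox, sub_zero, Set.mem_pi, Set.mem_univ, true_imp_iff, Set.mem_ofPred_eq]

theorem CBox_finite (R : ℕ) : (CBox F ι R).Finite := by
  rw [clsBox_eq]
  exact Set.Finite.pi fun _ => cube_finite (fun _ => 0) _

private theorem clsCube_card (R : ℕ) :
    Set.ncard {a : 𝓞 F | ∀ j, |(crd a j : ℝ) - 0| ≤ (R : ℝ)} = (2 * R + 1) ^ mK F := by
  classical
  have h := ncard_cube (K := F) (fun _ => 0) (R : ℝ)
  rw [h]
  unfold cubeF
  rw [Fintype.card_piFinset]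
  have h2 : ∀ j : IK F, (Finset.Icc ⌈(0 : ℝ) - R⌉ ⌊(0 : ℝ) + R⌋).card = 2 * R + 1 := by
    intro _
    rw [zero_sub, zero_add, Int.ceil_neg, Int.floor_natCast, Int.card_Icc]
    omega
  rw [Finset.prod_congr rfl fun j _ => h2 j, Finset.prod_const, Finset.card_univ, card_IK]

private theorem clsPi_ncard (T : ι → Set (𝓞 F)) (hT : ∀ t, (T t).Finite) :
    (Set.pi Set.univ T).ncard = ∏ t, (T t).ncard := by
  classical
  have e : Set.pi Set.univ T =
      ((Fintype.piFinset fun t => (hT t).toFinset : Finset (ι → 𝓞 F)) : Set (ι → 𝓞 F)) := by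
    ext b
    simp only [Set.mem_pi, Set.mem_univ, true_imp_iff, Finset.mem_coe, Fintype.mem_piFinset,
      Set.Finite.mem_toFinset]
  rw [e, Set.ncard_coe_finset, Fintype.card_piFinset]
  exact Finset.prod_congr rfl fun t _ => (Set.ncard_eq_toFinset_card _ (hT t)).symm

theorem CBox_card (R : ℕ) : (CBox F ι R).ncard = (2 * R + 1) ^ (mK F * Fintype.card ι) := by
  rw [clsBox_eq, clsPi_ncard _ fun _ => cube_finite (fun _ => 0) _]
  rw [Finset.prod_congr rfl fun t _ => clsCube_card R, Finset.prod_const, Finset.card_univ, pow_mul]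

private theorem clsSingle (I : Ideal (𝓞 F)) (hI : I ≠ ⊥) (r : 𝓞 F) :
    Tendsto (fun R : ℕ => (Set.ncard {a : 𝓞 F | a - r ∈ I ∧ ∀ j, |(crd a j : ℝ) - 0| ≤ (R : ℝ)} : ℝ) /
      (2 * (R : ℝ) + 1) ^ mK F) atTop (𝓝 (1 / (Ideal.absNorm I : ℝ))) := by
  have hN : (0 : ℝ) < Ideal.absNorm I := by exact_mod_cast absNorm_pos hI
  set u : ℕ → ℝ := fun R =>
    (Set.ncard {a : 𝓞 F | a - r ∈ I ∧ ∀ j, |(crd a j : ℝ) - 0| ≤ (R : ℝ)} : ℝ) with hu
  have h1 : Tendsto (fun R : ℕ => u R / ((2 * (R : ℝ)) ^ mK F / Ideal.absNorm I)) atTop (𝓝 1) := by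
    rw [Metric.tendsto_nhds]
    intro ε hε
    obtain ⟨R0, hR0, hR⟩ := cube_count I hI (ε / 2) (by positivity)
    filter_upwards [eventually_ge_atTop ⌈R0⌉₊] with R hR1
    have hR2 : R0 ≤ (R : ℝ) := (Nat.le_ceil R0).trans (by exact_mod_cast hR1)
    obtain ⟨_, h2, h3⟩ := hR R hR2 (fun _ => 0) r
    have hRp : (0 : ℝ) < R := lt_of_lt_of_le hR0 hR2
    have hc : 0 < (2 * (R : ℝ)) ^ mK F / Ideal.absNorm I := by positivity
    rw [Real.dist_eq]
    have h4 : 1 - ε / 2 ≤ u R / ((2 * (R : ℝ)) ^ mK F / Ideal.absNorm I) := by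
      rw [le_div_iff₀ hc]
      exact h2
    have h5 : u R / ((2 * (R : ℝ)) ^ mK F / Ideal.absNorm I) ≤ 1 + ε / 2 := by
      rw [div_le_iff₀ hc]
      exact h3
    rw [abs_lt]
    constructor <;> linarith
  have h2 : Tendsto (fun R : ℕ => (R : ℝ) / ((R : ℝ) + 1 / 2)) atTop (𝓝 1) :=
    tendsto_natCast_div_add_atTop (1 / 2 : ℝ)
  have h3 : Tendsto (fun R : ℕ => u R / ((2 * (R : ℝ)) ^ mK F / Ideal.absNorm I) *
      ((R : ℝ) / ((R : ℝ) + 1 / 2)) ^ mK F * (1 / (Ideal.absNorm I : ℝ))) atTop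
      (𝓝 (1 * 1 ^ mK F * (1 / (Ideal.absNorm I : ℝ)))) :=
    (h1.mul (h2.pow (mK F))).mul_const _
  rw [one_pow, one_mul, one_mul] at h3
  refine h3.congr' ?_
  filter_upwards [eventually_ge_atTop 1] with R hR
  have hRp : (0 : ℝ) < R := by exact_mod_cast hR
  have e1 : (R : ℝ) / ((R : ℝ) + 1 / 2) = (2 * (R : ℝ)) / (2 * (R : ℝ) + 1) := by
    field_simp
  rw [e1, div_pow]
  have h4 : (2 * (R : ℝ)) ^ mK F ≠ 0 := by positivity
  have h5 : (2 * (R : ℝ) + 1) ^ mK F ≠ 0 := by positivity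
  have h6 : (Ideal.absNorm I : ℝ) ≠ 0 := hN.ne'
  show u R / ((2 * (R : ℝ)) ^ mK F / Ideal.absNorm I) *
    ((2 * (R : ℝ)) ^ mK F / (2 * (R : ℝ) + 1) ^ mK F) * (1 / (Ideal.absNorm I : ℝ)) =
    u R / (2 * (R : ℝ) + 1) ^ mK F
  field_simp

private theorem clsOne (I : Ideal (𝓞 F)) (s : ι → 𝓞 F ⧸ I) (R : ℕ) :
    {b : ι → 𝓞 F | b ∈ CBox F ι R ∧ (fun t => Ideal.Quotient.mk I (b t)) = s} =
      Set.pi Set.univ fun t : ι =>
        {a : 𝓞 F | a - Quotient.out (s t) ∈ I ∧ ∀ j, |(crd a j : ℝ) - 0| ≤ (R : ℝ)} := by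
  ext b
  simp only [CBox, sub_zero, Set.mem_pi, Set.mem_univ, true_imp_iff, Set.mem_ofPred_eq]
  constructor
  · rintro ⟨h1, h2⟩ t
    refine ⟨?_, h1 t⟩
    rw [← Ideal.Quotient.eq, Ideal.Quotient.mk_out]
    exact congrFun h2 t
  · intro h
    refine ⟨fun t => (h t).2, ?_⟩
    funext t
    have := (h t).1
    rw [← Ideal.Quotient.eq, Ideal.Quotient.mk_out] at this
    exact this

private theorem clsOne_tendsto (I : Ideal (𝓞 F)) (hI : I ≠ ⊥) (s : ι → 𝓞 F ⧸ I) :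
    Tendsto (fun R : ℕ => (Set.ncard {b : ι → 𝓞 F | b ∈ CBox F ι R ∧
      (fun t => Ideal.Quotient.mk I (b t)) = s} : ℝ) / ((CBox F ι R).ncard : ℝ)) atTop
      (𝓝 (1 / (Ideal.absNorm I : ℝ) ^ Fintype.card ι)) := by
  have h1 : Tendsto (fun R : ℕ => ∏ t : ι, ((Set.ncard {a : 𝓞 F | a - Quotient.out (s t) ∈ I ∧
      ∀ j, |(crd a j : ℝ) - 0| ≤ (R : ℝ)} : ℝ) / (2 * (R : ℝ) + 1) ^ mK F)) atTop
      (𝓝 (∏ _t : ι, (1 / (Ideal.absNorm I : ℝ)))) :=
    tendsto_finsetProd _ fun t _ => clsSingle I hI _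
  rw [Finset.prod_const, Finset.card_univ, one_div, inv_pow, ← one_div] at h1
  refine h1.congr fun R => ?_
  rw [clsOne, clsPi_ncard _ fun t => (cube_finite (fun _ => 0) (R : ℝ)).subset fun _ h => h.2,
    CBox_card, Finset.prod_div_distrib, Finset.prod_const, Finset.card_univ, ← pow_mul]
  push_cast
  rfl

/-- the frequency of a set of classes modulo an ideal -/
theorem cls_freq (I : Ideal (𝓞 F)) (hI : I ≠ ⊥) (S : Set (ι → 𝓞 F ⧸ I)) :
    Tendsto (fun R : ℕ => (Set.ncard {b : ι → 𝓞 F | b ∈ CBox F ι R ∧ (fun t => Ideal.Quotient.mk I (b t)) ∈ S} : ℝ) /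
      ((CBox F ι R).ncard : ℝ)) atTop (𝓝 ((S.ncard : ℝ) / (Ideal.absNorm I : ℝ) ^ Fintype.card ι)) := by
  classical
  have hfinq : Finite (𝓞 F ⧸ I) := Ideal.finiteQuotientOfFreeOfNeBot I hI
  have hS : S.Finite := Set.toFinite S
  have h1 : Tendsto (fun R : ℕ => ∑ s ∈ hS.toFinset, (Set.ncard {b : ι → 𝓞 F | b ∈ CBox F ι R ∧
      (fun t => Ideal.Quotient.mk I (b t)) = s} : ℝ) / ((CBox F ι R).ncard : ℝ)) atTop
      (𝓝 (∑ _s ∈ hS.toFinset, 1 / (Ideal.absNorm I : ℝ) ^ Fintype.card ι)) :=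
    tendsto_finsetSum _ fun s _ => clsOne_tendsto I hI s
  rw [Finset.sum_const, ← Set.ncard_eq_toFinset_card S hS, nsmul_eq_mul, mul_one_div] at h1
  refine h1.congr fun R => ?_
  rw [← Finset.sum_div]
  congr 1
  have hfin : {b : ι → 𝓞 F | b ∈ CBox F ι R ∧ (fun t => Ideal.Quotient.mk I (b t)) ∈ S}.Finite :=
    (CBox_finite R).subset fun _ h => h.1
  rw [Set.ncard_eq_toFinset_card _ hfin,
    Finset.card_eq_sum_card_fiberwise (f := fun b : ι → 𝓞 F => fun t => Ideal.Quotient.mk I (b t))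
      (t := hS.toFinset) (fun b hb => by
        have := (hfin.mem_toFinset.mp (Finset.mem_coe.mp hb)).2
        exact Finset.mem_coe.mpr (hS.mem_toFinset.mpr this))]
  push_cast
  refine Finset.sum_congr rfl fun s hs => ?_
  congr 1
  rw [← Set.ncard_coe_finset]
  congr 1
  ext b
  rw [Finset.mem_coe, Finset.mem_filter, Set.Finite.mem_toFinset]
  constructor
  · rintro ⟨h2, h3⟩
    refine ⟨⟨h2, ?_⟩, h3⟩
    rw [h3]
    exact hS.mem_toFinset.mp hs
  · rintro ⟨⟨h2, _⟩, h3⟩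
    exact ⟨h2, h3⟩

end StarkR
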