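import Pool.Agent.Lib.MP_d9bae3_nt.SK.PrimeSum
import Pool.Agent.Lib.MP_d9bae3_nt.SK.Cls
import Pool.Agent.Lib.MP_d9bae3_nt.SK.Dens

/-!
# Module SRK-Cheb: almost all families have many primes with `Ev`

Plan (Chebyshev).  Fix `v`, `k`, `ε`.  `B` = the primes dividing `e` (finite, `e ≠ 0`).  By `prime_sum` and `dens_ge` there is a finite set `A` of primes
outside `B` with `Δ = ∑_{q ∈ A} dens e v q` as large as we like, say `Δ ≥ 2k + 1` and `4/Δ ≤ ε/2`.  For `b` let `N(b)` be the number of the `q ∈ A`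
with `Ev e v b q`.  The mean of `N(b)` over `b ∈ CBox F (V n) R` tends to `Δ` (`cls_freq` for `q^2`: `Ev e v b q` iff the class of `b` is in `evCls`,
by `ev_congr`), and the mean of `N(b)^2 = ∑_{q,q'} [Ev at q and q']` tends to `∑_{q ≠ q'} dens q dens q' + Δ ≤ Δ^2 + Δ` (`cls_freq` for `q^2 q'^2`, `dens_pair`).
So the mean of `(N(b) - Δ)^2` has a limit `≤ Δ`, and the proportion of the `b` with `N(b) < k ≤ Δ/2` is at most `4/Δ^2 · (Δ + o(1)) ≤ ε` for large `R`.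
-/

namespace StarkR

open NumberField IsDedekindDomain NFHP Filter Topology

variable {F : Type} [Field F] [NumberField F] {m : ℕ} {n : Fin m → ℕ} [∀ i, NeZero (n i)]

private theorem cheb_count (R : ℕ) (P : (V n → 𝓞 F) → Prop) [DecidablePred P] :
    (∑ b ∈ (CBox_finite (F := F) (ι := V n) R).toFinset, (if P b then (1 : ℝ) else 0)) =
      (Set.ncard {b : V n → 𝓞 F | b ∈ CBox F (V n) R ∧ P b} : ℝ) := by
  rw [Finset.sum_boole, ← Set.ncard_coe_finset]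
  congr 2
  ext b
  simp

private theorem cheb_one (e : ℕ) (v : V n) (q : Prm F) :
    Tendsto (fun R : ℕ => (Set.ncard {b : V n → 𝓞 F | b ∈ CBox F (V n) R ∧ Ev e v b q} : ℝ) /
      ((CBox F (V n) R).ncard : ℝ)) atTop (𝓝 (dens e v q)) := by
  have hI : q.asIdeal ^ 2 ≠ ⊥ := pow_ne_zero 2 q.ne_bot
  have h := cls_freq (ι := V n) (q.asIdeal ^ 2) hI (evCls e v q)
  refine h.congr fun R => ?_
  have hset : {b : V n → 𝓞 F | b ∈ CBox F (V n) R ∧
      (fun t => Ideal.Quotient.mk (q.asIdeal ^ 2) (b t)) ∈ evCls e v q} =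
      {b : V n → 𝓞 F | b ∈ CBox F (V n) R ∧ Ev e v b q} := by
    ext b
    refine and_congr_right fun _ => ⟨?_, fun hb => ⟨b, fun w => rfl, hb⟩⟩
    rintro ⟨b', hb', hE⟩
    exact ev_congr (fun w => (Ideal.Quotient.mk_eq_mk_iff_sub_mem (b' w) (b w)).1 (hb' w)) hE
  rw [hset]

private theorem cheb_two (e : ℕ) (v : V n) {q q' : Prm F} (hq : q ≠ q') :
    Tendsto (fun R : ℕ => (Set.ncard {b : V n → 𝓞 F | b ∈ CBox F (V n) R ∧
      (Ev e v b q ∧ Ev e v b q')} : ℝ) / ((CBox F (V n) R).ncard : ℝ)) atTop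
      (𝓝 (dens e v q * dens e v q')) := by
  have hI : q.asIdeal ^ 2 * q'.asIdeal ^ 2 ≠ ⊥ :=
    mul_ne_zero (pow_ne_zero 2 q.ne_bot) (pow_ne_zero 2 q'.ne_bot)
  have h := cls_freq (ι := V n) (q.asIdeal ^ 2 * q'.asIdeal ^ 2) hI (evCls2 e v q q')
  rw [dens_pair e v hq] at h
  refine h.congr fun R => ?_
  have hset : {b : V n → 𝓞 F | b ∈ CBox F (V n) R ∧
      (fun t => Ideal.Quotient.mk (q.asIdeal ^ 2 * q'.asIdeal ^ 2) (b t)) ∈ evCls2 e v q q'} =
      {b : V n → 𝓞 F | b ∈ CBox F (V n) R ∧ (Ev e v b q ∧ Ev e v b q')} := by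
    ext b
    refine and_congr_right fun _ => ⟨?_, fun hb => ⟨b, fun w => rfl, hb.1, hb.2⟩⟩
    rintro ⟨b', hb', hE, hE'⟩
    have h1 : ∀ w, b' w - b w ∈ q.asIdeal ^ 2 * q'.asIdeal ^ 2 := fun w =>
      (Ideal.Quotient.mk_eq_mk_iff_sub_mem (b' w) (b w)).1 (hb' w)
    have h2 : ∀ w, b' w - b w ∈ q.asIdeal ^ 2 := fun w =>
      Ideal.mul_le_left (I := q.asIdeal ^ 2) (J := q'.asIdeal ^ 2) (h1 w)
    have h3 : ∀ w, b' w - b w ∈ q'.asIdeal ^ 2 := fun w =>
      Ideal.mul_le_right (I := q.asIdeal ^ 2) (J := q'.asIdeal ^ 2) (h1 w)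
    exact ⟨ev_congr h2 hE, ev_congr h3 hE'⟩
  rw [hset]

private theorem cheb_finite {e : ℕ} (he : 0 < e) :
    {q : Prm F | (e : 𝓞 F) ∈ q.asIdeal}.Finite := by
  have h0 : Ideal.span {(e : 𝓞 F)} ≠ 0 := by
    rw [Ne, Ideal.zero_eq_bot, Ideal.span_singleton_eq_bot]
    exact_mod_cast he.ne'
  refine (Ideal.finite_factors h0).subset fun q hq => ?_
  exact Ideal.dvd_iff_le.2 ((Ideal.span_singleton_le_iff_mem _).2 hq)

theorem few_ev {e : ℕ} (he : 0 < e) (v : V n) (k : ℕ) (ε : ℝ) (hε : 0 < ε) :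
    ∀ᶠ R : ℕ in atTop, (Set.ncard {b : V n → 𝓞 F | b ∈ CBox F (V n) R ∧
      ¬ ∃ A : Finset (Prm F), k ≤ A.card ∧ ∀ q ∈ A, (e : 𝓞 F) ∉ q.asIdeal ∧ Ev e v b q} : ℝ) ≤
        ε * ((CBox F (V n) R).ncard : ℝ) := by
  classical
  set B : Set (Prm F) := {q : Prm F | (e : 𝓞 F) ∈ q.asIdeal} with hB
  have he' : (0 : ℝ) < e := by exact_mod_cast he
  set c : ℝ := (1 / (2 * (e : ℝ))) ^ Fintype.card (V n) with hc
  have hc0 : 0 < c := by positivity
  obtain ⟨A, hAB, hA⟩ := prime_sum F B (cheb_finite he) (max (2 * (k : ℝ) + 1) (8 / ε) / c)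
  set Δ : ℝ := ∑ q ∈ A, dens e v q with hΔdef
  have hΔ : max (2 * (k : ℝ) + 1) (8 / ε) ≤ Δ := by
    have h1 : c * ∑ q ∈ A, 1 / (nm q : ℝ) ≤ Δ := by
      rw [Finset.mul_sum]
      refine Finset.sum_le_sum fun q _ => ?_
      rw [mul_one_div]
      exact dens_ge he v q
    have h2 := (div_le_iff₀ hc0).1 hA
    linarith [mul_comm c (∑ q ∈ A, 1 / (nm q : ℝ))]
  have hΔk : 2 * (k : ℝ) + 1 ≤ Δ := (le_max_left _ _).trans hΔ
  have hΔε : 8 / ε ≤ Δ := (le_max_right _ _).trans hΔ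
  have hk0 : (0 : ℝ) ≤ k := Nat.cast_nonneg k
  have hΔ1 : 1 ≤ Δ := by linarith
  have hΔ0 : 0 < Δ := by linarith
  -- the finite sets
  let s : ℕ → Finset (V n → 𝓞 F) := fun R => (CBox_finite (F := F) (ι := V n) R).toFinset
  have hscard : ∀ R, ((s R).card : ℝ) = ((CBox F (V n) R).ncard : ℝ) := by
    intro R
    rw [Set.ncard_eq_toFinset_card _ (CBox_finite (F := F) (ι := V n) R)]
  let I : (V n → 𝓞 F) → Prm F → ℝ := fun b q => if Ev e v b q then 1 else 0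
  let n1 : Prm F → ℕ → ℝ := fun q R =>
    (Set.ncard {b : V n → 𝓞 F | b ∈ CBox F (V n) R ∧ Ev e v b q} : ℝ)
  let n2 : Prm F → Prm F → ℕ → ℝ := fun q q' R =>
    (Set.ncard {b : V n → 𝓞 F | b ∈ CBox F (V n) R ∧ (Ev e v b q ∧ Ev e v b q')} : ℝ)
  have hI1 : ∀ q R, ∑ b ∈ s R, I b q = n1 q R := fun q R => cheb_count R _
  have hI2 : ∀ q q' R, ∑ b ∈ s R, I b q * I b q' = n2 q q' R := by
    intro q q' R
    refine Eq.trans ?_ (cheb_count R (fun b => Ev e v b q ∧ Ev e v b q'))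
    refine Finset.sum_congr rfl fun b _ => ?_
    by_cases h1 : Ev e v b q <;> by_cases h2 : Ev e v b q' <;> simp [I, h1, h2]
  -- the second moment
  have hmom : ∀ R, ∑ b ∈ s R, (∑ q ∈ A, I b q - Δ) ^ 2 =
      ∑ q ∈ A, ∑ q' ∈ A, n2 q q' R - 2 * Δ * ∑ q ∈ A, n1 q R + Δ ^ 2 * (s R).card := by
    intro R
    have h1 : ∀ b, (∑ q ∈ A, I b q - Δ) ^ 2 =
        ∑ q ∈ A, ∑ q' ∈ A, I b q * I b q' - 2 * Δ * ∑ q ∈ A, I b q + Δ ^ 2 := by
      intro b
      rw [← Finset.sum_mul_sum]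
      ring
    simp only [h1]
    rw [Finset.sum_add_distrib, Finset.sum_sub_distrib, ← Finset.mul_sum, Finset.sum_const,
      nsmul_eq_mul, Finset.sum_comm]
    congr 1
    · congr 1
      · refine Finset.sum_congr rfl fun q _ => ?_
        rw [Finset.sum_comm]
        exact Finset.sum_congr rfl fun q' _ => hI2 q q' R
      · congr 1
        rw [Finset.sum_comm]
        exact Finset.sum_congr rfl fun q _ => hI1 q R
    · ring
  -- the limits
  let C : ℕ → ℝ := fun R => ((CBox F (V n) R).ncard : ℝ)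
  have hCpos : ∀ R, 0 < C R := by
    intro R
    show (0 : ℝ) < ((CBox F (V n) R).ncard : ℝ)
    rw [CBox_card]
    positivity
  have ht1 : ∀ q, Tendsto (fun R => n1 q R / C R) atTop (𝓝 (dens e v q)) :=
    fun q => cheb_one e v q
  have ht2 : ∀ q q', Tendsto (fun R => n2 q q' R / C R) atTop
      (𝓝 (if q = q' then dens e v q else dens e v q * dens e v q')) := by
    intro q q'
    by_cases hqq : q = q'
    · subst hqq
      rw [if_pos rfl]
      refine (ht1 q).congr fun R => ?_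
      have hset : {b : V n → 𝓞 F | b ∈ CBox F (V n) R ∧ (Ev e v b q ∧ Ev e v b q)} =
          {b : V n → 𝓞 F | b ∈ CBox F (V n) R ∧ Ev e v b q} := by
        ext b
        simp
      show n1 q R / C R = n2 q q R / C R
      simp only [n1, n2, hset]
    · rw [if_neg hqq]
      exact cheb_two e v hqq
  set L : ℝ := ∑ q ∈ A, ∑ q' ∈ A, (if q = q' then dens e v q else dens e v q * dens e v q') -
    2 * Δ * ∑ q ∈ A, dens e v q + Δ ^ 2 with hL
  have htL : Tendsto (fun R => (∑ b ∈ s R, (∑ q ∈ A, I b q - Δ) ^ 2) / C R) atTop (𝓝 L) := by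
    have h1 : Tendsto (fun R => ∑ q ∈ A, ∑ q' ∈ A, n2 q q' R / C R -
        2 * Δ * ∑ q ∈ A, n1 q R / C R + Δ ^ 2) atTop (𝓝 L) := by
      refine Tendsto.add (Tendsto.sub ?_ (Tendsto.const_mul _ ?_)) tendsto_const_nhds
      · exact tendsto_finsetSum _ fun q _ => tendsto_finsetSum _ fun q' _ => ht2 q q'
      · exact tendsto_finsetSum _ fun q _ => ht1 q
    refine h1.congr fun R => ?_
    have hC := (hCpos R).ne'
    rw [hmom, hscard]
    simp only [← Finset.sum_div]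
    show _ = (∑ q ∈ A, ∑ q' ∈ A, n2 q q' R - 2 * Δ * ∑ q ∈ A, n1 q R + Δ ^ 2 * C R) / C R
    field_simp
  have hLle : L ≤ Δ := by
    have h1 : ∑ q ∈ A, ∑ q' ∈ A, (if q = q' then dens e v q else dens e v q * dens e v q') ≤
        ∑ q ∈ A, ∑ q' ∈ A, ((if q = q' then dens e v q else 0) +
          dens e v q * dens e v q') := by
      refine Finset.sum_le_sum fun q _ => Finset.sum_le_sum fun q' _ => ?_
      have h0 : ∀ p : Prm F, 0 ≤ dens e v p := fun p =>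
        le_trans (by positivity) (dens_ge he v p)
      split_ifs
      · linarith [mul_nonneg (h0 q) (h0 q')]
      · linarith
    have h2 : ∑ q ∈ A, ∑ q' ∈ A, ((if q = q' then dens e v q else 0) +
        dens e v q * dens e v q') = Δ + Δ ^ 2 := by
      simp only [Finset.sum_add_distrib, Finset.sum_ite_eq]
      rw [← Finset.sum_mul_sum, sq]
      congr 1
      exact Finset.sum_congr rfl fun q hq => if_pos hq
    rw [hL]
    nlinarith
  have hev : ∀ᶠ R in atTop, (∑ b ∈ s R, (∑ q ∈ A, I b q - Δ) ^ 2) / C R < Δ + 1 :=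
    htL.eventually_lt_const (by linarith)
  refine hev.mono fun R hR => ?_
  rw [div_lt_iff₀ (hCpos R)] at hR
  have hsub : {b : V n → 𝓞 F | b ∈ CBox F (V n) R ∧
      ¬ ∃ A : Finset (Prm F), k ≤ A.card ∧ ∀ q ∈ A, (e : 𝓞 F) ∉ q.asIdeal ∧ Ev e v b q} ⊆
      (((s R).filter fun b => ∑ q ∈ A, I b q < (k : ℝ) : Finset (V n → 𝓞 F)) :
        Set (V n → 𝓞 F)) := by
    rintro b ⟨hb, hno⟩
    rw [Finset.mem_coe, Finset.mem_filter]
    refine ⟨(Set.Finite.mem_toFinset _).2 hb, ?_⟩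
    by_contra hcon
    rw [not_lt] at hcon
    refine hno ⟨A.filter fun q => Ev e v b q, ?_, fun q hq => ?_⟩
    · have h1 : ∑ q ∈ A, I b q = ((A.filter fun q => Ev e v b q).card : ℝ) :=
        Finset.sum_boole _ _
      rw [h1] at hcon
      exact_mod_cast hcon
    · rw [Finset.mem_filter] at hq
      exact ⟨hAB q hq.1, hq.2⟩
  have hcard : (Set.ncard {b : V n → 𝓞 F | b ∈ CBox F (V n) R ∧
      ¬ ∃ A : Finset (Prm F), k ≤ A.card ∧ ∀ q ∈ A, (e : 𝓞 F) ∉ q.asIdeal ∧ Ev e v b q} : ℝ) ≤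
      (((s R).filter fun b => ∑ q ∈ A, I b q < (k : ℝ)).card : ℝ) := by
    have h1 := Set.ncard_le_ncard hsub (Finset.finite_toSet _)
    rw [Set.ncard_coe_finset] at h1
    exact_mod_cast h1
  have hmark : (((s R).filter fun b => ∑ q ∈ A, I b q < (k : ℝ)).card : ℝ) * (Δ ^ 2 / 4) ≤
      ∑ b ∈ s R, (∑ q ∈ A, I b q - Δ) ^ 2 := by
    calc (((s R).filter fun b => ∑ q ∈ A, I b q < (k : ℝ)).card : ℝ) * (Δ ^ 2 / 4)
        = ∑ b ∈ (s R).filter (fun b => ∑ q ∈ A, I b q < (k : ℝ)), (Δ ^ 2 / 4) := by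
          rw [Finset.sum_const, nsmul_eq_mul]
      _ ≤ ∑ b ∈ (s R).filter (fun b => ∑ q ∈ A, I b q < (k : ℝ)),
          (∑ q ∈ A, I b q - Δ) ^ 2 := by
          refine Finset.sum_le_sum fun b hb => ?_
          have h1 := (Finset.mem_filter.1 hb).2
          have h2 : Δ / 2 ≤ Δ - ∑ q ∈ A, I b q := by linarith
          have h3 : (Δ / 2) ^ 2 ≤ (Δ - ∑ q ∈ A, I b q) ^ 2 :=
            pow_le_pow_left₀ (by positivity) h2 2
          nlinarith
      _ ≤ ∑ b ∈ s R, (∑ q ∈ A, I b q - Δ) ^ 2 :=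
          Finset.sum_le_sum_of_subset_of_nonneg (Finset.filter_subset _ _)
            fun _ _ _ => sq_nonneg _
  refine hcard.trans ?_
  have hC := hCpos R
  show _ ≤ ε * C R
  have h8 : 8 ≤ ε * Δ := by
    have := (div_le_iff₀ hε).1 hΔε
    linarith [mul_comm Δ ε]
  set x : ℝ := (((s R).filter fun b => ∑ q ∈ A, I b q < (k : ℝ)).card : ℝ) with hx
  have h9 : x * (Δ ^ 2 / 4) ≤ (Δ + 1) * C R := hmark.trans hR.le
  have h10 : x * (Δ ^ 2 / 4) ≤ (ε * C R) * (Δ ^ 2 / 4) := by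
    refine h9.trans ?_
    have h11 : (Δ + 1) ≤ ε * (Δ ^ 2 / 4) := by nlinarith
    calc (Δ + 1) * C R ≤ (ε * (Δ ^ 2 / 4)) * C R := mul_le_mul_of_nonneg_right h11 hC.le
      _ = _ := by ring
  exact le_of_mul_le_mul_right h10 (by positivity)

end StarkR
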