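import Mathlib

/-!
# Abelian L-functions of number fields and random abelian extensions: definitions

`F` is a number field, `H` a finite Galois extension of `F`, and `χ` a character of `Gal(H/F)`.
Decomposition groups are the stabilisers `MulAction.stabilizer Gal(H/F) Q` of the primes `Q` of `H`, inertia
groups are Mathlib's `Ideal.inertia`.
-/

namespace StarkR

open NumberField IsDedekindDomain Polynomial
open scoped Pointwise

/-- The finite primes of the number field `F`. -/
abbrev Prm (F : Type) [Field F] [NumberField F] : Type := HeightOneSpectrum (𝓞 F)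

/-- The absolute norm of a prime. -/
noncomputable def nm {F : Type} [Field F] [NumberField F] (q : Prm F) : ℕ := Ideal.absNorm q.asIdeal

section ext

variable {F : Type} [Field F] [NumberField F]
variable (H : Type) [Field H] [NumberField H] [Algebra F H]

/-- The prime `q` of `F` is ramified in `H`: the inertia group of some prime of `H` above it is not trivial. -/
def Ramified (q : Prm F) : Prop :=
  ∃ Q : Ideal (𝓞 H), Q.IsPrime ∧ Q.LiesOver q.asIdeal ∧ Q.inertia Gal(H/F) ≠ ⊥

/-- The prime `q` of `F` splits completely in `H`: the decomposition groups of the primes above it are trivial. -/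
def Split (q : Prm F) : Prop :=
  ∀ Q : Ideal (𝓞 H), Q.IsPrime → Q.LiesOver q.asIdeal → MulAction.stabilizer Gal(H/F) Q = ⊥

/-- The number of places in `S` (a finite set of finite primes, together with all archimedean places) which split
completely in `H`.  For an archimedean place this means that no complex place of `H` lies above it if it is real. -/
noncomputable def splitNumber (S : Finset (Prm F)) : ℕ :=
  Nat.card {v : InfinitePlace F // v.IsUnramifiedIn H} + Set.ncard {q : Prm F | q ∈ S ∧ Split H q}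

variable {H}

/-- The character `χ` is trivial on the inertia groups of the primes above `q`. -/
def UnramifiedFor (χ : Gal(H/F) →* ℂˣ) (q : Prm F) : Prop :=
  ∀ Q : Ideal (𝓞 H), Q.IsPrime → Q.LiesOver q.asIdeal → ∀ σ ∈ Q.inertia Gal(H/F), χ σ = 1

/-- The character `χ` is trivial on the decomposition groups of the primes above `q`. -/
def TrivialAt (χ : Gal(H/F) →* ℂˣ) (q : Prm F) : Prop :=
  ∀ Q : Ideal (𝓞 H), Q.IsPrime → Q.LiesOver q.asIdeal → ∀ σ ∈ MulAction.stabilizer Gal(H/F) Q, χ σ = 1

/-- `σ` is a Frobenius element of a prime `Q` above `q`: `σ x ≡ x ^ N(q)` modulo `Q` for all integers `x` of `H`. -/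
def IsFrob (σ : Gal(H/F)) (q : Prm F) : Prop :=
  ∃ Q : Ideal (𝓞 H), Q.IsPrime ∧ Q.LiesOver q.asIdeal ∧ ∀ x : 𝓞 H, σ • x - x ^ nm q ∈ Q

/-- `χ(q)`: the value of `χ` at a Frobenius element of a prime above `q` (used for abelian `H` and
`χ` unramified at `q`, when it does not depend on the choice). -/
noncomputable def frobValue (χ : Gal(H/F) →* ℂˣ) (q : Prm F) : ℂ :=
  open Classical in
  if h : ∃ σ : Gal(H/F), IsFrob σ q then ((χ h.choose : ℂˣ) : ℂ) else 0

/-- `Λ` is the L-function of `χ`, with the Euler factors at all primes where `χ` is unramified: it is analytic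
outside `1`, and equal to the Euler product for `Re s > 1`.  (There is exactly one such function outside `1`, by Hecke and Artin;
this is not used.) -/
structure IsLFunction (χ : Gal(H/F) →* ℂˣ) (Λ : ℂ → ℂ) : Prop where
  analytic : AnalyticOnNhd ℂ Λ {1}ᶜ
  euler : ∀ s : ℂ, 1 < s.re →
    HasProd (fun q : {q : Prm F // UnramifiedFor χ q} => (1 - frobValue χ q.1 * (nm q.1 : ℂ) ^ (-s))⁻¹) (Λ s)

/-- `L_{S,T}(χ,s)`, obtained from the L-function `Λ` of `χ`: the Euler factors at `S` are removed and the factors
`1 - χ(q) N(q)^(1-s)`, `q ∈ T`, are added. -/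
noncomputable def LST (Λ : ℂ → ℂ) (χ : Gal(H/F) →* ℂˣ) (S T : Finset (Prm F)) (s : ℂ) : ℂ :=
  open Classical in
  Λ s * (∏ q ∈ S with UnramifiedFor χ q, (1 - frobValue χ q * (nm q : ℂ) ^ (-s))) *
    ∏ q ∈ T, (1 - frobValue χ q * (nm q : ℂ) ^ (1 - s))

/-- The `r`-th derivative at `0` of the Stickelberger element: the element `θ` of the group ring with `χ(θ)` equal to the `r`-th derivative of
`L_{S,T}(χ⁻¹,s)` at `0` for all `χ`, that is the sum over `χ` of these numbers times the idempotents `e_χ`. -/
noncomputable def theta (Λ : (Gal(H/F) →* ℂˣ) → ℂ → ℂ) (S T : Finset (Prm F)) (r : ℕ) :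
    MonoidAlgebra ℂ Gal(H/F) :=
  ∑ᶠ χ : Gal(H/F) →* ℂˣ, (iteratedDeriv r (LST (Λ χ⁻¹) χ⁻¹ S T) 0) •
    ((Nat.card Gal(H/F) : ℂ)⁻¹ • ∑ᶠ σ : Gal(H/F), MonoidAlgebra.single σ⁻¹ ((χ σ : ℂˣ) : ℂ))

end ext

section family

variable {F : Type} [Field F] [NumberField F] {m : ℕ}

/-- The finite abelian group `∏ ℤ/n_i`. -/
abbrev V (n : Fin m → ℕ) : Type := (i : Fin m) → ZMod (n i)

/-- `a_i = ∏_v b_v ^ v_i`, the product over all `v` in the group, `0 ≤ v_i < n_i`. -/
noncomputable def rad {n : Fin m → ℕ} [∀ i, NeZero (n i)] (b : V n → 𝓞 F) (i : Fin m) : 𝓞 F :=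
  ∏ v : V n, b v ^ (v i).val

/-- The families `b_v` of algebraic integers with all absolute values at most `X`. -/
def Box (F : Type) [Field F] [NumberField F] (n : Fin m → ℕ) (X : ℕ) : Set (V n → 𝓞 F) :=
  {b | ∀ v, ∀ φ : F →+* ℂ, ‖φ (b v : F)‖ ≤ X}

/-- `H` is generated over `F` by roots `α_i` with `α_i ^ n_i = a_i`. -/
structure IsExt {n : Fin m → ℕ} [∀ i, NeZero (n i)] (b : V n → 𝓞 F) (H : Type) [Field H] [NumberField H]
    [Algebra F H] (α : Fin m → H) : Prop where
  pow : ∀ i, α i ^ n i = algebraMap F H (rad b i : F)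
  gen : IntermediateField.adjoin F (Set.range α) = ⊤

end family

end StarkR
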