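import Pool.Agent.Lib.MP_d9bae3_nt.SK.Base

/-!
# Module SRK-Euler: `LST` is the function `L_{S,T}` of the conjecture

For `Re s > 1` and `S` containing the ramified primes, `LST Λ χ S T s` is the product over `q ∉ S` of the factors
`(1 - χ(q) N(q)^(-s))⁻¹` and over `q ∈ T` of the factors `1 - χ(q) N(q)^(1-s)`.
-/

namespace StarkR

open NumberField IsDedekindDomain

variable {F : Type} [Field F] [NumberField F]
variable {H : Type} [Field H] [NumberField H] [Algebra F H]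

theorem euler_norm_chi (χ : Gal(H/F) →* ℂˣ) (σ : Gal(H/F)) : ‖((χ σ : ℂˣ) : ℂ)‖ = 1 := by
  have : FiniteDimensional F H := Module.Finite.of_restrictScalars_finite ℚ F H
  have h1 : IsOfFinOrder σ := isOfFinOrder_of_finite σ
  obtain ⟨k, hk, h2⟩ := h1.exists_pow_eq_one
  refine Complex.norm_eq_one_of_pow_eq_one (n := k) ?_ hk.ne'
  rw [← Units.val_pow_eq_pow_val, ← map_pow, h2, map_one, Units.val_one]

theorem euler_norm_frobValue (χ : Gal(H/F) →* ℂˣ) (q : Prm F) : ‖frobValue χ q‖ ≤ 1 := by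
  unfold frobValue
  split_ifs with h
  · exact (euler_norm_chi χ _).le
  · simp

theorem euler_two_le_nm (q : Prm F) : 2 ≤ nm q := by
  have h0 : nm q ≠ 0 := by
    unfold nm
    rw [Ne, Ideal.absNorm_eq_zero_iff]
    exact q.ne_bot
  have h1 : nm q ≠ 1 := by
    unfold nm
    rw [Ne, Ideal.absNorm_eq_one_iff]
    exact q.isPrime.ne_top
  omega

theorem euler_one_sub_ne_zero (χ : Gal(H/F) →* ℂˣ) (q : Prm F) {s : ℂ} (hs : 1 < s.re) :
    1 - frobValue χ q * (nm q : ℂ) ^ (-s) ≠ 0 := by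
  have h2 := euler_two_le_nm q
  have h1 : ‖frobValue χ q * (nm q : ℂ) ^ (-s)‖ < 1 := by
    rw [norm_mul, Complex.norm_natCast_cpow_of_pos (by omega), Complex.neg_re]
    have h3 : ((nm q : ℕ) : ℝ) ^ (-s.re) < 1 :=
      Real.rpow_lt_one_of_one_lt_of_neg (by exact_mod_cast (by omega : 1 < nm q)) (by linarith)
    have h4 := euler_norm_frobValue χ q
    have h5 : 0 ≤ ((nm q : ℕ) : ℝ) ^ (-s.re) := Real.rpow_nonneg (Nat.cast_nonneg _) _
    nlinarith [norm_nonneg (frobValue χ q)]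
  intro h
  rw [sub_eq_zero] at h
  rw [← h, norm_one] at h1
  exact lt_irrefl _ h1

omit [NumberField H] in
theorem euler_unramified {χ : Gal(H/F) →* ℂˣ} {q : Prm F} (h : ¬ Ramified H q) : UnramifiedFor χ q := by
  intro Q hQ hQq σ hσ
  by_contra h1
  refine h ⟨Q, hQ, hQq, fun h2 => h1 ?_⟩
  rw [h2, Subgroup.mem_bot] at hσ
  rw [hσ, map_one]

theorem lst_euler {χ : Gal(H/F) →* ℂˣ} {Λ : ℂ → ℂ} (hΛ : IsLFunction χ Λ) (S T : Finset (Prm F))
    (hS : ∀ q : Prm F, Ramified H q → q ∈ S) (s : ℂ) (hs : 1 < s.re) :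
    ∃ P : ℂ, HasProd (fun q : {q : Prm F // q ∉ S} => (1 - frobValue χ q.1 * (nm q.1 : ℂ) ^ (-s))⁻¹) P ∧
      LST Λ χ S T s = P * ∏ q ∈ T, (1 - frobValue χ q * (nm q : ℂ) ^ (1 - s)) := by
  classical
  have hf := hΛ.euler s hs
  let c : {q : Prm F // UnramifiedFor χ q} → ℂ := fun q =>
    if q.1 ∈ S then 1 - frobValue χ q.1 * (nm q.1 : ℂ) ^ (-s) else 1
  have hc : HasProd c (∏ q ∈ S.subtype (UnramifiedFor χ), c q) := by
    refine hasProd_prod_of_ne_finset_one fun q hq => ?_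
    have h1 : q.1 ∉ S := fun h => hq (Finset.mem_subtype.2 h)
    simp [c, h1]
  have hprod : ∏ q ∈ S.subtype (UnramifiedFor χ), c q =
      ∏ q ∈ S with UnramifiedFor χ q, (1 - frobValue χ q * (nm q : ℂ) ^ (-s)) := by
    rw [← Finset.prod_subtype_eq_prod_filter]
    refine Finset.prod_congr rfl fun q hq => ?_
    have h1 : q.1 ∈ S := Finset.mem_subtype.1 hq
    simp [c, h1]
  rw [hprod] at hc
  have hg := hf.mul hc
  let ι : {q : Prm F // q ∉ S} → {q : Prm F // UnramifiedFor χ q} := fun q =>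
    ⟨q.1, euler_unramified fun h => q.2 (hS q.1 h)⟩
  have hι : Function.Injective ι := fun a b hab => Subtype.ext (congrArg (fun x => x.1) hab)
  rw [← hι.hasProd_iff] at hg
  · refine ⟨Λ s * ∏ q ∈ S with UnramifiedFor χ q, (1 - frobValue χ q * (nm q : ℂ) ^ (-s)), ?_, ?_⟩
    · convert hg using 1
      funext q
      have h1 : (ι q).1 = q.1 := rfl
      simp only [Function.comp, c, h1, if_neg q.2, mul_one]
    · unfold LST
      congr!
  · intro q hq
    have h1 : q.1 ∈ S := by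
      by_contra h2
      exact hq ⟨⟨q.1, h2⟩, rfl⟩
    simp only [c, if_pos h1]
    exact inv_mul_cancel₀ (euler_one_sub_ne_zero χ q.1 hs)

end StarkR
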