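import Pool.Agent.Lib.MP_d9bae3_nt.SK.Base

/-!
# Module SRK-Frob: characters trivial on decomposition groups

A character which is trivial on the decomposition groups above `q` is unramified at `q` and has the value `1` at the
Frobenius elements of `q`; all characters are of this kind if `q` splits completely, and a ramified prime does not split
completely.
-/

namespace StarkR

open NumberField IsDedekindDomain
open scoped Pointwise

variable {F : Type} [Field F] [NumberField F]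
variable {H : Type} [Field H] [NumberField H] [Algebra F H]

theorem trivialAt_unr {χ : Gal(H/F) →* ℂˣ} {q : Prm F} (h : TrivialAt χ q) : UnramifiedFor χ q := by
  intro Q hQ hQq σ hσ
  exact h Q hQ hQq σ (Ideal.inertia_le_stabilizer Q hσ)

private theorem scc : SMulCommClass Gal(H/F) (𝓞 F) (𝓞 H) := by
  refine ⟨fun σ r x => ?_⟩
  apply RingOfIntegers.ext
  have h1 : ((σ • (r • x) : 𝓞 H) : H) = σ ((r • x : 𝓞 H) : H) := rfl
  have h2 : ((r • (σ • x) : 𝓞 H) : H) = (algebraMap F H (r : F)) * σ (x : H) := rfl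
  have h3 : ((r • x : 𝓞 H) : H) = (algebraMap F H (r : F)) * (x : H) := rfl
  rw [h1, h2, h3, map_mul, AlgEquiv.commutes]

theorem trivialAt_frob [IsGalois F H] {χ : Gal(H/F) →* ℂˣ} {q : Prm F} (h : TrivialAt χ q) : frobValue χ q = 1 := by
  have hcc : SMulCommClass Gal(H/F) (𝓞 F) (𝓞 H) := scc
  -- a prime above q
  obtain ⟨⟨Q, hQp, hQq⟩⟩ : Nonempty (Ideal.primesOver q.asIdeal (𝓞 H)) := inferInstance
  have hcard : ∀ (Q' : Ideal (𝓞 H)), Q'.LiesOver q.asIdeal → Nat.card (𝓞 F ⧸ Q'.under (𝓞 F)) = nm q := by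
    intro Q' hQ'
    have : Q'.under (𝓞 F) = q.asIdeal := hQ'.over.symm
    rw [this]
    rfl
  have hne : Q ≠ ⊥ := by
    rintro rfl
    have h1 := hQq.over
    apply q.ne_bot
    rw [h1]
    exact Ideal.under_bot (𝓞 F) (𝓞 H)
  have hmax : Q.IsMaximal := hQp.isMaximal hne
  have hfin : Finite (𝓞 H ⧸ Q) := Ring.HasFiniteQuotients.finiteQuotient hne
  obtain ⟨σ, hσ⟩ := IsArithFrobAt.exists_of_isInvariant (𝓞 F) Gal(H/F) Q
  have hex : ∃ σ : Gal(H/F), IsFrob σ q := by
    refine ⟨σ, Q, hQp, hQq, fun x => ?_⟩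
    have := hσ x
    rw [hcard Q hQq] at this
    exact this
  unfold frobValue
  rw [dif_pos hex]
  obtain ⟨Q', hQ'p, hQ'q, hfr⟩ := hex.choose_spec
  have hfr' : IsArithFrobAt (𝓞 F) hex.choose Q' := by
    intro x
    rw [hcard Q' hQ'q]
    exact hfr x
  have := h Q' hQ'p hQ'q _ hfr'.mem_stabilizer
  rw [this, Units.val_one]

theorem split_trivialAt (χ : Gal(H/F) →* ℂˣ) {q : Prm F} (h : Split H q) : TrivialAt χ q := by
  intro Q hQ hQq σ hσ
  rw [h Q hQ hQq, Subgroup.mem_bot] at hσ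
  rw [hσ, map_one]

theorem ramified_not_split {q : Prm F} (h : Ramified H q) : ¬ Split H q := by
  rintro hs
  obtain ⟨Q, hQ, hQq, hne⟩ := h
  apply hne
  rw [eq_bot_iff]
  calc Q.inertia Gal(H/F) ≤ MulAction.stabilizer Gal(H/F) Q := Ideal.inertia_le_stabilizer Q
    _ = ⊥ := hs Q hQ hQq
    _ ≤ ⊥ := le_rfl

end StarkR
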