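import Pool.Agent.Lib.MP_d9bae3_nt.SK.Defs

/-!
# Stark's conjecture of order `r` in Rubin's form

`H/F` is an abelian extension of number fields, `S` and `T` are finite sets of primes of `F`; the archimedean places always belong to `S`.
-/

namespace StarkR

open NumberField IsDedekindDomain
open scoped Pointwise

/-- The normalised absolute value of `x` at the archimedean place `w` or at the prime `w` of `H`: `|x|` if `w` is real, `|x|^2` if `w` is complex,
`N(w)^(-ord_w x)` if `w` is a prime. -/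
noncomputable def normAbs {H : Type} [Field H] [NumberField H] (w : InfinitePlace H ⊕ Prm H) (x : H) : ℝ :=
  Sum.elim (fun w => w x ^ w.mult) (fun Q => HeightOneSpectrum.adicAbv H Q x) w

section

variable {F : Type} [Field F] [NumberField F] {H : Type} [Field H] [NumberField H] [Algebra F H]

/-- The place `v` of `F` belongs to `S` (with the archimedean places) and splits completely in `H`, and the place `w` of `H` lies above `v`. -/
def SplitAbove (S : Finset (Prm F)) (v : InfinitePlace F ⊕ Prm F) (w : InfinitePlace H ⊕ Prm H) : Prop :=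
  (∃ a b, v = .inl a ∧ w = .inl b ∧ a.IsUnramifiedIn H ∧ b.comap (algebraMap F H) = a) ∨
    ∃ q Q, v = .inr q ∧ w = .inr Q ∧ q ∈ S ∧ Split H q ∧ Q.asIdeal.LiesOver q.asIdeal

/-- `u` is an element of `U_{S,T}`: `u ∈ Hˣ`, `ord_Q u = 0` for the primes `Q` of `H` which do not lie above `S`, and `u ≡ 1` modulo the primes
above `T`. -/
def IsUnitST (S T : Finset (Prm F)) (u : H) : Prop :=
  u ≠ 0 ∧ (∀ Q : Prm H, (∀ q ∈ S, ¬ Q.asIdeal.LiesOver q.asIdeal) → Q.valuation H u = 1) ∧
    ∀ Q : Prm H, (∃ q ∈ T, Q.asIdeal.LiesOver q.asIdeal) → Q.valuation H (u - 1) < 1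

/-- `w^*(λ(u)) = ∑_γ log |u|_(γw) γ`, where `|u|_(γw) = |γ⁻¹ u|_w`. -/
noncomputable def logElt (w : InfinitePlace H ⊕ Prm H) (u : H) : MonoidAlgebra ℂ Gal(H/F) :=
  ∑ γ : Gal(H/F), MonoidAlgebra.single γ ((Real.log (normAbs w (γ⁻¹ u)) : ℝ) : ℂ)

/-- `φ(λ(u_1 ∧ ... ∧ u_r)) = det (w_i^*(λ(u_j)))`, the determinant in the (commutative) group ring written out. -/
noncomputable def detElt {r : ℕ} (w : Fin r → InfinitePlace H ⊕ Prm H) (u : Fin r → H) : MonoidAlgebra ℂ Gal(H/F) :=
  ∑ π : Equiv.Perm (Fin r), (Equiv.Perm.sign π : ℤ) • (List.ofFn fun j => logElt (w (π j)) (u j)).prod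

/-- **Stark's conjecture of order `r`** for the abelian extension `H/F`, `S` and `T` in Rubin's form (`r` is the number of places in `S` which split
completely, `v_1, ..., v_r` are these places, `w_i` is a place of `H` above `v_i`; `Λ χ` is the L-function of `χ`): `θ = φ(λ(u))` for some
`u ∈ ℚ ⊗ ⋀^r U_{S,T}`; that is, a multiple `N θ`, `N > 0`, is a sum of elements `± g φ(λ(u_1 ∧ ... ∧ u_r))`, `g ∈ Gal(H/F)`, `u_j ∈ U_{S,T}`. -/
def StarkRubin (Λ : (Gal(H/F) →* ℂˣ) → ℂ → ℂ) (S T : Finset (Prm F)) (r : ℕ) : Prop :=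
  ∀ (v : Fin r → InfinitePlace F ⊕ Prm F) (w : Fin r → InfinitePlace H ⊕ Prm H), Function.Injective v →
    (∀ i, SplitAbove S (v i) (w i)) →
    ∃ N : ℕ, 0 < N ∧ N • theta Λ S T r ∈
      AddSubgroup.closure {x : MonoidAlgebra ℂ Gal(H/F) | ∃ (g : Gal(H/F)) (u : Fin r → H), (∀ j, IsUnitST S T (u j)) ∧
        x = MonoidAlgebra.single g 1 * detElt w u}

theorem starkRubin_of_theta {Λ : (Gal(H/F) →* ℂˣ) → ℂ → ℂ} {S T : Finset (Prm F)} {r : ℕ} (h : theta Λ S T r = 0) :
    StarkRubin Λ S T r := by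
  intro v w _ _
  refine ⟨1, one_pos, ?_⟩
  rw [h, smul_zero]
  exact zero_mem _

end

end StarkR
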